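import Mathlib

/-!
# MP_a65497_an: Phragmen-Lindelof in a half strip and the shift of a contour in a half strip
-/

set_option autoImplicit false

namespace Pool.Agent.SX

open Complex Filter Topology Set MeasureTheory

/-- the maximum principle in a closed rectangle -/
theorem rect_max {m : ℂ → ℂ} {a b c d B : ℝ}
    (hd : ∀ ζ : ℂ, a ≤ ζ.re → ζ.re ≤ b → c ≤ ζ.im → ζ.im ≤ d → DifferentiableAt ℂ m ζ)
    (h1 : ∀ ζ : ℂ, a ≤ ζ.re → ζ.re ≤ b → c ≤ ζ.im → ζ.im ≤ d →
      (ζ.re = a ∨ ζ.re = b ∨ ζ.im = c ∨ ζ.im = d) → ‖m ζ‖ ≤ B) :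
    ∀ ζ : ℂ, a ≤ ζ.re → ζ.re ≤ b → c ≤ ζ.im → ζ.im ≤ d → ‖m ζ‖ ≤ B := by
  intro ζ ha hb hc hd'
  set U : Set ℂ := {z : ℂ | a < z.re ∧ z.re < b ∧ c < z.im ∧ z.im < d} with hU
  set K : Set ℂ := {z : ℂ | a ≤ z.re ∧ z.re ≤ b ∧ c ≤ z.im ∧ z.im ≤ d} with hK
  by_cases hζ : ζ ∈ U
  · have hKc : IsClosed K := by
      apply (isClosed_le continuous_const Complex.continuous_re).inter
      apply (isClosed_le Complex.continuous_re continuous_const).inter
      apply (isClosed_le continuous_const Complex.continuous_im).inter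
      exact isClosed_le Complex.continuous_im continuous_const
    have hUo : IsOpen U := by
      apply (isOpen_lt continuous_const Complex.continuous_re).inter
      apply (isOpen_lt Complex.continuous_re continuous_const).inter
      apply (isOpen_lt continuous_const Complex.continuous_im).inter
      exact isOpen_lt Complex.continuous_im continuous_const
    have hUK : U ⊆ K := fun z hz => ⟨hz.1.le, hz.2.1.le, hz.2.2.1.le, hz.2.2.2.le⟩
    have hcl : closure U ⊆ K := closure_minimal hUK hKc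
    have hbdd : Bornology.IsBounded U := by
      apply (Metric.isBounded_closedBall (x := (0 : ℂ)) (r := |a| + |b| + |c| + |d|)).subset
      intro z hz
      rw [mem_closedBall_zero_iff]
      have hz' := hUK hz
      have h2 : |z.re| ≤ |a| + |b| := by
        rw [abs_le]
        constructor
        · linarith [neg_abs_le a, abs_nonneg b, hz'.1]
        · linarith [le_abs_self b, abs_nonneg a, hz'.2.1]
      have h3 : |z.im| ≤ |c| + |d| := by
        rw [abs_le]
        constructor
        · linarith [neg_abs_le c, abs_nonneg d, hz'.2.2.1]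
        · linarith [le_abs_self d, abs_nonneg c, hz'.2.2.2]
      linarith [Complex.norm_le_abs_re_add_abs_im z]
    apply Complex.norm_le_of_forall_mem_frontier_norm_le hbdd _ _ (subset_closure hζ)
    · refine ⟨fun z hz => ?_, fun z hz => ?_⟩
      · have := hUK hz
        exact (hd z this.1 this.2.1 this.2.2.1 this.2.2.2).differentiableWithinAt
      · have := hcl hz
        exact (hd z this.1 this.2.1 this.2.2.1 this.2.2.2).continuousAt.continuousWithinAt
    · intro z hz
      have h2 := hcl (frontier_subset_closure hz)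
      have h3 : z ∉ U := by
        rw [hUo.frontier_eq] at hz
        exact hz.2
      apply h1 z h2.1 h2.2.1 h2.2.2.1 h2.2.2.2
      by_contra hcon
      push Not at hcon
      exact h3 ⟨lt_of_le_of_ne h2.1 hcon.1.symm, lt_of_le_of_ne h2.2.1 hcon.2.1,
        lt_of_le_of_ne h2.2.2.1 hcon.2.2.1.symm, lt_of_le_of_ne h2.2.2.2 hcon.2.2.2⟩
  · apply h1 ζ ha hb hc hd'
    by_contra hcon
    push Not at hcon
    exact hζ ⟨lt_of_le_of_ne ha hcon.1.symm, lt_of_le_of_ne hb hcon.2.1,
        lt_of_le_of_ne hc hcon.2.2.1.symm, lt_of_le_of_ne hd' hcon.2.2.2⟩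

/-- Phragmen-Lindelof in a half strip -/
theorem plh {m : ℂ → ℂ} {R h B C A : ℝ} (hR : 0 ≤ R) (hh : 0 < h) (hC : 0 ≤ C)
    (hd : ∀ ζ : ℂ, R ≤ ζ.re → DifferentiableAt ℂ m ζ)
    (hleft : ∀ ζ : ℂ, ζ.re = R → |ζ.im| ≤ h → ‖m ζ‖ ≤ B)
    (htop : ∀ ζ : ℂ, R ≤ ζ.re → |ζ.im| = h → ‖m ζ‖ ≤ B)
    (hgrow : ∀ ζ : ℂ, R ≤ ζ.re → |ζ.im| ≤ h → ‖m ζ‖ ≤ C * Real.exp (A * ζ.re)) :
    ∀ ζ : ℂ, R ≤ ζ.re → |ζ.im| ≤ h → ‖m ζ‖ ≤ B := by
  intro ζ hζ hζ'
  have hπ := Real.pi_pos
  set ω : ℝ := Real.pi / (4 * h) with hω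
  have hω0 : 0 < ω := by positivity
  have hB : 0 ≤ B := (norm_nonneg _).trans (hleft (R : ℂ) (by simp) (by simp [hh.le]))
  have hcos : ∀ y : ℝ, |y| ≤ h → 1 / 2 ≤ Real.cos (ω * y) := by
    intro y hy
    have h1 : |ω * y| ≤ Real.pi / 4 := by
      rw [abs_mul, abs_of_pos hω0, hω]
      calc Real.pi / (4 * h) * |y| ≤ Real.pi / (4 * h) * h := by gcongr
        _ = Real.pi / 4 := by field_simp
    rw [← Real.cos_abs]
    calc (1 / 2 : ℝ) ≤ Real.cos (Real.pi / 3) := by rw [Real.cos_pi_div_three]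
      _ ≤ Real.cos |ω * y| := Real.cos_le_cos_of_nonneg_of_le_pi (abs_nonneg _) (by linarith)
          (by linarith)
  -- the auxiliary factor
  have hfac : ∀ (ε : ℝ) (z : ℂ), ‖Complex.exp (-(ε * Complex.cosh (ω * z)))‖
      = Real.exp (-(ε * (Real.cosh (ω * z.re) * Real.cos (ω * z.im)))) := by
    intro ε z
    rw [Complex.norm_exp]
    congr 1
    have h1 : (ω : ℂ) * z = ((ω * z.re : ℝ) : ℂ) + ((ω * z.im : ℝ) : ℂ) * I := by
      apply Complex.ext <;> simp
    have h2 : Complex.cosh (ω * z) = ((Real.cosh (ω * z.re) * Real.cos (ω * z.im) : ℝ) : ℂ)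
        + ((Real.sinh (ω * z.re) * Real.sin (ω * z.im) : ℝ) : ℂ) * I := by
      rw [h1, Complex.cosh_add, Complex.cosh_mul_I, Complex.sinh_mul_I]
      push_cast
      ring
    rw [h2, Complex.neg_re, Complex.re_ofReal_mul, Complex.add_re, Complex.ofReal_re,
      Complex.re_ofReal_mul, Complex.I_re, mul_zero, add_zero]
  have main : ∀ ε : ℝ, 0 < ε → ‖m ζ‖ ≤ (B + ε) * Real.exp (ε * Real.cosh (ω * ζ.re)) := by
    intro ε hε
    -- choose the right side of the rectangle
    obtain ⟨X, hX1, hX2⟩ : ∃ X : ℝ, ζ.re ≤ X ∧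
        C * Real.exp (A * X) * Real.exp (-(ε * (Real.cosh (ω * X) / 2))) ≤ ε := by
      have h1 : Tendsto (fun X : ℝ => C * Real.exp (A * X) *
          Real.exp (-(ε * (Real.cosh (ω * X) / 2)))) atTop (𝓝 0) := by
        have h2 : ∀ X : ℝ, C * Real.exp (A * X) * Real.exp (-(ε * (Real.cosh (ω * X) / 2)))
            = C * Real.exp (A * X - ε * (Real.cosh (ω * X) / 2)) := by
          intro X
          rw [mul_assoc, ← Real.exp_add]
          congr 2
        simp_rw [h2]
        rw [show (0 : ℝ) = C * 0 by ring]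
        apply Tendsto.const_mul
        apply Real.tendsto_exp_atBot.comp
        -- cosh grows faster
        have h3 : ∀ᶠ X : ℝ in atTop, A * X - ε * (Real.cosh (ω * X) / 2) ≤ -X := by
          have h4 : ∀ᶠ X : ℝ in atTop, (A + 1) * 8 / (ε * ω ^ 2) ≤ X := eventually_ge_atTop _
          filter_upwards [h4, eventually_ge_atTop 0] with X hX hX0
          have h5 : (ω * X) ^ 2 / 4 ≤ Real.cosh (ω * X) := by
            have h6 := Real.quadratic_le_exp_of_nonneg (x := ω * X) (by positivity)
            have h7 := Real.exp_pos (-(ω * X))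
            rw [Real.cosh_eq]
            have h8 : 0 ≤ ω * X := by positivity
            linarith
          rw [div_le_iff₀ (by positivity)] at hX
          have h7 : (A + 1) * 8 * X ≤ X * (ε * ω ^ 2) * X := mul_le_mul_of_nonneg_right hX hX0
          have h8 : ε * ((ω * X) ^ 2 / 4 / 2) ≤ ε * (Real.cosh (ω * X) / 2) := by
            apply mul_le_mul_of_nonneg_left _ hε.le
            linarith
          nlinarith
        exact tendsto_atBot_mono' _ h3 tendsto_neg_atTop_atBot
      obtain ⟨X₀, hX₀⟩ := ((h1.eventually_le_const hε).and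
        (eventually_ge_atTop ζ.re)).exists
      exact ⟨X₀, hX₀.2, hX₀.1⟩
    have hrect := rect_max (m := fun z => m z * Complex.exp (-(ε * Complex.cosh (ω * z))))
      (a := R) (b := X) (c := -h) (d := h) (B := B + ε) ?_ ?_ ζ hζ hX1
      (abs_le.1 hζ').1 (abs_le.1 hζ').2
    · rw [norm_mul, hfac] at hrect
      have h1 : Real.exp (-(ε * Real.cosh (ω * ζ.re)))
          ≤ Real.exp (-(ε * (Real.cosh (ω * ζ.re) * Real.cos (ω * ζ.im)))) := by
        apply Real.exp_le_exp.2
        apply neg_le_neg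
        apply mul_le_mul_of_nonneg_left _ hε.le
        exact mul_le_of_le_one_right (Real.cosh_pos _).le (Real.cos_le_one _)
      have h2 : ‖m ζ‖ * Real.exp (-(ε * Real.cosh (ω * ζ.re))) ≤ B + ε :=
        (mul_le_mul_of_nonneg_left h1 (norm_nonneg _)).trans hrect
      rwa [Real.exp_neg, ← div_eq_mul_inv, div_le_iff₀ (Real.exp_pos _)] at h2
    · intro z hz _ _ _
      have h1 : Differentiable ℂ fun z : ℂ => Complex.exp (-(ε * Complex.cosh (ω * z))) := by
        fun_prop
      exact (hd z hz).mul (h1 z)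
    · intro z hz1 hz2 hz3 hz4 hz5
      have him : |z.im| ≤ h := abs_le.2 ⟨hz3, hz4⟩
      show ‖m z * Complex.exp (-(ε * Complex.cosh (ω * z)))‖ ≤ B + ε
      rw [norm_mul, hfac]
      have hc := hcos z.im him
      have hch := Real.one_le_cosh (ω * z.re)
      have hle1 : Real.exp (-(ε * (Real.cosh (ω * z.re) * Real.cos (ω * z.im)))) ≤ 1 := by
        rw [Real.exp_le_one_iff]
        have : 0 ≤ ε * (Real.cosh (ω * z.re) * Real.cos (ω * z.im)) := by positivity
        linarith
      rcases hz5 with h5 | h5 | h5 | h5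
      · calc ‖m z‖ * _ ≤ B * 1 := mul_le_mul (hleft z h5 him) hle1 (Real.exp_pos _).le hB
          _ ≤ B + ε := by linarith
      · have hg := hgrow z hz1 him
        have h6 : Real.exp (-(ε * (Real.cosh (ω * z.re) * Real.cos (ω * z.im))))
            ≤ Real.exp (-(ε * (Real.cosh (ω * X) / 2))) := by
          apply Real.exp_le_exp.2
          apply neg_le_neg
          apply mul_le_mul_of_nonneg_left _ hε.le
          rw [h5]
          have := mul_le_mul_of_nonneg_left hc (Real.cosh_pos (ω * X)).le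
          linarith
        rw [h5] at hg h6
        calc ‖m z‖ * _ ≤ (C * Real.exp (A * X)) * Real.exp (-(ε * (Real.cosh (ω * X) / 2))) := by
              rw [h5]
              exact mul_le_mul hg h6 (Real.exp_pos _).le (by positivity)
          _ ≤ B + ε := by linarith
      · have h6 : |z.im| = h := by rw [h5, abs_neg, abs_of_pos hh]
        calc ‖m z‖ * _ ≤ B * 1 := mul_le_mul (htop z hz1 h6) hle1 (Real.exp_pos _).le hB
          _ ≤ B + ε := by linarith
      · have h6 : |z.im| = h := by rw [h5, abs_of_pos hh]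
        calc ‖m z‖ * _ ≤ B * 1 := mul_le_mul (htop z hz1 h6) hle1 (Real.exp_pos _).le hB
          _ ≤ B + ε := by linarith
  -- the limit
  have hlim : Tendsto (fun ε : ℝ => (B + ε) * Real.exp (ε * Real.cosh (ω * ζ.re))) (𝓝[>] 0)
      (𝓝 ((B + 0) * Real.exp (0 * Real.cosh (ω * ζ.re)))) := by
    have h1 : Continuous fun ε : ℝ => (B + ε) * Real.exp (ε * Real.cosh (ω * ζ.re)) := by
      fun_prop
    exact (h1.tendsto 0).mono_left nhdsWithin_le_nhds
  have h2 : ‖m ζ‖ ≤ (B + 0) * Real.exp (0 * Real.cosh (ω * ζ.re)) := by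
    apply ge_of_tendsto hlim
    filter_upwards [self_mem_nhdsWithin] with ε hε
    exact main ε hε
  simpa using h2

/-- shift of a contour in a half strip -/
theorem shift {N : ℂ → ℂ} {R η M : ℝ} {w b : ℝ → ℝ}
    (hd : ∀ ζ : ℂ, R ≤ ζ.re → DifferentiableAt ℂ N ζ)
    (h0 : IntegrableOn (fun x : ℝ => N x) (Ioi R))
    (hw : IntegrableOn w (Ioi R))
    (hw1 : ∀ x : ℝ, R < x → ‖N (x + η * I)‖ ≤ w x)
    (hb : Tendsto b atTop (𝓝 0))
    (hb1 : ∀ x y : ℝ, R ≤ x → y ∈ uIcc 0 η → ‖N (x + y * I)‖ ≤ b x)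
    (hM : ∀ y : ℝ, y ∈ uIcc 0 η → ‖N (R + y * I)‖ ≤ M) :
    ‖∫ x in Ioi R, N (x : ℂ)‖ ≤ (∫ x in Ioi R, w x) + |η| * M := by
  have hc : ∀ η' : ℝ, ContinuousOn (fun x : ℝ => N (x + η' * I)) (Ici R) := by
    intro η' x hx
    have h1 : ContinuousAt N (x + η' * I) := (hd _ (by simpa using hx)).continuousAt
    have h2 : ContinuousAt (fun x : ℝ => (x : ℂ) + η' * I) x := by fun_prop
    exact (ContinuousAt.comp (x := x) (f := fun x : ℝ => (x : ℂ) + η' * I) (g := N)
      h1 h2).continuousWithinAt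
  have h1 : IntegrableOn (fun x : ℝ => N (x + η * I)) (Ioi R) := by
    refine Integrable.mono' hw ?_ ?_
    · exact ((hc η).mono Ioi_subset_Ici_self).aestronglyMeasurable measurableSet_Ioi
    · exact (ae_restrict_iff' measurableSet_Ioi).2 (Eventually.of_forall fun x hx => hw1 x hx)
  -- the identity on rectangles
  have hrect : ∀ X : ℝ, R ≤ X → (∫ x in R..X, N (x : ℂ))
      = (∫ x in R..X, N (x + η * I)) - I • (∫ y in (0 : ℝ)..η, N (X + y * I))
        + I • ∫ y in (0 : ℝ)..η, N (R + y * I) := by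
    intro X hX
    have h2 := Complex.integral_boundary_rect_eq_zero_of_differentiableOn N (R : ℂ)
      ((X : ℂ) + η * I) (by
        intro z hz
        apply (hd z ?_).differentiableWithinAt
        have h3 := hz.1
        simp only [Set.mem_preimage, Complex.ofReal_re, Complex.add_re, Complex.mul_re,
          Complex.ofReal_im, Complex.I_re, mul_zero, Complex.I_im, zero_mul, sub_self,
          add_zero] at h3
        rw [uIcc_of_le hX] at h3
        exact h3.1)
    simp only [Complex.ofReal_re, Complex.add_re, Complex.mul_re, Complex.ofReal_im,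
      Complex.I_re, mul_zero, Complex.I_im, zero_mul, sub_self, add_zero, Complex.add_im,
      Complex.mul_im, mul_one, zero_add, Complex.ofReal_zero] at h2
    linear_combination h2
  -- the limit
  have t1 : Tendsto (fun X : ℝ => ∫ x in R..X, N (x : ℂ)) atTop (𝓝 (∫ x in Ioi R, N (x : ℂ))) :=
    intervalIntegral_tendsto_integral_Ioi R h0 tendsto_id
  have t2 : Tendsto (fun X : ℝ => ∫ x in R..X, N (x + η * I)) atTop
      (𝓝 (∫ x in Ioi R, N (x + η * I))) :=
    intervalIntegral_tendsto_integral_Ioi R h1 tendsto_id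
  have t3 : Tendsto (fun X : ℝ => I • (∫ y in (0 : ℝ)..η, N (X + y * I))) atTop (𝓝 0) := by
    have t0 : Tendsto (fun X : ℝ => ∫ y in (0 : ℝ)..η, N (X + y * I)) atTop (𝓝 0) := by
     apply squeeze_zero_norm' (a := fun X => b X * |η - 0|)
     · filter_upwards [eventually_ge_atTop R] with X hX
       apply intervalIntegral.norm_integral_le_of_norm_le_const
       intro y hy
       exact hb1 X y hX (uIoc_subset_uIcc hy)
     · simpa using hb.mul_const |η - 0|
    simpa using t0.const_smul I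
  have hlim : (∫ x in Ioi R, N (x : ℂ)) = (∫ x in Ioi R, N (x + η * I)) - 0
        + I • ∫ y in (0 : ℝ)..η, N (R + y * I) := by
    apply tendsto_nhds_unique t1
    have t4 := (t2.sub t3).add_const (I • ∫ y in (0 : ℝ)..η, N (R + y * I))
    apply t4.congr'
    filter_upwards [eventually_ge_atTop R] with X hX
    exact (hrect X hX).symm
  rw [hlim, sub_zero]
  refine (norm_add_le _ _).trans (add_le_add ?_ ?_)
  · refine (norm_integral_le_integral_norm _).trans ?_
    exact setIntegral_mono_on h1.norm hw measurableSet_Ioi hw1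
  · rw [norm_smul, Complex.norm_I, one_mul]
    have h5 := intervalIntegral.norm_integral_le_of_norm_le_const (a := (0 : ℝ)) (b := η)
      (f := fun y : ℝ => N (R + y * I)) (C := M) (fun y hy => hM y (uIoc_subset_uIcc hy))
    rw [sub_zero] at h5
    linarith

end Pool.Agent.SX
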