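import Pool.Agent.Lib_helper71.SX.Cls
import Pool.Agent.Lib_helper71.SX.PLH

/-!
# MP_a65497_an: bounds of the quotient in a half strip
-/

set_option autoImplicit false

namespace Pool.Agent.SX

open MeasureTheory Complex Filter Topology
open Pool.Agent.GU

/-- the properties of the weighted norm -/
structure Lp (L : ℝ → ℝ) : Prop where
  nn : ∀ t, 0 ≤ L t
  mono : ∀ s t, s ≤ t → L s ≤ L t
  split : ∀ t P ρ : ℝ, 0 ≤ t → t ≤ P →
    L t ≤ Real.exp (t * ρ) * L 0 + Real.exp (-((P - t) * ρ)) * L P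

/-- the constant -/
noncomputable def C1 (k : ℕ) (L : ℝ → ℝ) : ℝ :=
  4 ^ k * Real.exp (2 * Real.pi * k) * (1 + L 0 + L (2 * Real.pi))

variable {k n₀ : ℕ} {H : ℂ → ℂ} {L : ℝ → ℝ}

theorem C1_pos (hL : Lp L) : 0 < C1 k L := by
  have := hL.nn 0
  have := hL.nn (2 * Real.pi)
  unfold C1
  positivity

theorem le_C1 (hL : Lp L) {a : ℝ} (ha : a ≤ 1 + L 0 + L (2 * Real.pi)) : 4 ^ k * a ≤ C1 k L := by
  have h0 := hL.nn 0
  have h1 := hL.nn (2 * Real.pi)
  have hπ := Real.pi_pos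
  have h2 : 1 ≤ Real.exp (2 * Real.pi * k) := Real.one_le_exp (by positivity)
  unfold C1
  calc 4 ^ k * a ≤ 4 ^ k * (1 + L 0 + L (2 * Real.pi)) :=
        mul_le_mul_of_nonneg_left ha (by positivity)
    _ ≤ 4 ^ k * (1 + L 0 + L (2 * Real.pi)) * Real.exp (2 * Real.pi * k) :=
        le_mul_of_one_le_right (by positivity) h2
    _ = _ := by ring

theorem bd_near (D : Dat k n₀ H) (hL : Lp L) (hH : ∀ ζ : ℂ, ‖H ζ‖ ≤ L (2 * Real.pi * |ζ.im|))
    {ζ : ℂ} (hζ : Rm k n₀ ≤ ζ.re) (h : 2 * ζ.re * |ζ.im| ≤ k) :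
    ‖GG k n₀ H ζ‖ ≤ C1 k L * Real.exp (-(ζ.re * (2 * Real.pi * |ζ.im|))) := by
  have hπ := Real.pi_pos
  have h0 := hL.nn 0
  have h1 := hL.nn (2 * Real.pi)
  refine (D.near hζ h (S := L (2 * Real.pi)) ?_).trans ?_
  · intro z hz
    refine (hH z).trans (hL.mono _ _ ?_)
    calc 2 * Real.pi * |z.im| ≤ 2 * Real.pi * 1 := mul_le_mul_of_nonneg_left hz (by positivity)
      _ = _ := by ring
  · have h2 : Real.exp (Real.pi * k) * Real.exp (ζ.re * (2 * Real.pi * |ζ.im|))
        ≤ Real.exp (2 * Real.pi * k) := by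
      rw [← Real.exp_add]
      apply Real.exp_le_exp.2
      have : Real.pi * (2 * ζ.re * |ζ.im|) ≤ Real.pi * k := mul_le_mul_of_nonneg_left h hπ.le
      linarith
    rw [Real.exp_neg, ← div_eq_mul_inv, le_div_iff₀ (Real.exp_pos _)]
    calc 4 ^ k * Real.exp (Real.pi * k) * L (2 * Real.pi)
          * Real.exp (ζ.re * (2 * Real.pi * |ζ.im|))
        = 4 ^ k * (Real.exp (Real.pi * k) * Real.exp (ζ.re * (2 * Real.pi * |ζ.im|)))
          * L (2 * Real.pi) := by ring
      _ ≤ 4 ^ k * Real.exp (2 * Real.pi * k) * (1 + L 0 + L (2 * Real.pi)) := by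
          apply mul_le_mul (mul_le_mul_of_nonneg_left h2 (by positivity)) (by linarith) h1
            (by positivity)

theorem bd_left (D : Dat k n₀ H) (hL : Lp L) (hH : ∀ ζ : ℂ, ‖H ζ‖ ≤ L (2 * Real.pi * |ζ.im|))
    {R P ρ : ℝ} (hR : Rm k n₀ ≤ R) (hρ : 0 ≤ ρ) {ζ : ℂ} (hζ : ζ.re = R)
    (ht : 2 * Real.pi * |ζ.im| ≤ P) :
    ‖GG k n₀ H ζ‖ ≤ C1 k L * Real.exp (-(R * (2 * Real.pi * |ζ.im|)))
      * (Real.exp (2 * Real.pi * |ζ.im| * ρ)
        + Real.exp (-((P - 2 * Real.pi * |ζ.im|) * ρ)) * L P) := by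
  have hπ := Real.pi_pos
  have h0 := hL.nn 0
  have h1 := hL.nn (2 * Real.pi)
  have hP := hL.nn P
  have hC := C1_pos (k := k) hL
  have hR0 := D.Rm1
  have htt : 0 ≤ 2 * Real.pi * |ζ.im| := by positivity
  rcases le_total (k : ℝ) (2 * ζ.re * |ζ.im|) with h | h
  · refine (D.far (by linarith) h).trans ?_
    have h2 := (hH ζ).trans (hL.split _ P ρ htt ht)
    have e1 : 2 * Real.pi * ζ.re * |ζ.im| = R * (2 * Real.pi * |ζ.im|) := by rw [hζ]; ring
    rw [e1]
    calc 4 ^ k * Real.exp (-(R * (2 * Real.pi * |ζ.im|))) * ‖H ζ‖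
        ≤ 4 ^ k * Real.exp (-(R * (2 * Real.pi * |ζ.im|))) *
          (Real.exp (2 * Real.pi * |ζ.im| * ρ) * L 0
            + Real.exp (-((P - 2 * Real.pi * |ζ.im|) * ρ)) * L P) :=
          mul_le_mul_of_nonneg_left h2 (by positivity)
      _ = Real.exp (-(R * (2 * Real.pi * |ζ.im|))) * ((4 ^ k * L 0) *
          Real.exp (2 * Real.pi * |ζ.im| * ρ)
            + (4 ^ k * 1) * (Real.exp (-((P - 2 * Real.pi * |ζ.im|) * ρ)) * L P)) := by ring
      _ ≤ Real.exp (-(R * (2 * Real.pi * |ζ.im|))) * (C1 k L *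
          Real.exp (2 * Real.pi * |ζ.im| * ρ)
            + C1 k L * (Real.exp (-((P - 2 * Real.pi * |ζ.im|) * ρ)) * L P)) := by
          apply mul_le_mul_of_nonneg_left _ (Real.exp_pos _).le
          apply add_le_add
          · exact mul_le_mul_of_nonneg_right (le_C1 hL (by linarith)) (Real.exp_pos _).le
          · exact mul_le_mul_of_nonneg_right (le_C1 hL (by linarith)) (by positivity)
      _ = _ := by ring
  · have h2 := bd_near D hL hH (ζ := ζ) (by linarith) h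
    rw [hζ] at h2
    refine h2.trans ?_
    apply le_mul_of_one_le_right (by positivity)
    have h3 : 1 ≤ Real.exp (2 * Real.pi * |ζ.im| * ρ) := Real.one_le_exp (by positivity)
    have h4 : 0 ≤ Real.exp (-((P - 2 * Real.pi * |ζ.im|) * ρ)) * L P := by positivity
    linarith

theorem bd_top (D : Dat k n₀ H) (hL : Lp L) (hH : ∀ ζ : ℂ, ‖H ζ‖ ≤ L (2 * Real.pi * |ζ.im|))
    {P h : ℝ} (hh : 1 / 4 ≤ h) (hP : P = 2 * Real.pi * h) {ζ : ℂ} (hζ : Rm k n₀ ≤ ζ.re)
    (him : |ζ.im| = h) :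
    ‖GG k n₀ H ζ‖ ≤ C1 k L * L P * Real.exp (-(P * ζ.re)) := by
  have hR := D.Rm2
  have hk := D.k1
  have h0 := hL.nn 0
  have h1 := hL.nn (2 * Real.pi)
  have hLP := hL.nn P
  have hfar : (k : ℝ) ≤ 2 * ζ.re * |ζ.im| := by
    rw [him]
    nlinarith
  refine (D.far (by linarith) hfar).trans ?_
  have h2 := hH ζ
  rw [him, ← hP] at h2
  have e1 : 2 * Real.pi * ζ.re * |ζ.im| = P * ζ.re := by rw [him, hP]; ring
  rw [e1]
  calc 4 ^ k * Real.exp (-(P * ζ.re)) * ‖H ζ‖ ≤ 4 ^ k * Real.exp (-(P * ζ.re)) * L P :=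
        mul_le_mul_of_nonneg_left h2 (by positivity)
    _ = (4 ^ k * 1) * (L P * Real.exp (-(P * ζ.re))) := by ring
    _ ≤ C1 k L * (L P * Real.exp (-(P * ζ.re))) :=
        mul_le_mul_of_nonneg_right (le_C1 hL (by linarith)) (by positivity)
    _ = _ := by ring

theorem bd_in (D : Dat k n₀ H) (hL : Lp L) (hH : ∀ ζ : ℂ, ‖H ζ‖ ≤ L (2 * Real.pi * |ζ.im|))
    {R P h : ℝ} (hR : Rm k n₀ ≤ R) (hh : 1 / 4 ≤ h) (hP : P = 2 * Real.pi * h) {ζ : ℂ}
    (hζ : R ≤ ζ.re) (him : |ζ.im| ≤ h) :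
    ‖GG k n₀ H ζ‖ ≤ C1 k L * (L P + Real.exp (P * R)) * Real.exp (-(P * ζ.re)) := by
  have hπ := Real.pi_pos
  have hR1 := D.Rm1
  have h0 := hL.nn 0
  have h1 := hL.nn (2 * Real.pi)
  have hLP := hL.nn P
  have hC := C1_pos (k := k) hL
  have hP0 : 0 ≤ P := by rw [hP]; positivity
  have hnorm : ∀ z : ℂ, ‖Complex.exp (P * z)‖ = Real.exp (P * z.re) := by
    intro z
    rw [Complex.norm_exp, Complex.re_ofReal_mul]
  have hmain := plh (m := fun z => GG k n₀ H z * Complex.exp (P * z)) (R := R) (h := h)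
    (B := C1 k L * (L P + Real.exp (P * R))) (C := C1 k L * (L P + 1)) (A := P)
    (by linarith) (by linarith) (by positivity) ?_ ?_ ?_ ?_ ζ hζ him
  · rw [norm_mul, hnorm] at hmain
    rwa [Real.exp_neg, ← div_eq_mul_inv, le_div_iff₀ (Real.exp_pos _)]
  · intro z hz
    have h2 : Differentiable ℂ fun z : ℂ => Complex.exp (P * z) := by fun_prop
    exact (D.diff (hR.trans hz)).mul (h2 z)
  · intro z hz hzi
    show ‖GG k n₀ H z * Complex.exp (P * z)‖ ≤ _
    rw [norm_mul, hnorm, hz]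
    have ht : 2 * Real.pi * |z.im| ≤ P := by
      rw [hP]
      exact mul_le_mul_of_nonneg_left hzi (by positivity)
    have h2 := bd_left D hL hH hR (ρ := R) (by linarith) hz ht
    calc ‖GG k n₀ H z‖ * Real.exp (P * R)
        ≤ (C1 k L * Real.exp (-(R * (2 * Real.pi * |z.im|)))
          * (Real.exp (2 * Real.pi * |z.im| * R)
            + Real.exp (-((P - 2 * Real.pi * |z.im|) * R)) * L P)) * Real.exp (P * R) :=
          mul_le_mul_of_nonneg_right h2 (Real.exp_pos _).le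
      _ = C1 k L * ((Real.exp (-(R * (2 * Real.pi * |z.im|))) *
            Real.exp (2 * Real.pi * |z.im| * R)) * Real.exp (P * R)
            + Real.exp (-(R * (2 * Real.pi * |z.im|))) *
              Real.exp (-((P - 2 * Real.pi * |z.im|) * R)) * Real.exp (P * R) * L P) := by ring
      _ = C1 k L * (Real.exp (P * R) + L P) := by
          rw [← Real.exp_add, ← Real.exp_add, ← Real.exp_add, ← Real.exp_add]
          congr 2
          · congr 1
            ring
          · rw [show -(R * (2 * Real.pi * |z.im|)) + -((P - 2 * Real.pi * |z.im|) * R) + P * R = 0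
              by ring, Real.exp_zero, one_mul]
      _ = _ := by ring
  · intro z hz hzi
    show ‖GG k n₀ H z * Complex.exp (P * z)‖ ≤ _
    rw [norm_mul, hnorm]
    have h2 := bd_top D hL hH hh hP (hR.trans hz) hzi
    calc ‖GG k n₀ H z‖ * Real.exp (P * z.re)
        ≤ (C1 k L * L P * Real.exp (-(P * z.re))) * Real.exp (P * z.re) :=
          mul_le_mul_of_nonneg_right h2 (Real.exp_pos _).le
      _ = C1 k L * L P := by
          rw [mul_assoc, ← Real.exp_add, neg_add_cancel, Real.exp_zero, mul_one]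
      _ ≤ _ := mul_le_mul_of_nonneg_left (by linarith [Real.exp_pos (P * R)]) hC.le
  · intro z hz hzi
    show ‖GG k n₀ H z * Complex.exp (P * z)‖ ≤ _
    rw [norm_mul, hnorm]
    apply mul_le_mul_of_nonneg_right _ (Real.exp_pos _).le
    have hz0 : 0 < z.re := by linarith
    rcases le_total (k : ℝ) (2 * z.re * |z.im|) with h | h
    · refine (D.far hz0 h).trans ?_
      have h2 : ‖H z‖ ≤ L P := by
        refine (hH z).trans (hL.mono _ _ ?_)
        rw [hP]
        exact mul_le_mul_of_nonneg_left hzi (by positivity)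
      have h3 : Real.exp (-(2 * Real.pi * z.re * |z.im|)) ≤ 1 := by
        rw [Real.exp_le_one_iff]
        have : 0 ≤ 2 * Real.pi * z.re * |z.im| := by positivity
        linarith
      calc 4 ^ k * Real.exp (-(2 * Real.pi * z.re * |z.im|)) * ‖H z‖
          ≤ 4 ^ k * 1 * L P := mul_le_mul (mul_le_mul_of_nonneg_left h3 (by positivity)) h2
            (norm_nonneg _) (by positivity)
        _ ≤ C1 k L * L P := mul_le_mul_of_nonneg_right (le_C1 hL (by linarith)) hLP
        _ ≤ _ := mul_le_mul_of_nonneg_left (by linarith) hC.le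
    · refine (bd_near D hL hH (hR.trans hz) h).trans ?_
      apply mul_le_mul_of_nonneg_left _ hC.le
      have h3 : Real.exp (-(z.re * (2 * Real.pi * |z.im|))) ≤ 1 := by
        rw [Real.exp_le_one_iff]
        have : 0 ≤ z.re * (2 * Real.pi * |z.im|) := by positivity
        linarith
      linarith

/-- the Lipschitz bound on the real axis -/
theorem bd_lip (D : Dat k n₀ H) (hL : Lp L) (hH : ∀ ζ : ℂ, ‖H ζ‖ ≤ L (2 * Real.pi * |ζ.im|))
    {R P h : ℝ} (hR : Rm k n₀ ≤ R) (hh : 1 / 4 ≤ h) (hP : P = 2 * Real.pi * h) {r s : ℝ}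
    (hr : R + 1 / 4 ≤ r) (hs : R + 1 / 4 ≤ s) :
    ‖GG k n₀ H s * Complex.exp (P * s) - GG k n₀ H r * Complex.exp (P * r)‖
      ≤ 4 * (C1 k L * (L P + Real.exp (P * R))) * |s - r| := by
  have hπ := Real.pi_pos
  set B := C1 k L * (L P + Real.exp (P * R)) with hB
  set m : ℂ → ℂ := fun z => GG k n₀ H z * Complex.exp (P * z) with hm
  have hnorm : ∀ z : ℂ, ‖Complex.exp (P * z)‖ = Real.exp (P * z.re) := by
    intro z
    rw [Complex.norm_exp, Complex.re_ofReal_mul]
  have hmd : ∀ z : ℂ, R ≤ z.re → DifferentiableAt ℂ m z := by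
    intro z hz
    have h2 : Differentiable ℂ fun z : ℂ => Complex.exp (P * z) := by fun_prop
    exact (D.diff (hR.trans hz)).mul (h2 z)
  have hmb : ∀ z : ℂ, R ≤ z.re → |z.im| ≤ h → ‖m z‖ ≤ B := by
    intro z hz hzi
    have h2 := bd_in D hL hH hR hh hP hz hzi
    simp only [hm]
    rw [norm_mul, hnorm]
    calc ‖GG k n₀ H z‖ * Real.exp (P * z.re) ≤ (B * Real.exp (-(P * z.re))) * Real.exp (P * z.re) :=
          mul_le_mul_of_nonneg_right h2 (Real.exp_pos _).le
      _ = B := by rw [mul_assoc, ← Real.exp_add, neg_add_cancel, Real.exp_zero, mul_one]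
  have hderiv : ∀ t : ℝ, R + 1 / 4 ≤ t → ‖deriv m t‖ ≤ 4 * B := by
    intro t ht
    have hball : ∀ z : ℂ, ‖z - t‖ ≤ 1 / 4 → R ≤ z.re ∧ |z.im| ≤ 1 / 4 := by
      intro z hz
      have h1 := (abs_le.1 ((Complex.abs_re_le_norm (z - t)).trans hz)).1
      have h2 := (Complex.abs_im_le_norm (z - t)).trans hz
      rw [Complex.sub_re, Complex.ofReal_re] at h1
      rw [Complex.sub_im, Complex.ofReal_im, sub_zero] at h2
      exact ⟨by linarith, h2⟩
    have h1 := Complex.norm_deriv_le_of_forall_mem_sphere_norm_le (c := (t : ℂ)) (R := 1 / 4)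
      (C := B) (f := m) (by norm_num) ?_ ?_
    · calc ‖deriv m t‖ ≤ B / (1 / 4) := h1
        _ = 4 * B := by ring
    · refine ⟨fun z hz => ?_, fun z hz => ?_⟩
      · rw [Metric.mem_ball, dist_eq_norm] at hz
        exact (hmd z (hball z hz.le).1).differentiableWithinAt
      · have hz2 := Metric.closure_ball_subset_closedBall hz
        rw [Metric.mem_closedBall, dist_eq_norm] at hz2
        exact (hmd z (hball z hz2).1).continuousAt.continuousWithinAt
    · intro z hz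
      rw [mem_sphere_iff_norm] at hz
      obtain ⟨h2, h3⟩ := hball z hz.le
      exact hmb z h2 (h3.trans hh)
  have hconv : Convex ℝ (Set.Ici (R + 1 / 4)) := convex_Ici _
  have hfin := hconv.norm_image_sub_le_of_norm_hasDerivWithin_le (f := fun t : ℝ => m t)
    (f' := fun t : ℝ => deriv m t) (C := 4 * B) (x := r) (y := s) ?_ ?_ hr hs
  · rwa [Real.norm_eq_abs] at hfin
  · intro t ht
    have h1 : HasDerivAt m (deriv m t) (t : ℂ) :=
      (hmd t (by rw [Complex.ofReal_re]; linarith [show R + 1 / 4 ≤ t from ht])).hasDerivAt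
    exact h1.comp_ofReal.hasDerivWithinAt
  · intro t ht
    exact hderiv t ht

end Pool.Agent.SX
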