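import Pool.Agent.Lib_helper71.GU.Lem

/-!
# MP_a65497_an: the quotient in the variable `ζ`
-/

set_option autoImplicit false

namespace Pool.Agent.SX

open MeasureTheory Complex Filter Topology
open Pool.Agent.GU
open scoped FourierTransform SchwartzMap

/-- the shift -/
noncomputable def sg (k n₀ : ℕ) : ℝ := k * n₀ - k / 2

/-- `H(ζ) / cos(π (ζ^2 - σ) / k)^k` -/
noncomputable def GG (k n₀ : ℕ) (H : ℂ → ℂ) (ζ : ℂ) : ℂ :=
  Fd k (fun w => H (sq (w + (sg k n₀ : ℂ)))) (ζ ^ 2 - (sg k n₀ : ℂ))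

/-- an entire function with zeros of order `k` at `√(kn)`, `n ≥ n₀` -/
structure Dat (k n₀ : ℕ) (H : ℂ → ℂ) : Prop where
  hk : 0 < k
  hn : 1 ≤ n₀
  hH : Differentiable ℂ H
  ho : ∀ n : ℕ, n₀ ≤ n → (k : ℕ∞) ≤ analyticOrderAt H (Real.sqrt (k * n) : ℝ)

/-- the radius from which on the quotient is used -/
noncomputable def Rm (k n₀ : ℕ) : ℝ := 2 * (k * (n₀ + 1))

variable {k n₀ : ℕ} {H : ℂ → ℂ}

theorem sq_pow {ζ : ℂ} (hζ : 0 < ζ.re) : GU.sq (ζ ^ 2) = ζ := by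
  rw [GU.sq]
  exact_mod_cast Complex.sq_cpow_two_inv hζ

theorem Dat.hyp0 (D : Dat k n₀ H) : Hyp0 k (fun w => H (sq (w + (sg k n₀ : ℂ)))) :=
  toHyp0 D.hH D.hk D.hn D.ho

theorem Dat.k1 (D : Dat k n₀ H) : (1 : ℝ) ≤ k := by exact_mod_cast D.hk

theorem Dat.n1 (D : Dat k n₀ H) : (1 : ℝ) ≤ n₀ := by exact_mod_cast D.hn

theorem Dat.sg0 (D : Dat k n₀ H) : 0 < sg k n₀ := by
  have := D.k1
  have := D.n1
  rw [sg]
  nlinarith

theorem Dat.Rm2 (D : Dat k n₀ H) : 2 * (k : ℝ) ≤ Rm k n₀ := by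
  have := D.k1
  have := D.n1
  rw [Rm]
  nlinarith

theorem Dat.Rm1 (D : Dat k n₀ H) : 2 ≤ Rm k n₀ := by
  have := D.k1
  have := D.Rm2
  linarith

theorem Dat.Rm_sq (D : Dat k n₀ H) : sg k n₀ + 1 ≤ Rm k n₀ ^ 2 := by
  have h1 := D.k1
  have h2 := D.n1
  rw [Rm, sg]
  have h3 : (k : ℝ) * n₀ ≤ k * (n₀ + 1) := by nlinarith
  have h4 : 1 ≤ (k : ℝ) * (n₀ + 1) := by nlinarith
  nlinarith

theorem GG_of_ne {ζ : ℂ} (hζ : 0 < ζ.re)
    (hc : Complex.cos (Real.pi * (ζ ^ 2 - (sg k n₀ : ℂ)) / k) ≠ 0) :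
    GG k n₀ H ζ = H ζ / Complex.cos (Real.pi * (ζ ^ 2 - (sg k n₀ : ℂ)) / k) ^ k := by
  rw [GG, Fd_of_ne hc, sub_add_cancel, sq_pow hζ]

theorem w_im (ζ : ℂ) : (ζ ^ 2 - (sg k n₀ : ℂ)).im = 2 * ζ.re * ζ.im := by
  rw [Complex.sub_im, Complex.ofReal_im, pow_two, Complex.mul_im]
  ring

theorem w_re (ζ : ℂ) : (ζ ^ 2 - (sg k n₀ : ℂ)).re = ζ.re ^ 2 - ζ.im ^ 2 - sg k n₀ := by
  rw [Complex.sub_re, Complex.ofReal_re, pow_two, Complex.mul_re]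
  ring

/-- the zeros of the cosine are real -/
theorem cos_ne (hk : 0 < k) {w : ℂ} (hw : w.im ≠ 0) : Complex.cos (Real.pi * w / k) ≠ 0 := by
  intro h
  obtain ⟨j, hj⟩ := Complex.cos_eq_zero_iff.1 h
  have hkC : (k : ℂ) ≠ 0 := by exact_mod_cast hk.ne'
  have hpi : (Real.pi : ℂ) ≠ 0 := by exact_mod_cast Real.pi_ne_zero
  apply hw
  have h1 : w = (((2 * j + 1) * k / 2 : ℝ) : ℂ) := by
    have : w = (Real.pi * w / k) * k / Real.pi := by field_simp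
    rw [this, hj]
    push_cast
    field_simp
  rw [h1, Complex.ofReal_im]

theorem Dat.diff (D : Dat k n₀ H) {ζ : ℂ} (hζ : Rm k n₀ ≤ ζ.re) :
    DifferentiableAt ℂ (GG k n₀ H) ζ := by
  have hR := D.Rm1
  have hζ0 : 0 < ζ.re := by linarith
  by_cases him : ζ.im = 0
  · have h1 : DifferentiableAt ℂ (Fd k (fun w => H (sq (w + (sg k n₀ : ℂ)))))
        (ζ ^ 2 - (sg k n₀ : ℂ)) := by
      apply D.hyp0.Fdiff
      rw [w_re, him]
      have h2 := D.Rm_sq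
      have h3 : Rm k n₀ ^ 2 ≤ ζ.re ^ 2 := pow_le_pow_left₀ (by linarith) hζ 2
      have h4 := D.k1
      nlinarith
    have h2 : DifferentiableAt ℂ (fun ζ : ℂ => ζ ^ 2 - (sg k n₀ : ℂ)) ζ := by fun_prop
    exact DifferentiableAt.comp ζ h1 h2
  · have hc : Complex.cos (Real.pi * (ζ ^ 2 - (sg k n₀ : ℂ)) / k) ≠ 0 := by
      apply cos_ne D.hk
      rw [w_im]
      exact mul_ne_zero (by positivity) him
    have hcc : Continuous fun ζ : ℂ => Complex.cos (Real.pi * (ζ ^ 2 - (sg k n₀ : ℂ)) / k) := by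
      fun_prop
    have h1 : GG k n₀ H =ᶠ[𝓝 ζ] fun ζ =>
        H ζ / Complex.cos (Real.pi * (ζ ^ 2 - (sg k n₀ : ℂ)) / k) ^ k := by
      have e1 : ∀ᶠ z in 𝓝 ζ, Complex.cos (Real.pi * (z ^ 2 - (sg k n₀ : ℂ)) / k) ≠ 0 :=
        hcc.continuousAt.eventually_ne hc
      have e2 : ∀ᶠ z : ℂ in 𝓝 ζ, 0 < z.re :=
        Complex.continuous_re.continuousAt.eventually (lt_mem_nhds hζ0)
      filter_upwards [e1, e2] with z h2 h3
      exact GG_of_ne h3 h2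
    have h2 : DifferentiableAt ℂ
        (fun ζ : ℂ => Complex.cos (Real.pi * (ζ ^ 2 - (sg k n₀ : ℂ)) / k) ^ k) ζ := by fun_prop
    exact ((D.hH ζ).div h2 (pow_ne_zero k hc)).congr_of_eventuallyEq h1

theorem Dat.far (D : Dat k n₀ H) {ζ : ℂ} (hζ : 0 < ζ.re) (h : (k : ℝ) ≤ 2 * ζ.re * |ζ.im|) :
    ‖GG k n₀ H ζ‖ ≤ 4 ^ k * Real.exp (-(2 * Real.pi * ζ.re * |ζ.im|)) * ‖H ζ‖ := by
  have hπ := Real.pi_pos
  have hk := D.k1
  have him : |(ζ ^ 2 - (sg k n₀ : ℂ)).im| = 2 * ζ.re * |ζ.im| := by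
    rw [w_im, abs_mul, abs_of_pos (by positivity : 0 < 2 * ζ.re)]
  have hne : (ζ ^ 2 - (sg k n₀ : ℂ)).im ≠ 0 := by
    intro h0
    rw [h0, abs_zero] at him
    linarith
  rw [GG_of_ne hζ (cos_ne D.hk hne), norm_div, norm_pow]
  have h1 := cos_ge_exp D.hk (w := ζ ^ 2 - (sg k n₀ : ℂ)) (by rw [him]; exact h)
  rw [him] at h1
  have h2 : 0 < Real.exp (Real.pi * (2 * ζ.re * |ζ.im|)) / 4 ^ k := by positivity
  have e : Real.exp (-(2 * Real.pi * ζ.re * |ζ.im|))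
      = (Real.exp (Real.pi * (2 * ζ.re * |ζ.im|)))⁻¹ := by
    rw [← Real.exp_neg]
    congr 1
    ring
  rw [div_le_iff₀ (h2.trans_le h1), e]
  calc ‖H ζ‖ = 4 ^ k * (Real.exp (Real.pi * (2 * ζ.re * |ζ.im|)))⁻¹ * ‖H ζ‖
        * (Real.exp (Real.pi * (2 * ζ.re * |ζ.im|)) / 4 ^ k) := by field_simp
    _ ≤ _ := mul_le_mul_of_nonneg_left h1 (by positivity)

theorem Dat.near (D : Dat k n₀ H) {ζ : ℂ} (hζ : Rm k n₀ ≤ ζ.re) (h : 2 * ζ.re * |ζ.im| ≤ k)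
    {S : ℝ} (hS : ∀ z : ℂ, |z.im| ≤ 1 → ‖H z‖ ≤ S) :
    ‖GG k n₀ H ζ‖ ≤ 4 ^ k * Real.exp (Real.pi * k) * S := by
  have hπ := Real.pi_pos
  have hk := D.k1
  have hR := D.Rm2
  have hζ0 : 0 < ζ.re := by linarith
  have hS0 : 0 ≤ S := (norm_nonneg _).trans (hS 0 (by simp))
  have him : |ζ.im| ≤ 1 / 4 := by
    by_contra hcon
    push Not at hcon
    nlinarith
  have hre : 0 ≤ (ζ ^ 2 - (sg k n₀ : ℂ)).re := by
    rw [w_re]
    have h2 := D.Rm_sq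
    have h3 : Rm k n₀ ^ 2 ≤ ζ.re ^ 2 := pow_le_pow_left₀ (by linarith) hζ 2
    have h4 : ζ.im ^ 2 ≤ (1 / 4) ^ 2 := by
      rw [← sq_abs ζ.im]
      exact pow_le_pow_left₀ (abs_nonneg _) him 2
    linarith
  have h1 := D.hyp0.bound hre (S := S) (by
    intro z hz
    apply hS
    have h4 := sq_close (z := z + (sg k n₀ : ℂ)) hζ0
    have h5 : z + (sg k n₀ : ℂ) - ζ ^ 2 = z - (ζ ^ 2 - (sg k n₀ : ℂ)) := by ring
    rw [h5] at h4
    have h6 : ‖z - (ζ ^ 2 - (sg k n₀ : ℂ))‖ / ζ.re ≤ 1 / 4 := by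
      rw [div_le_iff₀ hζ0]
      linarith
    have h8 := (Complex.abs_im_le_norm (GU.sq (z + (sg k n₀ : ℂ)) - ζ)).trans (h4.trans h6)
    rw [Complex.sub_im] at h8
    have h9 := abs_sub_abs_le_abs_sub (GU.sq (z + (sg k n₀ : ℂ))).im ζ.im
    linarith)
  refine h1.trans ?_
  apply mul_le_mul_of_nonneg_left _ (by positivity)
  apply mul_le_of_le_one_left hS0
  rw [Real.exp_le_one_iff]
  have := abs_nonneg (ζ ^ 2 - (sg k n₀ : ℂ)).im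
  nlinarith

theorem Dat.eq (D : Dat k n₀ H) {r : ℝ} (hr : Rm k n₀ ≤ r) :
    H r = GG k n₀ H r * Complex.cos (Real.pi * ((r : ℂ) ^ 2 - (sg k n₀ : ℂ)) / k) ^ k := by
  have hR := D.Rm1
  have hr0 : 0 < r := by linarith
  by_cases hc : Complex.cos (Real.pi * ((r : ℂ) ^ 2 - (sg k n₀ : ℂ)) / k) = 0
  · have e0 : (r : ℂ) ^ 2 - (sg k n₀ : ℂ) = ((r ^ 2 - sg k n₀ : ℝ) : ℂ) := by push_cast; ring
    have hre : -(k / 2 : ℝ) < ((r : ℂ) ^ 2 - (sg k n₀ : ℂ)).re := by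
      rw [e0, Complex.ofReal_re]
      have h2 := D.Rm_sq
      have h3 : Rm k n₀ ^ 2 ≤ r ^ 2 := pow_le_pow_left₀ (by linarith) hr 2
      have h4 := D.k1
      nlinarith
    obtain ⟨m, hm⟩ := zero_of_cos D.hk hre hc
    have h1 := D.ho (n₀ + m) (by omega)
    have h2 : (r : ℂ) ^ 2 = ((k * (n₀ + m : ℕ) : ℝ) : ℂ) := by
      have : (r : ℂ) ^ 2 = (wz k m : ℂ) + (sg k n₀ : ℂ) := by rw [← hm]; ring
      rw [this, wz, sg]
      push_cast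
      ring
    have h3 : r ^ 2 = k * (n₀ + m : ℕ) := by exact_mod_cast h2
    have h4 : Real.sqrt (k * (n₀ + m : ℕ)) = r := by rw [← h3, Real.sqrt_sq hr0.le]
    rw [h4] at h1
    have h5 : analyticOrderAt H (r : ℂ) ≠ 0 := by
      intro h0
      rw [h0] at h1
      have := D.hk
      have h6 : k = 0 := by exact_mod_cast (nonpos_iff_eq_zero.1 h1)
      omega
    rw [hc, zero_pow (Nat.pos_iff_ne_zero.1 D.hk), mul_zero]
    exact apply_eq_zero_of_analyticOrderAt_ne_zero h5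
  · rw [GG_of_ne (by simpa using hr0) hc, div_mul_cancel₀ _ (pow_ne_zero k hc)]

end Pool.Agent.SX
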