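import Pool.Agent.Lib_helper71.SX.Dec

/-!
# MP_a65497_an: the combination of the two identities
-/

set_option autoImplicit false

namespace Pool.Agent.SX

open MeasureTheory Complex Filter Topology Set
open Pool.Agent.GU
open scoped FourierTransform

variable {V : Type*} [NormedAddCommGroup V] [InnerProductSpace ℝ V] [FiniteDimensional ℝ V]
  [MeasurableSpace V] [BorelSpace V]

theorem th_zero {k : ℕ} (hk : 0 < k) : th k 0 = -1 := by
  have : (k : ℝ) ≠ 0 := by exact_mod_cast hk.ne'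
  rw [th]
  push_cast
  field_simp
  ring

theorem th_self {k : ℕ} (hk : 0 < k) : th k k = 1 := by
  have : (k : ℝ) ≠ 0 := by exact_mod_cast hk.ne'
  rw [th]
  field_simp
  ring

theorem th_neg {k j : ℕ} (hk : 0 < k) (hj : j ∈ Finset.range (k + 1)) (hjk : j ≠ k) :
    2 / (k : ℝ) ≤ |-1 + th k j| := by
  have hk0 : (0 : ℝ) < k := by exact_mod_cast hk
  have h1 : j + 1 ≤ k := by
    have := Finset.mem_range.1 hj
    omega
  have h2 : (j : ℝ) + 1 ≤ k := by exact_mod_cast h1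
  have e1 : -1 + th k j = -(2 * (k - j) / k) := by
    rw [th]
    field_simp
    ring
  rw [e1, abs_neg]
  refine le_trans ?_ (le_abs_self _)
  gcongr
  linarith

theorem th_pos {k j : ℕ} (hk : 0 < k) (hj : j ≠ 0) : 2 / (k : ℝ) ≤ |1 + th k j| := by
  have hk0 : (0 : ℝ) < k := by exact_mod_cast hk
  have h2 : (1 : ℝ) ≤ j := by exact_mod_cast Nat.one_le_iff_ne_zero.2 hj
  have e1 : 1 + th k j = 2 * j / k := by
    rw [th]
    field_simp
    ring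
  rw [e1]
  refine le_trans ?_ (le_abs_self _)
  gcongr
  linarith

theorem cj_sq {k n₀ : ℕ} (hk : 0 < k) : cj k n₀ k ^ 2 = cj k n₀ 0 ^ 2 := by
  rw [cj, cj, th_zero hk, th_self hk, mul_pow, mul_pow, ← Complex.exp_nat_mul,
    ← Complex.exp_nat_mul, Nat.choose_self, Nat.choose_zero_right]
  congr 1
  have e1 : ((2 : ℕ) : ℂ) * (((-(Real.pi * 1 * sg k n₀) : ℝ) : ℂ) * I)
      = ((2 : ℕ) : ℂ) * (((-(Real.pi * -1 * sg k n₀) : ℝ) : ℂ) * I)
        + ((((k : ℤ) - 2 * (k * n₀)) : ℤ) : ℂ) * (2 * Real.pi * I) := by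
    rw [sg]
    push_cast
    ring
  rw [e1, Complex.exp_add, Complex.exp_int_mul_two_pi_mul_I, mul_one]

theorem cj_norm_k (k n₀ : ℕ) : ‖cj k n₀ k‖ = 1 / 2 ^ k := by
  rw [cj_norm, Nat.choose_self, Nat.cast_one]

theorem cj_norm_0 (k n₀ : ℕ) : ‖cj k n₀ 0‖ = 1 / 2 ^ k := by
  rw [cj_norm, Nat.choose_zero_right, Nat.cast_one]

theorem qq_norm (d : ℕ) (ρ : ℂ) : ‖qq d ρ‖ = Real.exp (-(2 * Real.pi * ρ.im * ρ.re)) := by
  rw [qq, norm_mul]
  have e1 : ((d : ℂ) / 2) = (((d : ℝ) / 2 : ℝ) : ℂ) := by push_cast; ring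
  rw [e1, Complex.norm_cpow_real, norm_div, Complex.norm_I, norm_one, div_one, Real.one_rpow,
    one_mul, Complex.norm_exp]
  congr 1
  have e2 : (Real.pi : ℂ) * I * ρ ^ 2 = ((Real.pi : ℝ) : ℂ) * (I * ρ ^ 2) := by ring
  rw [e2, Complex.re_ofReal_mul, Complex.I_mul_re, pow_two, Complex.mul_im]
  ring

theorem qq_sq {d n : ℕ} {h : ℝ} (hn : h ^ 2 + d / 4 = n + 1 / 2) {ρ : ℂ} (him : ρ.im = h) :
    qq d ρ ^ 2 = -(cexp (((2 * Real.pi * ρ.re ^ 2 : ℝ) : ℂ) * I)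
      * (Real.exp (-(2 * (2 * Real.pi * h) * ρ.re)) : ℝ)) := by
  have hI : (1 / I : ℂ) = cexp (-(Real.pi / 2) * I) := by
    rw [neg_mul, Complex.exp_neg, Complex.exp_pi_div_two_mul_I, one_div]
  rw [qq, mul_pow, ← Complex.cpow_nat_mul]
  have e1 : (((2 : ℕ) : ℂ) * ((d : ℂ) / 2)) = (d : ℂ) := by push_cast; ring
  rw [e1, Complex.cpow_natCast, hI, ← Complex.exp_nat_mul, ← Complex.exp_nat_mul,
    ← Complex.exp_add]
  have hρ : ρ = (ρ.re : ℂ) + (h : ℂ) * I := by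
    conv_lhs => rw [← Complex.re_add_im ρ, him]
  have hnC : (d : ℂ) = 4 * ((n : ℂ) + 1 / 2 - (h : ℂ) ^ 2) := by
    have : (d : ℝ) = 4 * ((n : ℝ) + 1 / 2 - h ^ 2) := by linarith
    have h2 := congrArg (fun x : ℝ => (x : ℂ)) this
    push_cast at h2
    exact h2
  have e2 : (d : ℂ) * (-(Real.pi / 2) * I) + ((2 : ℕ) : ℂ) * (Real.pi * I * ρ ^ 2)
      = -(Real.pi * I) + (((-n : ℤ) : ℤ) : ℂ) * (2 * Real.pi * I)
        + ((((2 * Real.pi * ρ.re ^ 2 : ℝ) : ℂ) * I)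
          + ((-(2 * (2 * Real.pi * h) * ρ.re) : ℝ) : ℂ)) := by
    generalize ρ.re = t at hρ ⊢
    rw [hρ, hnC]
    push_cast
    have hI2 : (I : ℂ) ^ 2 = -1 := Complex.I_sq
    linear_combination (2 * Real.pi * (h : ℂ) ^ 2 * I + 4 * Real.pi * t * h) * hI2
  rw [e2, Complex.exp_add, Complex.exp_add, Complex.exp_add, Complex.exp_int_mul_two_pi_mul_I,
    Complex.exp_neg, Complex.exp_pi_mul_I]
  push_cast
  ring

theorem q_low {d n : ℕ} {h P : ℝ} (hP : P = 2 * Real.pi * h) (hP4 : 4 ≤ P)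
    (hn : h ^ 2 + d / 4 = n + 1 / 2) {ρ : ℂ} (him : ρ.im = h) :
    (1 + ‖qq d ρ‖) ^ 2 ≤ 4 * ‖1 - qq d ρ ^ 2‖ := by
  have hπ := Real.pi_pos
  set t := ρ.re with ht
  set s := ‖qq d ρ‖ with hs
  have hs1 : s = Real.exp (-(P * t)) := by
    rw [hs, qq_norm, him, hP]
  have hs0 : 0 ≤ s := norm_nonneg _
  set u : ℂ := cexp (((2 * Real.pi * t ^ 2 : ℝ) : ℂ) * I)
      * (Real.exp (-(2 * (2 * Real.pi * h) * t)) : ℝ) with hu
  have hq : qq d ρ ^ 2 = -u := qq_sq hn him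
  have hs2 : s ^ 2 = Real.exp (-(2 * P * t)) := by
    rw [hs1, ← Real.exp_nat_mul]
    congr 1
    push_cast
    ring
  have hun : ‖u‖ = s ^ 2 := by
    rw [← norm_neg, ← hq, norm_pow]
  have e0 : (1 : ℂ) - qq d ρ ^ 2 = 1 + u := by rw [hq]; ring
  rw [e0]
  have key : (1 + s ^ 2) / 2 ≤ ‖1 + u‖ := by
    rcases le_or_gt |t| (1 / 4) with h1 | h1
    · have hre : 0 ≤ u.re := by
        rw [hu, Complex.re_mul_ofReal, Complex.exp_ofReal_mul_I_re]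
        apply mul_nonneg _ (Real.exp_pos _).le
        have h2 : t ^ 2 ≤ (1 / 4) ^ 2 := by
          rw [← sq_abs t]
          exact pow_le_pow_left₀ (abs_nonneg _) h1 2
        apply Real.cos_nonneg_of_neg_pi_div_two_le_of_le
        · have : 0 ≤ 2 * Real.pi * t ^ 2 := by positivity
          linarith
        · nlinarith
      have h3 : ((1 + s ^ 2) / 2) ^ 2 ≤ ‖1 + u‖ ^ 2 := by
        have h4 : ‖1 + u‖ ^ 2 = 1 + 2 * u.re + ‖u‖ ^ 2 := by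
          rw [← Complex.normSq_eq_norm_sq, ← Complex.normSq_eq_norm_sq, Complex.normSq_apply,
            Complex.normSq_apply]
          simp only [Complex.add_re, Complex.one_re, Complex.add_im, Complex.one_im]
          ring
        rw [h4, hun]
        nlinarith [sq_nonneg (s ^ 2 - 1)]
      exact le_of_sq_le_sq h3 (norm_nonneg _)
    · rcases lt_or_ge t 0 with h2 | h2
      · have h3 : 3 ≤ s ^ 2 := by
          rw [abs_of_neg h2] at h1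
          rw [hs2]
          have h4 := Real.add_one_le_exp (-(2 * P * t))
          nlinarith
        have h5 := norm_sub_norm_le u (-1)
        rw [norm_neg, norm_one, sub_neg_eq_add, hun] at h5
        rw [add_comm 1 u]
        linarith
      · have h3 : s ^ 2 ≤ 1 / 3 := by
          rw [abs_of_nonneg h2] at h1
          rw [hs2, Real.exp_neg]
          have h4 := Real.add_one_le_exp (2 * P * t)
          have h5 : 3 ≤ Real.exp (2 * P * t) := by nlinarith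
          rw [inv_le_comm₀ (Real.exp_pos _) (by norm_num)]
          linarith
        have h5 := norm_sub_norm_le 1 (-u)
        rw [norm_neg, norm_one, sub_neg_eq_add, hun] at h5
        linarith
  nlinarith [sq_nonneg (s - 1)]

variable {k n₀ : ℕ} {e : V} {f g : V → ℂ}

/-- the bound on the upper side -/
theorem Pr.Y_top (p : Pr k n₀ e f g) {R P h E : ℝ} (hR : Rm k n₀ ≤ R)
    (hPh : P = 2 * Real.pi * h) (hP4 : 4 ≤ P) {n : ℕ}
    (hn : h ^ 2 + (Module.finrank ℝ V : ℝ) / 4 = n + 1 / 2) {ρ : ℂ} (him : ρ.im = h) (hE0 : 0 ≤ E)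
    (hE1 : ∀ τ : ℝ, 2 / (k : ℝ) ≤ |τ| →
      ‖HF (fun x => ch τ x * gR (GG k n₀ (HF g e)) R x) e ρ‖ ≤ E)
    (hE2 : ∀ τ : ℝ, 2 / (k : ℝ) ≤ |τ| →
      ‖HF (fun x => ch τ x * gR (GG k n₀ (HF f e)) R x) e ρ‖ ≤ E) :
    ‖HF (gR (V := V) (GG k n₀ (HF g e)) R) e ρ‖
      ≤ 4 * 2 ^ k * (Real.exp (P * R) * LL f g 0 + E) := by
  have hπ := Real.pi_pos
  have hk := p.hk
  have hh0 : 0 < h := by
    by_contra hcon
    push Not at hcon
    nlinarith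
  have hρ : |ρ.im| ≤ h := by rw [him, abs_of_pos hh0]
  set q := qq (Module.finrank ℝ V) ρ with hq
  set Y₁ := HF (gR (V := V) (GG k n₀ (HF g e)) R) e ρ with hY₁
  set Y₂ := HF (gR (V := V) (GG k n₀ (HF f e)) R) e ρ with hY₂
  set E' := Real.exp (P * R) * LL f g 0 + E with hE'
  have hE'0 : 0 ≤ E' := by
    have := p.lp.nn 0
    positivity
  have hk1 : k ∈ Finset.range (k + 1) := by simp
  have h01 : 0 ∈ Finset.range (k + 1) := by simp
  have hk0 : (0 : ℝ) < k := by exact_mod_cast hk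
  -- the four approximations
  have b₁ : ‖HF (fun x => ch (-1) x * f x) e ρ - cj k n₀ k * Y₁‖ ≤ E' :=
    p.dec_key hR hPh hρ hE0 hk1 (by rw [th_self hk]; ring)
      fun j hj hjk => hE1 _ (th_neg hk hj hjk)
  have a₁ : ‖HF (fun x => ch 1 x * f x) e ρ - cj k n₀ 0 * Y₁‖ ≤ E' :=
    p.dec_key hR hPh hρ hE0 h01 (by rw [th_zero hk]; ring)
      fun j hj hjk => hE1 _ (th_pos hk hjk)
  have b₂ : ‖HF (fun x => ch (-1) x * g x) e ρ - cj k n₀ k * Y₂‖ ≤ E' := by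
    have := p.symm.dec_key hR hPh hρ hE0 hk1 (by rw [th_self hk]; ring)
      fun j hj hjk => hE2 _ (th_neg hk hj hjk)
    rwa [LL_comm g f] at this
  have a₂ : ‖HF (fun x => ch 1 x * g x) e ρ - cj k n₀ 0 * Y₂‖ ≤ E' := by
    have := p.symm.dec_key hR hPh hρ hE0 h01 (by rw [th_zero hk]; ring)
      fun j hj hjk => hE2 _ (th_pos hk hjk)
    rwa [LL_comm g f] at this
  -- the identities
  have i₁ : HF (fun x => ch (-1) x * g x) e ρ = q * HF (fun x => ch 1 x * f x) e ρ := by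
    have := iden p.sf (by rw [p.fg]; exact p.sg') (fun x => p.rf _ _ (norm_neg x)) p.he ρ
    rwa [p.fg] at this
  have i₂ : HF (fun x => ch (-1) x * f x) e ρ = q * HF (fun x => ch 1 x * g x) e ρ := by
    have := iden p.sg' (by rw [p.gf]; exact p.sf) (fun x => p.rg _ _ (norm_neg x)) p.he ρ
    rwa [p.gf] at this
  set A₁ := HF (fun x => ch 1 x * f x) e ρ
  set A₂ := HF (fun x => ch 1 x * g x) e ρ
  set B₁ := HF (fun x => ch (-1) x * f x) e ρ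
  set B₂ := HF (fun x => ch (-1) x * g x) e ρ
  set c₀ := cj k n₀ 0 with hc₀
  set cₖ := cj k n₀ k with hcₖ
  have hcc : cₖ ^ 2 = c₀ ^ 2 := cj_sq hk
  have main : c₀ ^ 2 * (1 - q ^ 2) * Y₁ = q ^ 2 * c₀ * (A₁ - c₀ * Y₁) - q * c₀ * (B₂ - cₖ * Y₂)
      + cₖ * q * (A₂ - c₀ * Y₂) - cₖ * (B₁ - cₖ * Y₁) := by
    rw [i₁, i₂]
    linear_combination (-Y₁) * hcc
  have hn0 : ‖c₀‖ = 1 / 2 ^ k := cj_norm_0 k n₀
  have hnk : ‖cₖ‖ = 1 / 2 ^ k := cj_norm_k k n₀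
  set s := ‖q‖ with hs
  have hs0 : 0 ≤ s := norm_nonneg _
  set w : ℝ := 1 / 2 ^ k with hw
  have hw0 : 0 < w := by positivity
  have hmain : w ^ 2 * ‖1 - q ^ 2‖ * ‖Y₁‖ ≤ w * E' * (1 + s) ^ 2 := by
    have e1 : w ^ 2 * ‖1 - q ^ 2‖ * ‖Y₁‖ = ‖c₀ ^ 2 * (1 - q ^ 2) * Y₁‖ := by
      rw [norm_mul, norm_mul, norm_pow, hn0]
    rw [e1, main]
    have t1 : ‖q ^ 2 * c₀ * (A₁ - c₀ * Y₁)‖ ≤ s ^ 2 * w * E' := by
      rw [norm_mul, norm_mul, norm_pow, hn0]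
      exact mul_le_mul_of_nonneg_left a₁ (by positivity)
    have t2 : ‖q * c₀ * (B₂ - cₖ * Y₂)‖ ≤ s * w * E' := by
      rw [norm_mul, norm_mul, hn0]
      exact mul_le_mul_of_nonneg_left b₂ (by positivity)
    have t3 : ‖cₖ * q * (A₂ - c₀ * Y₂)‖ ≤ w * s * E' := by
      rw [norm_mul, norm_mul, hnk]
      exact mul_le_mul_of_nonneg_left a₂ (by positivity)
    have t4 : ‖cₖ * (B₁ - cₖ * Y₁)‖ ≤ w * E' := by
      rw [norm_mul, hnk]
      exact mul_le_mul_of_nonneg_left b₁ (by positivity)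
    have n1 := norm_sub_le (q ^ 2 * c₀ * (A₁ - c₀ * Y₁) - q * c₀ * (B₂ - cₖ * Y₂)
      + cₖ * q * (A₂ - c₀ * Y₂)) (cₖ * (B₁ - cₖ * Y₁))
    have n2 := norm_add_le (q ^ 2 * c₀ * (A₁ - c₀ * Y₁) - q * c₀ * (B₂ - cₖ * Y₂))
      (cₖ * q * (A₂ - c₀ * Y₂))
    have n3 := norm_sub_le (q ^ 2 * c₀ * (A₁ - c₀ * Y₁)) (q * c₀ * (B₂ - cₖ * Y₂))
    have e2 : w * E' * (1 + s) ^ 2 = s ^ 2 * w * E' + s * w * E' + w * s * E' + w * E' := by ring
    linarith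
  have hlow := q_low hPh hP4 hn him
  rw [← hq, ← hs] at hlow
  have hpos : 0 < ‖1 - q ^ 2‖ := by nlinarith
  have h1 : w ^ 2 * ‖1 - q ^ 2‖ * ‖Y₁‖ ≤ w * E' * (4 * ‖1 - q ^ 2‖) :=
    hmain.trans (mul_le_mul_of_nonneg_left hlow (by positivity))
  have h2 : (w * ‖1 - q ^ 2‖) * (w * ‖Y₁‖) ≤ (w * ‖1 - q ^ 2‖) * (4 * E') := by nlinarith
  have h3 : w * ‖Y₁‖ ≤ 4 * E' := le_of_mul_le_mul_left h2 (by positivity)
  have h4 : w * 2 ^ k = 1 := by
    rw [hw]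
    field_simp
  calc ‖Y₁‖ = (w * 2 ^ k) * ‖Y₁‖ := by rw [h4, one_mul]
    _ = 2 ^ k * (w * ‖Y₁‖) := by ring
    _ ≤ 2 ^ k * (4 * E') := mul_le_mul_of_nonneg_left h3 (by positivity)
    _ = _ := by ring

theorem Pr.geven (p : Pr k n₀ e f g) (R : ℝ) (x : V) :
    gR (GG k n₀ (HF g e)) R (-x) = gR (GG k n₀ (HF g e)) R x := by
  rcases le_or_gt ‖x‖ R with h | h
  · rw [gR_of_le h, gR_of_le (by rwa [norm_neg])]
  · rw [gR_of_lt h, gR_of_lt (by rwa [norm_neg]), norm_neg]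

/-- the bound in the strip -/
theorem Pr.Y_strip (p : Pr k n₀ e f g) {R P h E κ : ℝ} (hR : Rm k n₀ ≤ R)
    (hPh : P = 2 * Real.pi * h) (hP4 : 4 ≤ P) {n : ℕ}
    (hn : h ^ 2 + (Module.finrank ℝ V : ℝ) / 4 = n + 1 / 2) (hκ : 0 ≤ κ) (hE0 : 0 ≤ E)
    (hE1 : ∀ (ρ : ℂ) (τ : ℝ), |ρ.im| ≤ h → |ρ.re| ≤ κ → 2 / (k : ℝ) ≤ |τ| →
      ‖HF (fun x => ch τ x * gR (GG k n₀ (HF g e)) R x) e ρ‖ ≤ E)
    (hE2 : ∀ (ρ : ℂ) (τ : ℝ), |ρ.im| ≤ h → |ρ.re| ≤ κ → 2 / (k : ℝ) ≤ |τ| →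
      ‖HF (fun x => ch τ x * gR (GG k n₀ (HF f e)) R x) e ρ‖ ≤ E)
    (hE3 : ∀ ρ : ℂ, |ρ.im| ≤ h → κ ≤ |ρ.re| →
      ‖HF (gR (V := V) (GG k n₀ (HF g e)) R) e ρ‖ ≤ E) {ρ : ℂ} (hρ : |ρ.im| ≤ h) :
    ‖HF (gR (V := V) (GG k n₀ (HF g e)) R) e ρ‖
      ≤ 4 * 2 ^ k * (Real.exp (P * R) * LL f g 0 + E) := by
  have hπ := Real.pi_pos
  have hh0 : 0 < h := by
    by_contra hcon
    push Not at hcon
    nlinarith
  have hL0 := p.lp.nn 0
  have hEE : E ≤ 4 * 2 ^ k * (Real.exp (P * R) * LL f g 0 + E) := by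
    have h1 : (1 : ℝ) ≤ 2 ^ k := one_le_pow₀ (by norm_num)
    have h2 : 0 ≤ Real.exp (P * R) * LL f g 0 := by positivity
    have h3 : (1 : ℝ) ≤ 4 * 2 ^ k := by linarith
    calc E ≤ 1 * (Real.exp (P * R) * LL f g 0 + E) := by linarith
      _ ≤ _ := mul_le_mul_of_nonneg_right h3 (by linarith)
  rcases le_or_gt κ |ρ.re| with hre | hre
  · exact (hE3 ρ hρ hre).trans hEE
  · have hs := p.gsm hR
    have htop : ∀ z : ℂ, z.im = h → |z.re| ≤ κ → ‖HF (gR (V := V) (GG k n₀ (HF g e)) R) e z‖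
        ≤ 4 * 2 ^ k * (Real.exp (P * R) * LL f g 0 + E) := by
      intro z hz hzr
      have hzi : |z.im| ≤ h := by rw [hz, abs_of_pos hh0]
      exact p.Y_top hR hPh hP4 hn hz hE0 (fun τ hτ => hE1 z τ hzi hzr hτ)
        (fun τ hτ => hE2 z τ hzi hzr hτ)
    have h2 := abs_le.1 hρ
    have h3 := abs_lt.1 hre
    refine rect_max (a := -κ) (b := κ) (c := -h) (d := h) (fun z _ _ _ _ => hs.diff p.he z) ?_ ρ
      (by linarith) (by linarith) (by linarith) (by linarith)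
    intro z za zb zc zd hz
    have hzi : |z.im| ≤ h := abs_le.2 ⟨zc, zd⟩
    rcases hz with hz | hz | hz | hz
    · exact (hE3 z hzi (by rw [hz, abs_neg, abs_of_nonneg hκ])).trans hEE
    · exact (hE3 z hzi (by rw [hz, abs_of_nonneg hκ])).trans hEE
    · rw [← HF_even (p.geven R) e z]
      apply htop
      · rw [Complex.neg_im, hz, neg_neg]
      · rw [Complex.neg_re, abs_neg]
        exact abs_le.2 ⟨za, zb⟩
    · exact htop z hz (abs_le.2 ⟨za, zb⟩)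

end Pool.Agent.SX
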