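import Pool.Agent.Lib_helper71.SX.Iden
import Pool.Agent.Lib_helper71.SX.Bd

/-!
# MP_a65497_an: the decomposition into chirps
-/

set_option autoImplicit false

namespace Pool.Agent.SX

open MeasureTheory Complex Filter Topology Set
open Pool.Agent.GU
open scoped FourierTransform

variable {V : Type*} [NormedAddCommGroup V] [InnerProductSpace ℝ V] [FiniteDimensional ℝ V]
  [MeasurableSpace V] [BorelSpace V]

theorem SM.add {f g : V → ℂ} (hf : SM f) (hg : SM g) : SM fun x => f x + g x := by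
  refine ⟨hf.meas.add hg.meas, fun T => ?_⟩
  obtain ⟨C, hC⟩ := hf.se T
  obtain ⟨C', hC'⟩ := hg.se T
  refine ⟨C + C', fun x => (norm_add_le _ _).trans ?_⟩
  rw [add_mul]
  exact add_le_add (hC x) (hC' x)

theorem SM.const_mul {g : V → ℂ} (hg : SM g) (c : ℂ) : SM fun x => c * g x :=
  hg.mul continuous_const (A := ‖c‖) (t := 0) (norm_nonneg _) fun x => by simp

theorem SM.sum {ι : Type*} (s : Finset ι) {F : ι → V → ℂ} (h : ∀ i ∈ s, SM (F i)) :
    SM fun x => ∑ i ∈ s, F i x := by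
  classical
  induction s using Finset.induction_on with
  | empty =>
    refine ⟨?_, fun T => ⟨0, fun x => by simp⟩⟩
    simp only [Finset.sum_empty]
    exact aestronglyMeasurable_const
  | insert a s ha ih =>
    simp only [Finset.sum_insert ha]
    exact (h a (Finset.mem_insert_self a s)).add
      (ih fun i hi => h i (Finset.mem_insert_of_mem hi))

theorem SM.kint {g : V → ℂ} (hg : SM g) {e : V} (he : ‖e‖ = 1) (ρ : ℂ) : Integrable fun x : V =>
    cexp (-(2 * Real.pi * (inner ℝ x e) : ℝ) * I * ρ) * g x := by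
  have h1 : SM fun x : V => cexp (-(2 * Real.pi * (inner ℝ x e) : ℝ) * I * ρ) * g x :=
    hg.mul (by fun_prop) (A := 1) (t := 2 * Real.pi * |ρ.im|) zero_le_one fun x => by
      rw [one_mul]
      exact kernel_le2 he x ρ
  exact h1.intg

theorem HF_add {f g : V → ℂ} (hf : SM f) (hg : SM g) {e : V} (he : ‖e‖ = 1) (ρ : ℂ) :
    HF (fun x => f x + g x) e ρ = HF f e ρ + HF g e ρ := by
  rw [HF, HF, HF, ← integral_add (hf.kint he ρ) (hg.kint he ρ)]
  congr 1
  funext x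
  ring

theorem HF_const_mul (g : V → ℂ) (e : V) (ρ c : ℂ) :
    HF (fun x => c * g x) e ρ = c * HF g e ρ := by
  rw [HF, HF, ← integral_const_mul]
  congr 1
  funext x
  ring

theorem HF_sum {ι : Type*} (s : Finset ι) {F : ι → V → ℂ} (h : ∀ i ∈ s, SM (F i)) {e : V}
    (he : ‖e‖ = 1) (ρ : ℂ) :
    HF (fun x => ∑ i ∈ s, F i x) e ρ = ∑ i ∈ s, HF (F i) e ρ := by
  rw [HF]
  simp_rw [HF]
  rw [← integral_finsetSum s fun i hi => (h i hi).kint he ρ]
  congr 1
  funext x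
  rw [Finset.mul_sum]

theorem HF_even {g : V → ℂ} (hg : ∀ x, g (-x) = g x) (e : V) (ρ : ℂ) :
    HF g e (-ρ) = HF g e ρ := by
  rw [HF, HF, ← integral_neg_eq_self (μ := (volume : Measure V)) (fun x : V =>
    cexp (-(2 * Real.pi * (inner ℝ x e) : ℝ) * I * ρ) * g x)]
  congr 1
  funext x
  rw [hg x, inner_neg_left]
  congr 2
  push_cast
  ring

/-- the frequencies -/
noncomputable def th (k j : ℕ) : ℝ := (2 * j - k) / k

/-- the coefficients -/
noncomputable def cj (k n₀ j : ℕ) : ℂ :=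
  (((k.choose j : ℝ) / 2 ^ k : ℝ) : ℂ) * cexp (((-(Real.pi * th k j * sg k n₀) : ℝ) : ℂ) * I)

theorem cj_norm (k n₀ j : ℕ) : ‖cj k n₀ j‖ = (k.choose j : ℝ) / 2 ^ k := by
  rw [cj, norm_mul, Complex.norm_exp_ofReal_mul_I, mul_one, Complex.norm_real,
    Real.norm_of_nonneg (by positivity)]

theorem cj_sum (k n₀ : ℕ) : ∑ j ∈ Finset.range (k + 1), ‖cj k n₀ j‖ = 1 := by
  simp_rw [cj_norm]
  rw [← Finset.sum_div]
  have h := Nat.sum_range_choose k
  have h2 : ∑ j ∈ Finset.range (k + 1), (k.choose j : ℝ) = 2 ^ k := by exact_mod_cast h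
  rw [h2, div_self (by positivity)]

theorem cos_exp {k n₀ : ℕ} (hk : 0 < k) (r : ℝ) :
    Complex.cos (Real.pi * ((r : ℂ) ^ 2 - (sg k n₀ : ℂ)) / k) ^ k
      = ∑ j ∈ Finset.range (k + 1), cj k n₀ j * cexp (((Real.pi * th k j * r ^ 2 : ℝ) : ℂ) * I) := by
  have hk0 : (k : ℂ) ≠ 0 := by exact_mod_cast hk.ne'
  set y : ℂ := Real.pi * ((r : ℂ) ^ 2 - (sg k n₀ : ℂ)) / k with hy
  rw [Complex.cos, div_pow, add_pow, Finset.sum_div]
  apply Finset.sum_congr rfl
  intro j hj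
  have hjk : j ≤ k := by
    have := Finset.mem_range.1 hj
    omega
  rw [cj, ← Complex.exp_nat_mul, ← Complex.exp_nat_mul, ← Complex.exp_add, mul_assoc,
    ← Complex.exp_add]
  have e1 : (j : ℂ) * (y * I) + ((k - j : ℕ) : ℂ) * (-y * I)
      = ((-(Real.pi * th k j * sg k n₀) : ℝ) : ℂ) * I + ((Real.pi * th k j * r ^ 2 : ℝ) : ℂ) * I := by
    rw [Nat.cast_sub hjk, th, hy]
    push_cast
    field_simp
    ring
  rw [e1]
  push_cast
  ring

/-- a pair of Fourier transforms with the zeros -/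
structure Pr (k n₀ : ℕ) (e : V) (f g : V → ℂ) : Prop where
  he : ‖e‖ = 1
  hk : 0 < k
  hn : 1 ≤ n₀
  sf : SM f
  sg' : SM g
  rf : Rad f
  rg : Rad g
  fg : 𝓕 f = g
  gf : 𝓕 g = f
  zf : Zer k n₀ e f
  zg : Zer k n₀ e g

variable {k n₀ : ℕ} {e : V} {f g : V → ℂ}

theorem Pr.symm (p : Pr k n₀ e f g) : Pr k n₀ e g f :=
  ⟨p.he, p.hk, p.hn, p.sg', p.sf, p.rg, p.rf, p.gf, p.fg, p.zg, p.zf⟩

theorem Pr.dat (p : Pr k n₀ e f g) : Dat k n₀ (HF g e) :=
  ⟨p.hk, p.hn, p.sg'.diff p.he, fun n hn => order_of_zer (p.sg'.diff p.he)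
    (by rw [p.gf]; exact p.zf) n hn⟩

theorem Pr.val (p : Pr k n₀ e f g) (x : V) : f x = HF g e ((‖x‖ : ℝ) : ℂ) := by
  rw [HF_real, p.gf]
  exact p.rf _ _ (by rw [norm_smul, p.he, mul_one, norm_norm])

theorem LL_comm (f g : V → ℂ) (t : ℝ) : LL f g t = LL g f t := by
  rw [LL, LL]
  congr 1
  funext x
  rw [add_comm]

theorem Pr.lp (p : Pr k n₀ e f g) : Lp (LL f g) :=
  ⟨fun t => LL_nonneg t, fun _ _ h => LL_mono p.sf p.sg' h,
    fun _ _ _ h1 h2 => LL_split p.sf p.sg' h1 h2⟩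

theorem Pr.hH (p : Pr k n₀ e f g) (ζ : ℂ) : ‖HF g e ζ‖ ≤ LL f g (2 * Real.pi * |ζ.im|) :=
  (p.sg'.HF_le p.he le_rfl).trans (LL_right p.sf p.sg' _)

theorem Pr.gsm (p : Pr k n₀ e f g) {R : ℝ} (hR : Rm k n₀ ≤ R) :
    SM (gR (V := V) (GG k n₀ (HF g e)) R) := by
  have hπ := Real.pi_pos
  have D := p.dat
  have hR0 := D.Rm1
  apply gR_sm
  · intro ζ hζ
    exact D.diff (hR.trans hζ)
  · intro P
    set h : ℝ := max (1 / 4) (P / (2 * Real.pi)) with hh
    have hPh : P ≤ 2 * Real.pi * h := by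
      have h1 : P / (2 * Real.pi) ≤ h := le_max_right _ _
      rw [div_le_iff₀ (by positivity)] at h1
      linarith
    have h14 : 1 / 4 ≤ h := le_max_left _ _
    have hLP := p.lp.nn (2 * Real.pi * h)
    have hC := C1_pos (k := k) p.lp
    refine ⟨C1 k (LL f g) * (LL f g (2 * Real.pi * h) + Real.exp (2 * Real.pi * h * R)),
      by positivity, fun r hr => ?_⟩
    have h2 := bd_in D p.lp p.hH hR h14 rfl (ζ := (r : ℂ)) (by simpa using hr)
      (by rw [Complex.ofReal_im, abs_zero]; linarith)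
    refine h2.trans (mul_le_mul_of_nonneg_left (Real.exp_le_exp.2 ?_) (by positivity))
    rw [Complex.ofReal_re]
    have : P * r ≤ 2 * Real.pi * h * r := mul_le_mul_of_nonneg_right hPh (by linarith)
    linarith

theorem Pr.dec (p : Pr k n₀ e f g) {R : ℝ} (hR : Rm k n₀ ≤ R) (x : V) :
    f x = Set.indicator {x : V | ‖x‖ ≤ R} f x + ∑ j ∈ Finset.range (k + 1),
      cj k n₀ j * (ch (th k j) x * gR (GG k n₀ (HF g e)) R x) := by
  rcases le_or_gt ‖x‖ R with h | h
  · rw [Set.indicator_of_mem (s := {x : V | ‖x‖ ≤ R}) h, gR_of_le h]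
    simp
  · rw [Set.indicator_of_notMem (s := {x : V | ‖x‖ ≤ R}) (by simpa using h), zero_add,
      gR_of_lt h]
    have h1 := p.dat.eq (r := ‖x‖) (by linarith)
    rw [cos_exp p.hk] at h1
    rw [p.val x, h1, Finset.mul_sum]
    apply Finset.sum_congr rfl
    intro j _
    rw [ch]
    ring

theorem SM.ind {f : V → ℂ} (hf : SM f) (R : ℝ) : SM (Set.indicator {x : V | ‖x‖ ≤ R} f) := by
  have hms : MeasurableSet {x : V | ‖x‖ ≤ R} :=
    (isClosed_le continuous_norm continuous_const).measurableSet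
  refine ⟨hf.meas.indicator hms, fun T => ?_⟩
  obtain ⟨C, hC⟩ := hf.se T
  exact ⟨C, fun x => (norm_indicator_le_norm_self _ _).trans (hC x)⟩

theorem Pr.decHF (p : Pr k n₀ e f g) {R : ℝ} (hR : Rm k n₀ ≤ R) (τ : ℝ) (ρ : ℂ) :
    HF (fun x => ch τ x * f x) e ρ
      = HF (fun x => ch τ x * Set.indicator {x : V | ‖x‖ ≤ R} f x) e ρ
        + ∑ j ∈ Finset.range (k + 1),
          cj k n₀ j * HF (fun x => ch (τ + th k j) x * gR (GG k n₀ (HF g e)) R x) e ρ := by
  have hs := p.gsm hR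
  have e1 : (fun x => ch τ x * f x) = fun x => (ch τ x * Set.indicator {x : V | ‖x‖ ≤ R} f x)
      + ∑ j ∈ Finset.range (k + 1),
        cj k n₀ j * (ch (τ + th k j) x * gR (GG k n₀ (HF g e)) R x) := by
    funext x
    conv_lhs => rw [p.dec hR x]
    rw [mul_add, Finset.mul_sum]
    congr 1
    apply Finset.sum_congr rfl
    intro j _
    rw [← ch_add]
    ring
  rw [e1, HF_add ((p.sf.ind R).ch τ) (SM.sum _ fun j _ => (hs.ch _).const_mul _) p.he,
    HF_sum _ (fun j _ => (hs.ch _).const_mul _) p.he]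
  congr 1
  apply Finset.sum_congr rfl
  intro j _
  rw [HF_const_mul]

theorem Pr.dec_key (p : Pr k n₀ e f g) {R P h E : ℝ} (hR : Rm k n₀ ≤ R)
    (hPh : P = 2 * Real.pi * h) {τ : ℝ} {ρ : ℂ} (hρ : |ρ.im| ≤ h) (hE0 : 0 ≤ E) {j₀ : ℕ}
    (hj₀ : j₀ ∈ Finset.range (k + 1)) (hτ : τ + th k j₀ = 0)
    (hE : ∀ j ∈ Finset.range (k + 1), j ≠ j₀ →
      ‖HF (fun x => ch (τ + th k j) x * gR (GG k n₀ (HF g e)) R x) e ρ‖ ≤ E) :
    ‖HF (fun x => ch τ x * f x) e ρ - cj k n₀ j₀ * HF (gR (GG k n₀ (HF g e)) R) e ρ‖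
      ≤ Real.exp (P * R) * LL f g 0 + E := by
  have hπ := Real.pi_pos
  have hR0 := p.dat.Rm1
  rw [p.decHF hR τ ρ, ← Finset.add_sum_erase _ _ hj₀, hτ]
  have e0 : (fun x => ch 0 x * gR (GG k n₀ (HF g e)) R x) = gR (V := V) (GG k n₀ (HF g e)) R := by
    funext x
    rw [ch_zero, one_mul]
  rw [e0]
  have e1 : ∀ a b c : ℂ, a + (b + c) - b = a + c := fun a b c => by ring
  rw [e1]
  refine (norm_add_le _ _).trans (add_le_add ?_ ?_)
  · -- the inner part
    have h1 : ∀ x : V, ‖ch τ x * Set.indicator {x : V | ‖x‖ ≤ R} f x‖ * Real.exp (P * ‖x‖)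
        ≤ Real.exp (P * R) * ((‖f x‖ + ‖g x‖) * Real.exp (0 * ‖x‖)) := by
      intro x
      have hP0 : 0 ≤ P := by
        rw [hPh]
        have : 0 ≤ h := (abs_nonneg _).trans hρ
        positivity
      rw [norm_mul, ch_norm, one_mul, zero_mul, Real.exp_zero, mul_one]
      rcases le_or_gt ‖x‖ R with h | h
      · rw [Set.indicator_of_mem (s := {x : V | ‖x‖ ≤ R}) h, mul_comm]
        apply mul_le_mul _ _ (norm_nonneg _) (Real.exp_pos _).le
        · exact Real.exp_le_exp.2 (mul_le_mul_of_nonneg_left h hP0)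
        · linarith [norm_nonneg (g x)]
      · rw [Set.indicator_of_notMem (s := {x : V | ‖x‖ ≤ R}) (by simpa using h), norm_zero,
          zero_mul]
        positivity
    calc ‖HF (fun x => ch τ x * Set.indicator {x : V | ‖x‖ ≤ R} f x) e ρ‖
        ≤ ∫ x : V, ‖ch τ x * Set.indicator {x : V | ‖x‖ ≤ R} f x‖ * Real.exp (P * ‖x‖) := by
          apply ((p.sf.ind R).ch τ).HF_le p.he
          rw [hPh]
          exact mul_le_mul_of_nonneg_left hρ (by positivity)
      _ ≤ ∫ x : V, Real.exp (P * R) * ((‖f x‖ + ‖g x‖) * Real.exp (0 * ‖x‖)) :=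
          integral_mono (((p.sf.ind R).ch τ).int P) ((LL_int p.sf p.sg' 0).const_mul _) h1
      _ = _ := by
          rw [integral_const_mul]
          rfl
  · refine (norm_sum_le _ _).trans ?_
    have h1 : ∀ j ∈ (Finset.range (k + 1)).erase j₀,
        ‖cj k n₀ j * HF (fun x => ch (τ + th k j) x * gR (GG k n₀ (HF g e)) R x) e ρ‖
          ≤ ‖cj k n₀ j‖ * E := by
      intro j hj
      rw [norm_mul]
      exact mul_le_mul_of_nonneg_left (hE j (Finset.mem_of_mem_erase hj)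
        (Finset.ne_of_mem_erase hj)) (norm_nonneg _)
    refine (Finset.sum_le_sum h1).trans ?_
    rw [← Finset.sum_mul]
    apply mul_le_of_le_one_left hE0
    rw [← cj_sum k n₀]
    exact Finset.sum_le_sum_of_subset_of_nonneg (Finset.erase_subset _ _)
      fun i _ _ => norm_nonneg _

end Pool.Agent.SX
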