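import Pool.Agent.Lib_helper71.SX.Iden

/-!
# MP_a65497_an: mollification by a Gaussian
-/

set_option autoImplicit false

namespace Pool.Agent.SX

open MeasureTheory Complex Filter Topology Set
open Pool.Agent.GU
open scoped FourierTransform

variable {V : Type*} [NormedAddCommGroup V] [InnerProductSpace ℝ V] [FiniteDimensional ℝ V]
  [MeasurableSpace V] [BorelSpace V]

theorem rp {s : ℝ} (hs : 0 < s) (d : ℕ) : (s ^ 2) ^ ((d : ℝ) / 2) = s ^ d := by
  rw [← Real.rpow_natCast s 2, ← Real.rpow_mul hs.le, ← Real.rpow_natCast]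
  congr 1
  push_cast
  ring

theorem int_gau {c : ℝ} (hc : 0 < c) :
    ∫ x : V, Real.exp (-(Real.pi / c ^ 2 * ‖x‖ ^ 2)) = c ^ Module.finrank ℝ V := by
  have hπ := Real.pi_pos
  have h := GaussianFourier.integral_rexp_neg_mul_sq_norm (V := V) (b := Real.pi / c ^ 2)
    (by positivity)
  have e1 : Real.pi / (Real.pi / c ^ 2) = c ^ 2 := by field_simp
  rw [e1, rp hc] at h
  rw [← h]
  congr 1
  funext x
  rw [neg_mul]

theorem int_gau' {c : ℝ} (hc : 0 < c) (x : V) :
    ∫ y : V, Real.exp (-(Real.pi / c ^ 2 * ‖x - y‖ ^ 2)) = c ^ Module.finrank ℝ V := by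
  rw [integral_sub_left_eq_self (fun y : V => Real.exp (-(Real.pi / c ^ 2 * ‖y‖ ^ 2))) volume x,
    int_gau hc]

theorem intg_gau' {c : ℝ} (hc : 0 < c) (x : V) :
    Integrable fun y : V => Real.exp (-(Real.pi / c ^ 2 * ‖x - y‖ ^ 2)) := by
  have hπ := Real.pi_pos
  exact (gauss_int (V := V) (b := Real.pi / c ^ 2) (by positivity)).comp_sub_left x

theorem moll {φ : V → ℂ} (hφ : Integrable φ) {E C s : ℝ} (hs : 0 < s) (hE0 : 0 ≤ E)
    (hE : ∀ ξ, ‖𝓕 φ ξ‖ ≤ E) (x : V) (hC0 : 0 ≤ C) (hC : ∀ y, ‖φ y - φ x‖ ≤ C * ‖y - x‖) :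
    ‖φ x‖ ≤ C * s * 2 ^ Module.finrank ℝ V + E * (s ^ Module.finrank ℝ V)⁻¹ := by
  have hπ := Real.pi_pos
  set d := Module.finrank ℝ V with hd
  have hsd : 0 < s ^ d := by positivity
  set b : ℝ := Real.pi * s ^ 2 with hb
  have hb0 : 0 < b := by positivity
  have hbre : 0 < ((b : ℝ) : ℂ).re := by rw [Complex.ofReal_re]; exact hb0
  set ψ : V → ℂ := fun w => cexp (-((b : ℝ) : ℂ) * ‖w‖ ^ 2 + 2 * Real.pi * I * (inner ℝ x w : ℝ))
    with hψ
  have hψi : Integrable ψ := GaussianFourier.integrable_cexp_neg_mul_sq_norm_add hbre _ _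
  set K : V → ℝ := fun y => (s ^ d)⁻¹ * Real.exp (-(Real.pi / s ^ 2 * ‖x - y‖ ^ 2)) with hK
  have hA : ((Real.pi : ℂ) / ((b : ℝ) : ℂ)) ^ ((d : ℂ) / 2) = (((s ^ d)⁻¹ : ℝ) : ℂ) := by
    have e1 : (Real.pi : ℂ) / ((b : ℝ) : ℂ) = (((s⁻¹) ^ 2 : ℝ) : ℂ) := by
      rw [← Complex.ofReal_div]
      congr 1
      rw [hb]
      field_simp
    have e2 : ((d : ℂ) / 2) = (((d : ℝ) / 2 : ℝ) : ℂ) := by push_cast; ring
    rw [e1, e2, ← Complex.ofReal_cpow (by positivity), rp (by positivity), inv_pow]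
  have hF : ∀ y, 𝓕 ψ y = ((K y : ℝ) : ℂ) := by
    intro y
    rw [hψ, fourier_gaussian_innerProductSpace' hbre, hA, hK]
    push_cast
    congr 2
    rw [hb]
    push_cast
    have hπC : (Real.pi : ℂ) ≠ 0 := by exact_mod_cast hπ.ne'
    have hsC : (s : ℂ) ≠ 0 := by exact_mod_cast hs.ne'
    field_simp
  have hKi : Integrable K := (intg_gau' hs x).const_mul _
  have hK1 : ∫ y, K y = 1 := by
    rw [hK, integral_const_mul, int_gau' hs, ← hd, inv_mul_cancel₀ hsd.ne']
  have hK0 : ∀ y, 0 ≤ K y := fun y => by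
    simp only [hK]
    positivity
  have hpars := pars hψi hφ
  -- the right side
  have hR : ‖∫ w, ψ w * 𝓕 φ w‖ ≤ E * (s ^ d)⁻¹ := by
    have h1 : ∀ w : V, ‖ψ w * 𝓕 φ w‖ ≤ E * Real.exp (-(Real.pi / (s⁻¹) ^ 2 * ‖w‖ ^ 2)) := by
      intro w
      rw [norm_mul, mul_comm]
      apply mul_le_mul (hE w) _ (norm_nonneg _) hE0
      rw [hψ, Complex.norm_exp]
      apply Real.exp_le_exp.2
      have e3 : (-((b : ℝ) : ℂ) * ‖w‖ ^ 2 + 2 * Real.pi * I * (inner ℝ x w : ℝ))
          = ((-(b * ‖w‖ ^ 2) : ℝ) : ℂ) + ((2 * Real.pi * inner ℝ x w : ℝ) : ℂ) * I := by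
        push_cast
        ring
      rw [e3, Complex.add_re, Complex.ofReal_re, Complex.re_ofReal_mul, Complex.I_re, mul_zero,
        add_zero, hb, inv_pow, div_inv_eq_mul]
    refine (norm_integral_le_of_norm_le ((gauss_int (V := V)
      (b := Real.pi / (s⁻¹) ^ 2) (by positivity)).const_mul E) (Eventually.of_forall h1)).trans ?_
    rw [integral_const_mul, int_gau (by positivity : 0 < s⁻¹), ← hd, inv_pow]
  -- the error
  have hKφ : Integrable fun y => ((K y : ℝ) : ℂ) * φ y := by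
    refine (hφ.norm.const_mul ((s ^ d)⁻¹)).mono' ?_ (Eventually.of_forall fun y => ?_)
    · exact (Complex.continuous_ofReal.comp_aestronglyMeasurable hKi.aestronglyMeasurable).mul
        hφ.aestronglyMeasurable
    · rw [norm_mul, Complex.norm_real, Real.norm_of_nonneg (hK0 y)]
      apply mul_le_mul_of_nonneg_right _ (norm_nonneg _)
      simp only [hK]
      apply mul_le_of_le_one_right (by positivity)
      rw [Real.exp_le_one_iff]
      have : 0 ≤ Real.pi / s ^ 2 * ‖x - y‖ ^ 2 := by positivity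
      linarith
  have hKx : Integrable fun y => ((K y : ℝ) : ℂ) * φ x := hKi.ofReal.mul_const _
  have e4 : φ x = (∫ y, ((K y : ℝ) : ℂ) * (φ x - φ y)) + ∫ y, ((K y : ℝ) : ℂ) * φ y := by
    have e5 : ∫ y, ((K y : ℝ) : ℂ) * φ x = φ x := by
      rw [integral_mul_const, integral_complex_ofReal, hK1]
      simp
    conv_lhs => rw [← e5]
    simp_rw [mul_sub]
    rw [integral_sub hKx hKφ]
    ring
  have e6 : ∫ y, ((K y : ℝ) : ℂ) * φ y = ∫ w, ψ w * 𝓕 φ w := by
    rw [← hpars]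
    congr 1
    funext y
    rw [hF y]
  have herr : ‖∫ y, ((K y : ℝ) : ℂ) * (φ x - φ y)‖ ≤ C * s * 2 ^ d := by
    set c : ℝ := Real.sqrt 2 * s with hc
    have hc0 : 0 < c := by positivity
    have hc2 : c ^ 2 = 2 * s ^ 2 := by
      rw [hc, mul_pow, Real.sq_sqrt (by norm_num)]
    have h1 : ∀ y : V, ‖((K y : ℝ) : ℂ) * (φ x - φ y)‖
        ≤ C * s * (s ^ d)⁻¹ * Real.exp (-(Real.pi / c ^ 2 * ‖x - y‖ ^ 2)) := by
      intro y
      rw [norm_mul, Complex.norm_real, Real.norm_of_nonneg (hK0 y)]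
      have h2 := hC y
      rw [norm_sub_rev, norm_sub_rev y x] at h2
      set v := ‖x - y‖ with hv
      have hv0 : 0 ≤ v := norm_nonneg _
      have h3 : v ≤ s * Real.exp (Real.pi / c ^ 2 * v ^ 2) := by
        have h4 : Real.pi / c ^ 2 * v ^ 2 = Real.pi / 2 * (v / s) ^ 2 := by
          rw [hc2]
          field_simp
        have h5 := Real.add_one_le_exp (Real.pi / 2 * (v / s) ^ 2)
        have h6 : 1 ≤ Real.pi / 2 := by linarith [Real.pi_gt_three]
        have h7 : v / s ≤ Real.pi / 2 * (v / s) ^ 2 + 1 := by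
          nlinarith [sq_nonneg (v / s), sq_nonneg (v / s - 1)]
        rw [h4]
        calc v = s * (v / s) := by field_simp
          _ ≤ _ := mul_le_mul_of_nonneg_left (h7.trans h5) hs.le
      have h8 : Real.exp (-(Real.pi / s ^ 2 * v ^ 2)) * Real.exp (Real.pi / c ^ 2 * v ^ 2)
          = Real.exp (-(Real.pi / c ^ 2 * v ^ 2)) := by
        rw [← Real.exp_add]
        congr 1
        rw [hc2]
        field_simp
        ring
      calc K y * ‖φ x - φ y‖ ≤ K y * (C * v) := mul_le_mul_of_nonneg_left h2 (hK0 y)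
        _ ≤ K y * (C * (s * Real.exp (Real.pi / c ^ 2 * v ^ 2))) :=
            mul_le_mul_of_nonneg_left (mul_le_mul_of_nonneg_left h3 hC0) (hK0 y)
        _ = C * s * (s ^ d)⁻¹ * (Real.exp (-(Real.pi / s ^ 2 * v ^ 2))
              * Real.exp (Real.pi / c ^ 2 * v ^ 2)) := by
            simp only [hK]
            ring
        _ = _ := by rw [h8]
    refine (norm_integral_le_of_norm_le ((intg_gau' hc0 x).const_mul _)
      (Eventually.of_forall h1)).trans ?_
    rw [integral_const_mul, int_gau' hc0, ← hd]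
    have h9 : c ^ d ≤ (2 * s) ^ d := by
      apply pow_le_pow_left₀ hc0.le
      apply mul_le_mul_of_nonneg_right _ hs.le
      rw [Real.sqrt_le_left (by norm_num)]
      norm_num
    calc C * s * (s ^ d)⁻¹ * c ^ d ≤ C * s * (s ^ d)⁻¹ * (2 * s) ^ d :=
          mul_le_mul_of_nonneg_left h9 (by positivity)
      _ = C * s * 2 ^ d := by
          rw [mul_pow]
          field_simp
  rw [e4, e6]
  exact (norm_add_le _ _).trans (add_le_add herr hR)

end Pool.Agent.SX
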