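import Pool.Agent.Lib_helper71.SX.PLH

/-!
# MP_a65497_an: the basic estimate on a half line
-/

set_option autoImplicit false

namespace Pool.Agent.SX

open Complex Filter Topology Set MeasureTheory

theorem pow_le_exp (m : ℕ) {u c : ℝ} (hu : 0 ≤ u) (hc : 0 < c) :
    u ^ m ≤ m.factorial * c ^ m * Real.exp (u / c) := by
  have h := Real.pow_div_factorial_le_exp (u / c) (by positivity) m
  rw [div_pow, div_div, div_le_iff₀ (by positivity)] at h
  linarith

theorem int_exp_Ioi (R : ℝ) {c : ℝ} (hc : 0 < c) :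
    IntegrableOn (fun x : ℝ => Real.exp (-(x / c))) (Ioi R) := by
  have h := integrableOn_exp_mul_Ioi (a := -(1 / c)) (by
    have : 0 < 1 / c := by positivity
    linarith) R
  refine h.congr_fun (fun x _ => ?_) measurableSet_Ioi
  show Real.exp (-(1 / c) * x) = Real.exp (-(x / c))
  congr 1
  ring

theorem int_exp_Ioi_le {R : ℝ} (hR : 0 ≤ R) {c : ℝ} (hc : 0 < c) :
    ∫ x in Ioi R, Real.exp (-(x / c)) ≤ c := by
  have h := integral_exp_mul_Ioi (a := -(1 / c)) (by
    have : 0 < 1 / c := by positivity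
    linarith) R
  have e : ∫ x in Ioi R, Real.exp (-(x / c)) = ∫ x in Ioi R, Real.exp (-(1 / c) * x) := by
    apply setIntegral_congr_fun measurableSet_Ioi
    intro x _
    show Real.exp (-(x / c)) = Real.exp (-(1 / c) * x)
    congr 1
    ring
  rw [e, h]
  have h2 : Real.exp (-(1 / c) * R) ≤ 1 := by
    rw [Real.exp_le_one_iff]
    have : 0 ≤ 1 / c * R := by positivity
    linarith
  rw [div_neg, div_div_eq_mul_div, div_one]
  have := mul_le_mul_of_nonneg_right h2 hc.le
  linarith

/-- the minimum of the two bounds -/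
theorem min_bd {T T' X x : ℝ} (hT : 0 ≤ T) (hT' : 0 ≤ T') (hX : 1 ≤ X) :
    min T (T' * Real.exp (-x)) ≤ (T + T' * Real.exp (-X)) * Real.exp (1 - x / X) := by
  have hX0 : 0 < X := by linarith
  rcases le_total x X with h | h
  · refine (min_le_left _ _).trans ?_
    have h1 : 1 ≤ Real.exp (1 - x / X) := by
      apply Real.one_le_exp
      have : x / X ≤ 1 := (div_le_one hX0).2 h
      linarith
    have h2 : 0 ≤ T' * Real.exp (-X) := by positivity
    calc T ≤ T + T' * Real.exp (-X) := by linarith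
      _ ≤ _ := le_mul_of_one_le_right (by positivity) h1
  · refine (min_le_right _ _).trans ?_
    have h1 : Real.exp (-x) ≤ Real.exp (-X) * Real.exp (1 - x / X) := by
      rw [← Real.exp_add]
      apply Real.exp_le_exp.2
      have h3 : (x - X) / X ≤ x - X := div_le_self (by linarith) hX
      rw [sub_div, div_self hX0.ne'] at h3
      linarith
    calc T' * Real.exp (-x) ≤ T' * (Real.exp (-X) * Real.exp (1 - x / X)) :=
          mul_le_mul_of_nonneg_left h1 hT'
      _ = (T' * Real.exp (-X)) * Real.exp (1 - x / X) := by ring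
      _ ≤ _ := by
          apply mul_le_mul_of_nonneg_right _ (Real.exp_pos _).le
          linarith

theorem hs {G K : ℂ → ℂ} {R P h T T' T₀ Λ κ X η : ℝ} {m : ℕ} (hR : 0 ≤ R) (hP : 0 ≤ P)
    (hh : 0 < h) (hPh : P = 2 * Real.pi * h) (hT : 0 ≤ T) (hT' : 0 ≤ T') (hT₀ : 0 ≤ T₀)
    (hΛ : 0 ≤ Λ) (hX : 1 ≤ X) (hhX : h ≤ X) (hη : |η| = h)
    (hG : ∀ ζ : ℂ, R ≤ ζ.re → DifferentiableAt ℂ G ζ) (hK : Differentiable ℂ K)
    (hb : ∀ ζ : ℂ, R ≤ ζ.re → |ζ.im| = h → ‖G ζ‖ ≤ T * Real.exp (-(P * ζ.re)))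
    (hc : ∀ ζ : ℂ, R ≤ ζ.re → |ζ.im| ≤ h → ‖G ζ‖ ≤ T' * Real.exp (-((P + 1) * ζ.re)))
    (hd : ∀ ζ : ℂ, ζ.re = R → |ζ.im| ≤ h → ‖G ζ‖ ≤ T₀ * Real.exp (-(R * (2 * Real.pi * |ζ.im|)))
      * (Real.exp (2 * Real.pi * |ζ.im| * (R + κ))
        + Real.exp (-((P - 2 * Real.pi * |ζ.im|) * (R + κ))) * Λ))
    (hKb : ∀ ζ : ℂ, R ≤ ζ.re → ζ.im ∈ uIcc 0 η →
      ‖K ζ‖ ≤ ‖ζ‖ ^ m * Real.exp (P * ζ.re - κ * (2 * Real.pi * |ζ.im|))) :
    ‖∫ x in Ioi R, G (x : ℂ) * K (x : ℂ)‖
      ≤ Real.exp (-(κ * P)) * ((T + T' * Real.exp (-X)) *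
          (Real.exp 2 * (m.factorial * (2 * X) ^ m * (2 * X))))
        + h * (T₀ * (R + h) ^ m * (Real.exp (P * R) + Real.exp (-(κ * P)) * Λ)) := by
  have hπ := Real.pi_pos
  have hX0 : 0 < X := by linarith
  have him : ∀ y : ℝ, y ∈ uIcc 0 η → |y| ≤ h := by
    intro y hy
    rw [← hη]
    rcases le_total 0 η with h0 | h0
    · rw [uIcc_of_le h0] at hy
      rw [abs_of_nonneg hy.1, abs_of_nonneg h0]
      exact hy.2
    · rw [uIcc_of_ge h0] at hy
      rw [abs_of_nonpos hy.2, abs_of_nonpos h0]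
      linarith [hy.1]
  have hnorm : ∀ x y : ℝ, 0 ≤ x → |y| ≤ h → ‖(x : ℂ) + y * I‖ ≤ x + h := by
    intro x y hx hy
    calc ‖(x : ℂ) + y * I‖ ≤ ‖(x : ℂ)‖ + ‖(y : ℂ) * I‖ := norm_add_le _ _
      _ = x + |y| := by
          rw [norm_mul, Complex.norm_I, mul_one, Complex.norm_real, Complex.norm_real,
            Real.norm_of_nonneg hx, Real.norm_eq_abs]
      _ ≤ _ := by linarith
  have re1 : ∀ x y : ℝ, ((x : ℂ) + y * I).re = x := by intro x y; simp
  have im1 : ∀ x y : ℝ, ((x : ℂ) + y * I).im = y := by intro x y; simp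
  -- the crude bound
  have hcr : ∀ x y : ℝ, R ≤ x → y ∈ uIcc 0 η → ‖G (x + y * I) * K (x + y * I)‖
      ≤ T' * (m.factorial * 2 ^ m * Real.exp (h / 2)) * Real.exp (κ * 0 + |κ| * P) *
        Real.exp (-(x / 2)) := by
    intro x y hx hy
    have hy' := him y hy
    have h1 := hc (x + y * I) (by rw [re1]; exact hx) (by rw [im1]; exact hy')
    have h2 := hKb (x + y * I) (by rw [re1]; exact hx) (by rw [im1]; exact hy)
    rw [re1] at h1
    rw [re1, im1] at h2
    have h3 : ‖(x : ℂ) + y * I‖ ^ m ≤ (x + h) ^ m :=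
      pow_le_pow_left₀ (norm_nonneg _) (hnorm x y (hR.trans hx) hy') m
    have h4 := pow_le_exp m (u := x + h) (c := 2) (by linarith) two_pos
    have h5 : P * x - κ * (2 * Real.pi * |y|) ≤ P * x + |κ| * P := by
      have h6 : 2 * Real.pi * |y| ≤ P := by
        rw [hPh]
        exact mul_le_mul_of_nonneg_left hy' (by positivity)
      have h7 : -(κ * (2 * Real.pi * |y|)) ≤ |κ| * (2 * Real.pi * |y|) := by
        have h8 : 0 ≤ 2 * Real.pi * |y| := by positivity
        have := mul_le_mul_of_nonneg_right (neg_abs_le κ) h8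
        linarith
      have h9 := mul_le_mul_of_nonneg_left h6 (abs_nonneg κ)
      linarith
    rw [norm_mul]
    calc ‖G (x + y * I)‖ * ‖K (x + y * I)‖
        ≤ (T' * Real.exp (-((P + 1) * x))) * ((m.factorial * 2 ^ m * Real.exp ((x + h) / 2))
          * Real.exp (P * x + |κ| * P)) := by
          apply mul_le_mul h1 _ (norm_nonneg _) (by positivity)
          exact h2.trans (mul_le_mul (h3.trans h4) (Real.exp_le_exp.2 h5) (Real.exp_pos _).le
            (by positivity))
      _ = T' * (m.factorial * 2 ^ m) * (Real.exp (-((P + 1) * x)) * Real.exp ((x + h) / 2)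
          * Real.exp (P * x + |κ| * P)) := by ring
      _ = T' * (m.factorial * 2 ^ m) * (Real.exp (h / 2) * Real.exp (κ * 0 + |κ| * P)
          * Real.exp (-(x / 2))) := by
          congr 1
          rw [← Real.exp_add, ← Real.exp_add, ← Real.exp_add, ← Real.exp_add]
          congr 1
          ring
      _ = _ := by ring
  set Cc : ℝ := T' * (m.factorial * 2 ^ m * Real.exp (h / 2)) * Real.exp (κ * 0 + |κ| * P) with hCc
  have hmem0 : (0 : ℝ) ∈ uIcc 0 η := left_mem_uIcc
  have hmemη : η ∈ uIcc 0 η := right_mem_uIcc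
  -- integrability on the real line
  have hcont : ContinuousOn (fun x : ℝ => G (x : ℂ) * K (x : ℂ)) (Ici R) := by
    intro x hx
    have h1 : ContinuousAt (fun z => G z * K z) (x : ℂ) :=
      ((hG (x : ℂ) (by simpa using hx)).mul (hK _)).continuousAt
    exact (ContinuousAt.comp (x := x) (f := fun x : ℝ => (x : ℂ)) (g := fun z => G z * K z)
      h1 Complex.continuous_ofReal.continuousAt).continuousWithinAt
  have hint : IntegrableOn (fun x : ℝ => G (x : ℂ) * K (x : ℂ)) (Ioi R) := by
    refine Integrable.mono' ((int_exp_Ioi R two_pos).const_mul Cc) ?_ ?_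
    · exact (hcont.mono Ioi_subset_Ici_self).aestronglyMeasurable measurableSet_Ioi
    · refine (ae_restrict_iff' measurableSet_Ioi).2 (Eventually.of_forall fun x hx => ?_)
      have := hcr x 0 (le_of_lt hx) hmem0
      simpa using this
  set A : ℝ := Real.exp (-(κ * P)) * ((T + T' * Real.exp (-X)) *
          (Real.exp 2 * (m.factorial * (2 * X) ^ m))) with hA
  have hA0 : 0 ≤ A := by positivity
  have hfin := shift (N := fun z => G z * K z) (R := R) (η := η)
    (M := T₀ * (R + h) ^ m * (Real.exp (P * R) + Real.exp (-(κ * P)) * Λ))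
    (w := fun x => A * Real.exp (-(x / (2 * X)))) (b := fun x => Cc * Real.exp (-(x / 2)))
    (fun ζ hζ => (hG ζ hζ).mul (hK ζ)) hint ((int_exp_Ioi R (by positivity)).const_mul A)
    ?_ ?_ hcr ?_
  · refine hfin.trans ?_
    rw [hη]
    apply add_le_add _ le_rfl
    rw [integral_const_mul]
    calc A * ∫ x in Ioi R, Real.exp (-(x / (2 * X))) ≤ A * (2 * X) :=
          mul_le_mul_of_nonneg_left (int_exp_Ioi_le hR (by positivity)) hA0
      _ = _ := by rw [hA]; ring
  · intro x hx
    show ‖G (x + η * I) * K (x + η * I)‖ ≤ A * Real.exp (-(x / (2 * X)))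
    have hx0 : 0 ≤ x := hR.trans hx.le
    have h1 := hb (x + η * I) (by rw [re1]; exact hx.le) (by rw [im1]; exact hη)
    have h1' := hc (x + η * I) (by rw [re1]; exact hx.le) (by rw [im1]; exact hη.le)
    have h2 := hKb (x + η * I) (by rw [re1]; exact hx.le) (by rw [im1]; exact hmemη)
    rw [re1] at h1 h1'
    rw [re1, im1, hη, ← hPh] at h2
    have h3 : ‖G (x + η * I)‖ ≤ min T (T' * Real.exp (-x)) * Real.exp (-(P * x)) := by
      rw [min_mul_of_nonneg _ _ (Real.exp_pos _).le]
      apply le_min h1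
      refine h1'.trans (le_of_eq ?_)
      rw [mul_assoc, ← Real.exp_add]
      congr 2
      ring
    have h4 := min_bd (x := x) hT hT' hX
    have h5 : ‖(x : ℂ) + η * I‖ ^ m ≤ m.factorial * (2 * X) ^ m * Real.exp ((x + h) / (2 * X)) :=
      (pow_le_pow_left₀ (norm_nonneg _) (hnorm x η hx0 hη.le) m).trans
        (pow_le_exp m (by linarith) (by positivity))
    have h6 : Real.exp ((x + h) / (2 * X)) ≤ Real.exp (1 / 2 + x / (2 * X)) := by
      apply Real.exp_le_exp.2
      rw [add_div]
      have : h / (2 * X) ≤ 1 / 2 := by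
        rw [div_le_iff₀ (by positivity)]
        linarith
      linarith
    rw [norm_mul]
    calc ‖G (x + η * I)‖ * ‖K (x + η * I)‖
        ≤ (((T + T' * Real.exp (-X)) * Real.exp (1 - x / X)) * Real.exp (-(P * x)))
          * ((m.factorial * (2 * X) ^ m * Real.exp (1 / 2 + x / (2 * X)))
            * Real.exp (P * x - κ * P)) := by
          apply mul_le_mul (h3.trans (mul_le_mul_of_nonneg_right h4 (Real.exp_pos _).le)) _
            (norm_nonneg _) (by positivity)
          refine h2.trans (mul_le_mul_of_nonneg_right (h5.trans ?_) (Real.exp_pos _).le)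
          exact mul_le_mul_of_nonneg_left h6 (by positivity)
      _ = (T + T' * Real.exp (-X)) * (m.factorial * (2 * X) ^ m) * (Real.exp (1 - x / X)
          * Real.exp (-(P * x)) * Real.exp (1 / 2 + x / (2 * X)) * Real.exp (P * x - κ * P)) := by
          ring
      _ ≤ (T + T' * Real.exp (-X)) * (m.factorial * (2 * X) ^ m) * (Real.exp (-(κ * P))
          * Real.exp 2 * Real.exp (-(x / (2 * X)))) := by
          apply mul_le_mul_of_nonneg_left _ (by positivity)
          rw [← Real.exp_add, ← Real.exp_add, ← Real.exp_add, ← Real.exp_add, ← Real.exp_add]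
          apply Real.exp_le_exp.2
          have h7 : x / X = 2 * (x / (2 * X)) := by field_simp
          rw [h7]
          linarith
      _ = _ := by rw [hA]; ring
  · rw [show (0 : ℝ) = Cc * 0 by ring]
    apply Tendsto.const_mul
    apply Real.tendsto_exp_neg_atTop_nhds_zero.comp
    exact tendsto_id.atTop_div_const two_pos
  · intro y hy
    show ‖G (R + y * I) * K (R + y * I)‖ ≤ _
    have hy' := him y hy
    have h1 := hd (R + y * I) (by rw [re1]) (by rw [im1]; exact hy')
    have h2 := hKb (R + y * I) (by rw [re1]) (by rw [im1]; exact hy)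
    rw [im1] at h1
    rw [re1, im1] at h2
    have h3 : ‖(R : ℂ) + y * I‖ ^ m ≤ (R + h) ^ m :=
      pow_le_pow_left₀ (norm_nonneg _) (hnorm R y hR hy') m
    set t : ℝ := 2 * Real.pi * |y| with ht
    rw [norm_mul]
    calc ‖G (R + y * I)‖ * ‖K (R + y * I)‖
        ≤ (T₀ * Real.exp (-(R * t)) * (Real.exp (t * (R + κ))
          + Real.exp (-((P - t) * (R + κ))) * Λ)) * ((R + h) ^ m * Real.exp (P * R - κ * t)) := by
          apply mul_le_mul h1 _ (norm_nonneg _) (by positivity)
          exact h2.trans (mul_le_mul_of_nonneg_right h3 (Real.exp_pos _).le)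
      _ = T₀ * (R + h) ^ m * (Real.exp (-(R * t)) * Real.exp (t * (R + κ))
          * Real.exp (P * R - κ * t) + Real.exp (-(R * t)) * Real.exp (-((P - t) * (R + κ)))
          * Real.exp (P * R - κ * t) * Λ) := by ring
      _ = _ := by
          congr 1
          rw [← Real.exp_add, ← Real.exp_add, ← Real.exp_add, ← Real.exp_add]
          congr 2
          · ring
          · congr 1
            ring

end Pool.Agent.SX
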