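import Pool.Agent.Lib_helper71.SX.Pol

/-!
# MP_a65497_an: the Fresnel identity
-/

set_option autoImplicit false

namespace Pool.Agent.SX

open MeasureTheory Complex Filter Topology Set
open Pool.Agent.GU
open scoped FourierTransform

variable {V : Type*} [NormedAddCommGroup V] [InnerProductSpace ℝ V] [FiniteDimensional ℝ V]
  [MeasurableSpace V] [BorelSpace V]

theorem pars {φ f : V → ℂ} (hφ : Integrable φ) (hf : Integrable f) :
    ∫ w, 𝓕 φ w * f w = ∫ w, φ w * 𝓕 f w := by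
  simpa using! (VectorFourier.integral_fourierIntegral_smul_eq_flip (L := innerₗ V)
      Real.continuous_fourierChar continuous_inner hφ hf)

/-- the multiplier -/
noncomputable def qq (d : ℕ) (ρ : ℂ) : ℂ := (1 / I) ^ ((d : ℂ) / 2) * cexp (Real.pi * I * ρ ^ 2)

theorem qq_diff (d : ℕ) : Differentiable ℂ (qq d) := by
  unfold qq
  fun_prop

theorem fresnel {f : V → ℂ} (hf : Integrable f) (hf' : Integrable (𝓕 f)) (x₀ : V) :
    ∫ w : V, (1 / I : ℂ) ^ ((Module.finrank ℝ V : ℂ) / 2) *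
        cexp (Real.pi * I * ‖x₀ - w‖ ^ 2) * f w
      = ∫ w : V, cexp (-(Real.pi * I) * ‖w‖ ^ 2 + 2 * Real.pi * I * (inner ℝ x₀ w : ℝ)) * 𝓕 f w := by
  have hπ := Real.pi_pos
  set b : ℝ → ℂ := fun ε => Real.pi * (ε + I) with hb
  have hbre : ∀ ε : ℝ, (b ε).re = Real.pi * ε := by
    intro ε
    simp [hb]
  have hbim : ∀ ε : ℝ, (b ε).im = Real.pi := by
    intro ε
    simp [hb]
  have hb0 : ∀ ε : ℝ, b ε ≠ 0 := by
    intro ε h0
    have := hbim ε
    rw [h0, Complex.zero_im] at this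
    exact hπ.ne this
  have hbc : Continuous b := by fun_prop
  have hbinv : ∀ ε : ℝ, 0 < ε → 0 ≤ ((b ε)⁻¹).re := by
    intro ε hε
    rw [Complex.inv_re, hbre]
    exact div_nonneg (by positivity) (Complex.normSq_nonneg _)
  have hid : ∀ ε : ℝ, 0 < ε →
      ∫ w : V, ((Real.pi / b ε) ^ ((Module.finrank ℝ V : ℂ) / 2)
        * cexp (-(Real.pi : ℂ) ^ 2 * ‖x₀ - w‖ ^ 2 / b ε)) * f w
      = ∫ w : V, cexp (-b ε * ‖w‖ ^ 2 + 2 * Real.pi * I * (inner ℝ x₀ w : ℝ)) * 𝓕 f w := by
    intro ε hε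
    have hre : 0 < (b ε).re := by rw [hbre]; positivity
    have hint : Integrable (fun w : V =>
        cexp (-b ε * ‖w‖ ^ 2 + 2 * Real.pi * I * (inner ℝ x₀ w : ℝ))) :=
      GaussianFourier.integrable_cexp_neg_mul_sq_norm_add hre _ _
    rw [← pars hint hf]
    congr 1
    funext w
    rw [fourier_gaussian_innerProductSpace' hre]
  have t1 : Tendsto (fun ε : ℝ => ∫ w : V, ((Real.pi / b ε) ^ ((Module.finrank ℝ V : ℂ) / 2)
        * cexp (-(Real.pi : ℂ) ^ 2 * ‖x₀ - w‖ ^ 2 / b ε)) * f w) (𝓝[>] 0)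
      (𝓝 (∫ w : V, (1 / I : ℂ) ^ ((Module.finrank ℝ V : ℂ) / 2) *
        cexp (Real.pi * I * ‖x₀ - w‖ ^ 2) * f w)) := by
    apply tendsto_integral_filter_of_dominated_convergence (fun w => ‖f w‖)
    · refine Eventually.of_forall fun ε => ?_
      apply AEStronglyMeasurable.mul _ hf.aestronglyMeasurable
      exact (by fun_prop : Continuous fun w : V => (Real.pi / b ε) ^ ((Module.finrank ℝ V : ℂ) / 2)
        * cexp (-(Real.pi : ℂ) ^ 2 * ‖x₀ - w‖ ^ 2 / b ε)).aestronglyMeasurable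
    · filter_upwards [self_mem_nhdsWithin] with ε hε
      have hε0 : 0 < ε := hε
      refine Eventually.of_forall fun w => ?_
      rw [norm_mul, norm_mul]
      have h1 : ‖(Real.pi / b ε) ^ ((Module.finrank ℝ V : ℂ) / 2)‖ ≤ 1 := by
        have e1 : ((Module.finrank ℝ V : ℂ) / 2) = (((Module.finrank ℝ V : ℝ) / 2 : ℝ) : ℂ) := by
          push_cast; ring
        rw [e1, Complex.norm_cpow_real]
        apply Real.rpow_le_one (norm_nonneg _) _ (by positivity)
        rw [norm_div, Complex.norm_real, Real.norm_of_nonneg hπ.le,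
          div_le_one (norm_pos_iff.2 (hb0 ε))]
        have := Complex.abs_im_le_norm (b ε)
        rwa [hbim, abs_of_pos hπ] at this
      have h2 : ‖cexp (-(Real.pi : ℂ) ^ 2 * ‖x₀ - w‖ ^ 2 / b ε)‖ ≤ 1 := by
        rw [Complex.norm_exp, Real.exp_le_one_iff]
        have e2 : (-(Real.pi : ℂ) ^ 2 * ‖x₀ - w‖ ^ 2 / b ε)
            = ((-(Real.pi ^ 2 * ‖x₀ - w‖ ^ 2) : ℝ) : ℂ) * (b ε)⁻¹ := by
          push_cast
          rw [div_eq_mul_inv]
          ring
        rw [e2, Complex.re_ofReal_mul]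
        have h3 := hbinv ε hε0
        have h4 : 0 ≤ Real.pi ^ 2 * ‖x₀ - w‖ ^ 2 := by positivity
        nlinarith
      calc _ ≤ 1 * 1 * ‖f w‖ := by gcongr
        _ = ‖f w‖ := by ring
    · exact hf.norm
    · refine Eventually.of_forall fun w => ?_
      apply Tendsto.mul_const
      have hb00 : b 0 = Real.pi * I := by simp [hb]
      have c1 : Tendsto (fun ε : ℝ => (Real.pi / b ε) ^ ((Module.finrank ℝ V : ℂ) / 2)) (𝓝[>] 0)
          (𝓝 ((1 / I : ℂ) ^ ((Module.finrank ℝ V : ℂ) / 2))) := by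
        have c2 : Tendsto (fun ε : ℝ => (Real.pi : ℂ) / b ε) (𝓝[>] 0) (𝓝 (1 / I)) := by
          have c3 : ContinuousAt (fun ε : ℝ => (Real.pi : ℂ) / b ε) 0 :=
            continuousAt_const.div hbc.continuousAt (hb0 0)
          have c4 := c3.tendsto.mono_left (nhdsWithin_le_nhds (s := Ioi (0 : ℝ)))
          rw [hb00] at c4
          have e3 : (Real.pi : ℂ) / (Real.pi * I) = 1 / I := by
            have : (Real.pi : ℂ) ≠ 0 := by exact_mod_cast hπ.ne'
            field_simp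
          rwa [e3] at c4
        have c5 : ContinuousAt (fun z : ℂ => z ^ ((Module.finrank ℝ V : ℂ) / 2)) (1 / I) := by
          apply continuousAt_cpow_const
          rw [Complex.mem_slitPlane_iff]
          right
          simp
        exact c5.tendsto.comp c2
      have c6 : Tendsto (fun ε : ℝ => cexp (-(Real.pi : ℂ) ^ 2 * ‖x₀ - w‖ ^ 2 / b ε)) (𝓝[>] 0)
          (𝓝 (cexp (Real.pi * I * ‖x₀ - w‖ ^ 2))) := by
        apply (Complex.continuous_exp.tendsto _).comp
        have c3 : ContinuousAt (fun ε : ℝ => -(Real.pi : ℂ) ^ 2 * ‖x₀ - w‖ ^ 2 / b ε) 0 :=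
          continuousAt_const.div hbc.continuousAt (hb0 0)
        have c4 := c3.tendsto.mono_left (nhdsWithin_le_nhds (s := Ioi (0 : ℝ)))
        rw [hb00] at c4
        have e3 : -(Real.pi : ℂ) ^ 2 * ‖x₀ - w‖ ^ 2 / (Real.pi * I)
            = Real.pi * I * ‖x₀ - w‖ ^ 2 := by
          have : (Real.pi : ℂ) ≠ 0 := by exact_mod_cast hπ.ne'
          field_simp
          rw [Complex.I_sq]
          ring
        rwa [e3] at c4
      exact c1.mul c6
  have t2 : Tendsto (fun ε : ℝ => ∫ w : V,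
        cexp (-b ε * ‖w‖ ^ 2 + 2 * Real.pi * I * (inner ℝ x₀ w : ℝ)) * 𝓕 f w) (𝓝[>] 0)
      (𝓝 (∫ w : V, cexp (-(Real.pi * I) * ‖w‖ ^ 2 + 2 * Real.pi * I * (inner ℝ x₀ w : ℝ))
        * 𝓕 f w)) := by
    apply tendsto_integral_filter_of_dominated_convergence (fun w => ‖𝓕 f w‖)
    · refine Eventually.of_forall fun ε => ?_
      apply AEStronglyMeasurable.mul _ hf'.aestronglyMeasurable
      exact (by fun_prop : Continuous fun w : V =>
        cexp (-b ε * ‖w‖ ^ 2 + 2 * Real.pi * I * (inner ℝ x₀ w : ℝ))).aestronglyMeasurable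
    · filter_upwards [self_mem_nhdsWithin] with ε hε
      have hε0 : 0 < ε := hε
      refine Eventually.of_forall fun w => ?_
      rw [norm_mul]
      apply mul_le_of_le_one_left (norm_nonneg _)
      rw [Complex.norm_exp, Real.exp_le_one_iff]
      have e2 : (-b ε * ‖w‖ ^ 2 + 2 * Real.pi * I * (inner ℝ x₀ w : ℝ)).re
          = -(Real.pi * ε * ‖w‖ ^ 2) := by
        have e3 : (-b ε * ‖w‖ ^ 2 + 2 * Real.pi * I * (inner ℝ x₀ w : ℝ))
            = ((-(Real.pi * ε * ‖w‖ ^ 2) : ℝ) : ℂ)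
              + ((-(Real.pi * ‖w‖ ^ 2) + 2 * Real.pi * inner ℝ x₀ w : ℝ) : ℂ) * I := by
          simp only [hb]
          push_cast
          ring
        rw [e3]
        simp only [Complex.add_re, Complex.ofReal_re, Complex.re_ofReal_mul, Complex.I_re]
        ring
      rw [e2]
      have : 0 ≤ Real.pi * ε * ‖w‖ ^ 2 := by positivity
      linarith
    · exact hf'.norm
    · refine Eventually.of_forall fun w => ?_
      apply Tendsto.mul_const
      have c3 : Continuous fun ε : ℝ =>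
          cexp (-b ε * ‖w‖ ^ 2 + 2 * Real.pi * I * (inner ℝ x₀ w : ℝ)) := by fun_prop
      have c4 := (c3.tendsto 0).mono_left (nhdsWithin_le_nhds (s := Ioi (0 : ℝ)))
      have hb00 : b 0 = Real.pi * I := by simp [hb]
      rwa [hb00] at c4
  refine tendsto_nhds_unique_of_eventuallyEq t1 t2 ?_
  filter_upwards [self_mem_nhdsWithin] with ε hε
  exact hid ε hε

theorem iden {f : V → ℂ} (hf : SM f) (hf' : SM (𝓕 f)) (hev : ∀ x, f (-x) = f x) {e : V}
    (he : ‖e‖ = 1) (ρ : ℂ) :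
    HF (fun x => ch (-1) x * 𝓕 f x) e ρ
      = qq (Module.finrank ℝ V) ρ * HF (fun x => ch 1 x * f x) e ρ := by
  have hπ := Real.pi_pos
  -- real parameter
  have hreal : ∀ t : ℝ, HF (fun x => ch (-1) x * 𝓕 f x) e (t : ℂ)
      = qq (Module.finrank ℝ V) t * HF (fun x => ch 1 x * f x) e t := by
    intro t
    have h1 := fresnel hf.intg hf'.intg (-(t • e))
    have e1 : HF (fun x => ch (-1) x * 𝓕 f x) e (t : ℂ) = ∫ w : V,
        cexp (-(Real.pi * I) * ‖w‖ ^ 2 + 2 * Real.pi * I * (inner ℝ (-(t • e)) w : ℝ)) * 𝓕 f w := by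
      rw [HF]
      congr 1
      funext w
      rw [← mul_assoc, ch, ← Complex.exp_add, inner_neg_left, inner_smul_left,
        real_inner_comm w e]
      congr 2
      simp only [conj_trivial]
      push_cast
      ring
    rw [e1, ← h1]
    have e2 : HF (fun x => ch 1 x * f x) e (t : ℂ)
        = ∫ w : V, cexp (-(2 * Real.pi * (inner ℝ (-w) e) : ℝ) * I * t) * (ch 1 (-w) * f (-w)) :=
      (integral_neg_eq_self (μ := (volume : Measure V)) (fun w : V =>
        cexp (-(2 * Real.pi * (inner ℝ w e) : ℝ) * I * t) * (ch 1 w * f w))).symm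
    rw [e2, qq, ← integral_const_mul]
    congr 1
    funext w
    rw [hev w, ch, norm_neg, inner_neg_left]
    have e3 : ‖-(t • e) - w‖ ^ 2 = t ^ 2 + 2 * (t * inner ℝ w e) + ‖w‖ ^ 2 := by
      have : -(t • e) - w = -(t • e + w) := by abel
      rw [this, norm_neg, norm_add_sq_real, norm_smul, he, mul_one, inner_smul_left,
        real_inner_comm w e, Real.norm_eq_abs, sq_abs]
      simp only [conj_trivial]
    have e4 : ((‖-(t • e) - w‖ : ℝ) : ℂ) ^ 2 = ((t ^ 2 + 2 * (t * inner ℝ w e) + ‖w‖ ^ 2 : ℝ) : ℂ) := by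
      rw [← e3]
      push_cast
      ring
    rw [e4]
    have e5 : cexp (Real.pi * I * ((t ^ 2 + 2 * (t * inner ℝ w e) + ‖w‖ ^ 2 : ℝ) : ℂ))
        = cexp (Real.pi * I * (t : ℂ) ^ 2) * (cexp (-(2 * Real.pi * (-(inner ℝ w e)) : ℝ) * I * t)
          * cexp (((Real.pi * 1 * ‖w‖ ^ 2 : ℝ) : ℂ) * I)) := by
      rw [← Complex.exp_add, ← Complex.exp_add]
      congr 1
      push_cast
      ring
    rw [e5]
    ring
  -- the identity theorem
  have d1 : Differentiable ℂ (HF (fun x => ch (-1) x * 𝓕 f x) e) := (hf'.ch (-1)).diff he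
  have d2 : Differentiable ℂ fun ρ => qq (Module.finrank ℝ V) ρ * HF (fun x => ch 1 x * f x) e ρ :=
    (qq_diff _).mul ((hf.ch 1).diff he)
  have a1 : AnalyticOnNhd ℂ (HF (fun x => ch (-1) x * 𝓕 f x) e) Set.univ :=
    fun z _ => d1.analyticAt z
  have a2 : AnalyticOnNhd ℂ (fun ρ => qq (Module.finrank ℝ V) ρ * HF (fun x => ch 1 x * f x) e ρ)
      Set.univ := fun z _ => d2.analyticAt z
  have hfreq : ∃ᶠ z in 𝓝[≠] (0 : ℂ), HF (fun x => ch (-1) x * 𝓕 f x) e z
      = qq (Module.finrank ℝ V) z * HF (fun x => ch 1 x * f x) e z := by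
    have h5 : Tendsto (fun s : ℝ => (s : ℂ)) (𝓝[>] 0) (𝓝[≠] (0 : ℂ)) := by
      apply tendsto_nhdsWithin_of_tendsto_nhds_of_eventually_within
      · have := (Complex.continuous_ofReal.tendsto 0).mono_left
          (nhdsWithin_le_nhds (s := Ioi (0 : ℝ)))
        simpa using this
      · filter_upwards [self_mem_nhdsWithin] with s hs
        have hs0 : 0 < s := hs
        intro h6
        have h7 : (s : ℂ) = 0 := h6
        have h8 : s = 0 := by exact_mod_cast h7
        exact hs0.ne' h8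
    apply h5.frequently
    exact (Eventually.of_forall fun s : ℝ => hreal s).frequently
  exact a1.eqOn_of_preconnected_of_frequently_eq a2 isPreconnected_univ (Set.mem_univ (0 : ℂ))
    hfreq (Set.mem_univ ρ)

end Pool.Agent.SX
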