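import Pool.Agent.Lib_helper71.GU.Quo

/-!
# MP_a65497_an: exponential weights
-/

set_option autoImplicit false

namespace Pool.Agent.SX

open MeasureTheory Complex Filter Topology
open Pool.Agent.GU
open scoped FourierTransform SchwartzMap

variable {V : Type*} [NormedAddCommGroup V] [InnerProductSpace ℝ V] [FiniteDimensional ℝ V]
  [MeasurableSpace V] [BorelSpace V]

/-- measurable and smaller than all exponentials -/
structure SM (g : V → ℂ) : Prop where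
  meas : AEStronglyMeasurable g volume
  se : SE g

theorem SM.bd {g : V → ℂ} (hg : SM g) (t : ℝ) :
    ∃ C : ℝ, 0 ≤ C ∧ ∀ x : V, ‖g x‖ * Real.exp (t * ‖x‖) ≤ C * wt V x := by
  obtain ⟨C₁, hC₁0, hC₁⟩ := exp_le_wt (V := V)
  obtain ⟨C, hC⟩ := hg.se (t + 1)
  have hC0 : 0 ≤ C := by
    have h := (norm_nonneg _).trans (hC 0)
    exact nonneg_of_mul_nonneg_left h (Real.exp_pos _)
  refine ⟨C * C₁, by positivity, fun x => ?_⟩
  calc ‖g x‖ * Real.exp (t * ‖x‖) ≤ (C * Real.exp (-((t + 1) * ‖x‖))) * Real.exp (t * ‖x‖) :=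
        mul_le_mul_of_nonneg_right (hC x) (Real.exp_pos _).le
    _ = C * Real.exp (-‖x‖) := by
        rw [mul_assoc, ← Real.exp_add]
        congr 2
        ring
    _ ≤ C * (C₁ * wt V x) := mul_le_mul_of_nonneg_left (hC₁ x) hC0
    _ = _ := by ring

theorem SM.int {g : V → ℂ} (hg : SM g) (t : ℝ) :
    Integrable fun x : V => ‖g x‖ * Real.exp (t * ‖x‖) := by
  obtain ⟨C, -, hC⟩ := hg.bd t
  refine (wt_int.const_mul C).mono' ?_ (Eventually.of_forall fun x => ?_)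
  · exact hg.meas.norm.mul (by fun_prop : Continuous fun x : V =>
      Real.exp (t * ‖x‖)).aestronglyMeasurable
  · rw [Real.norm_of_nonneg (by positivity)]
    exact hC x

theorem SM.intg {g : V → ℂ} (hg : SM g) : Integrable g := by
  have h := hg.int 0
  simp only [zero_mul, Real.exp_zero, mul_one] at h
  exact (integrable_norm_iff hg.meas).1 h

/-- multiplication by a continuous function of exponential growth -/
theorem SM.mul {g : V → ℂ} (hg : SM g) {φ : V → ℂ} (hφ : Continuous φ) {A t : ℝ} (hA : 0 ≤ A)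
    (hb : ∀ x, ‖φ x‖ ≤ A * Real.exp (t * ‖x‖)) : SM fun x => φ x * g x := by
  refine ⟨hφ.aestronglyMeasurable.mul hg.meas, fun T => ?_⟩
  obtain ⟨C, hC⟩ := hg.se (T + t)
  have hC0 : 0 ≤ C := by
    have h := (norm_nonneg _).trans (hC 0)
    exact nonneg_of_mul_nonneg_left h (Real.exp_pos _)
  refine ⟨A * C, fun x => ?_⟩
  rw [norm_mul]
  calc ‖φ x‖ * ‖g x‖ ≤ (A * Real.exp (t * ‖x‖)) * (C * Real.exp (-((T + t) * ‖x‖))) :=
        mul_le_mul (hb x) (hC x) (norm_nonneg _) (by positivity)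
    _ = A * C * (Real.exp (t * ‖x‖) * Real.exp (-((T + t) * ‖x‖))) := by ring
    _ = _ := by
        rw [← Real.exp_add]
        congr 2
        ring

theorem SM.diff {g : V → ℂ} (hg : SM g) {e : V} (he : ‖e‖ = 1) :
    Differentiable ℂ (HF g e) := by
  intro ρ₀
  have hπ := Real.pi_pos
  set M : ℝ := |ρ₀.im| + 1 with hM
  obtain ⟨C, hC0, hC⟩ := hg.bd (2 * Real.pi * (M + 1))
  have hker : ∀ x : V, ∀ ρ ∈ Metric.ball ρ₀ 1,
      ‖cexp (-(2 * Real.pi * (inner ℝ x e) : ℝ) * I * ρ)‖ ≤ Real.exp (2 * Real.pi * M * ‖x‖) := by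
    intro x ρ hρ
    rw [Metric.mem_ball, dist_eq_norm] at hρ
    have him : |ρ.im| ≤ M := by
      have h1 := (Complex.abs_im_le_norm (ρ - ρ₀)).trans hρ.le
      rw [Complex.sub_im] at h1
      have h2 := abs_sub_abs_le_abs_sub ρ.im ρ₀.im
      linarith
    refine (kernel_le2 he x ρ).trans (Real.exp_le_exp.2 ?_)
    gcongr
  have hint : ∀ x : V, Real.exp (2 * Real.pi * M * ‖x‖) * Real.exp (2 * Real.pi * ‖x‖) * ‖g x‖
      ≤ C * wt V x := by
    intro x
    refine le_trans (le_of_eq ?_) (hC x)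
    rw [← Real.exp_add, mul_comm]
    congr 2
    ring
  have key : ∀ x : V, ∀ ρ ∈ Metric.ball ρ₀ 1,
      ‖cexp (-(2 * Real.pi * (inner ℝ x e) : ℝ) * I * ρ)
        * (-(2 * Real.pi * (inner ℝ x e) : ℝ) * I) * g x‖ ≤ C * wt V x := by
    intro x ρ hρ
    have h1 := abs_inner_le he x
    have h2 : ‖(-(2 * Real.pi * (inner ℝ x e) : ℝ) * I : ℂ)‖ ≤ Real.exp (2 * Real.pi * ‖x‖) := by
      rw [norm_mul, Complex.norm_I, mul_one, norm_neg, Complex.norm_real, Real.norm_eq_abs,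
        abs_mul, abs_of_pos (by positivity : (0 : ℝ) < 2 * Real.pi)]
      have h3 := Real.add_one_le_exp (2 * Real.pi * ‖x‖)
      have h4 : 2 * Real.pi * |inner ℝ x e| ≤ 2 * Real.pi * ‖x‖ :=
        mul_le_mul_of_nonneg_left h1 (by positivity)
      linarith
    rw [norm_mul, norm_mul]
    refine le_trans ?_ (hint x)
    have := hker x ρ hρ
    gcongr
  have hm : ∀ ρ : ℂ, AEStronglyMeasurable (fun x : V =>
      cexp (-(2 * Real.pi * (inner ℝ x e) : ℝ) * I * ρ) * g x) volume := fun ρ =>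
    (by fun_prop : Continuous fun x : V =>
      cexp (-(2 * Real.pi * (inner ℝ x e) : ℝ) * I * ρ)).aestronglyMeasurable.mul hg.meas
  have hint0 : Integrable fun x : V => cexp (-(2 * Real.pi * (inner ℝ x e) : ℝ) * I * ρ₀) * g x := by
    refine (wt_int.const_mul C).mono' (hm ρ₀) (Eventually.of_forall fun x => ?_)
    rw [norm_mul]
    refine le_trans ?_ (hint x)
    have h1 := hker x ρ₀ (Metric.mem_ball_self one_pos)
    have h2 : 1 ≤ Real.exp (2 * Real.pi * ‖x‖) := Real.one_le_exp (by positivity)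
    have h3 := Real.exp_pos (2 * Real.pi * M * ‖x‖)
    have h4 : ‖cexp (-(2 * Real.pi * (inner ℝ x e) : ℝ) * I * ρ₀)‖
        ≤ Real.exp (2 * Real.pi * M * ‖x‖) * Real.exp (2 * Real.pi * ‖x‖) := by nlinarith
    exact mul_le_mul_of_nonneg_right h4 (norm_nonneg _)
  have hres := hasDerivAt_integral_of_dominated_loc_of_deriv_le
    (μ := (volume : Measure V)) (𝕜 := ℂ) (x₀ := ρ₀) (s := Metric.ball ρ₀ 1)
    (F := fun ρ x => cexp (-(2 * Real.pi * (inner ℝ x e) : ℝ) * I * ρ) * g x)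
    (F' := fun ρ x => cexp (-(2 * Real.pi * (inner ℝ x e) : ℝ) * I * ρ)
      * (-(2 * Real.pi * (inner ℝ x e) : ℝ) * I) * g x)
    (bound := fun x => C * wt V x)
    (Metric.ball_mem_nhds ρ₀ one_pos)
    (Eventually.of_forall fun ρ => hm ρ)
    hint0
    ((by fun_prop : Continuous fun x : V => cexp (-(2 * Real.pi * (inner ℝ x e) : ℝ) * I * ρ₀)
      * (-(2 * Real.pi * (inner ℝ x e) : ℝ) * I)).aestronglyMeasurable.mul hg.meas)
    (Eventually.of_forall key)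
    (wt_int.const_mul _)
    (Eventually.of_forall fun x ρ _ => by
      have h1 : HasDerivAt (fun ρ : ℂ => (-(2 * Real.pi * (inner ℝ x e) : ℝ) * I : ℂ) * ρ)
          (-(2 * Real.pi * (inner ℝ x e) : ℝ) * I : ℂ) ρ := by
        simpa using (hasDerivAt_id ρ).const_mul (-(2 * Real.pi * (inner ℝ x e) : ℝ) * I : ℂ)
      exact (h1.cexp).mul_const _)
  exact hres.2.differentiableAt

theorem SM.HF_le {g : V → ℂ} (hg : SM g) {e : V} (he : ‖e‖ = 1) {ρ : ℂ} {t : ℝ}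
    (ht : 2 * Real.pi * |ρ.im| ≤ t) :
    ‖HF g e ρ‖ ≤ ∫ x : V, ‖g x‖ * Real.exp (t * ‖x‖) := by
  apply norm_integral_le_of_norm_le (hg.int t)
  refine Eventually.of_forall fun x => ?_
  rw [norm_mul, mul_comm]
  apply mul_le_mul_of_nonneg_left _ (norm_nonneg _)
  refine (kernel_le2 he x ρ).trans (Real.exp_le_exp.2 ?_)
  exact mul_le_mul_of_nonneg_right ht (norm_nonneg _)

/-- the weighted norm of the pair -/
noncomputable def LL (f₁ f₂ : V → ℂ) (t : ℝ) : ℝ :=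
  ∫ x : V, (‖f₁ x‖ + ‖f₂ x‖) * Real.exp (t * ‖x‖)

variable {f₁ f₂ : V → ℂ}

theorem LL_int (h1 : SM f₁) (h2 : SM f₂) (t : ℝ) :
    Integrable fun x : V => (‖f₁ x‖ + ‖f₂ x‖) * Real.exp (t * ‖x‖) := by
  simp_rw [add_mul]
  exact (h1.int t).add (h2.int t)

theorem LL_nonneg (t : ℝ) : 0 ≤ LL f₁ f₂ t := integral_nonneg fun x => by positivity

theorem LL_mono (h1 : SM f₁) (h2 : SM f₂) {s t : ℝ} (hst : s ≤ t) :
    LL f₁ f₂ s ≤ LL f₁ f₂ t := by
  apply integral_mono (LL_int h1 h2 s) (LL_int h1 h2 t)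
  intro x
  apply mul_le_mul_of_nonneg_left _ (by positivity)
  apply Real.exp_le_exp.2
  exact mul_le_mul_of_nonneg_right hst (norm_nonneg _)

theorem LL_left (h1 : SM f₁) (h2 : SM f₂) (t : ℝ) :
    (∫ x : V, ‖f₁ x‖ * Real.exp (t * ‖x‖)) ≤ LL f₁ f₂ t := by
  apply integral_mono (h1.int t) (LL_int h1 h2 t)
  intro x
  apply mul_le_mul_of_nonneg_right _ (Real.exp_pos _).le
  linarith [norm_nonneg (f₂ x)]

theorem LL_right (h1 : SM f₁) (h2 : SM f₂) (t : ℝ) :
    (∫ x : V, ‖f₂ x‖ * Real.exp (t * ‖x‖)) ≤ LL f₁ f₂ t := by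
  apply integral_mono (h2.int t) (LL_int h1 h2 t)
  intro x
  apply mul_le_mul_of_nonneg_right _ (Real.exp_pos _).le
  linarith [norm_nonneg (f₁ x)]

/-- interpolation -/
theorem LL_split (h1 : SM f₁) (h2 : SM f₂) {t P ρ : ℝ} (ht0 : 0 ≤ t) (ht : t ≤ P) :
    LL f₁ f₂ t ≤ Real.exp (t * ρ) * LL f₁ f₂ 0 + Real.exp (-((P - t) * ρ)) * LL f₁ f₂ P := by
  have hpt : ∀ x : V, (‖f₁ x‖ + ‖f₂ x‖) * Real.exp (t * ‖x‖)
      ≤ Real.exp (t * ρ) * ((‖f₁ x‖ + ‖f₂ x‖) * Real.exp (0 * ‖x‖))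
        + Real.exp (-((P - t) * ρ)) * ((‖f₁ x‖ + ‖f₂ x‖) * Real.exp (P * ‖x‖)) := by
    intro x
    have h0 : 0 ≤ ‖f₁ x‖ + ‖f₂ x‖ := by positivity
    have h3 : Real.exp (t * ‖x‖) ≤ Real.exp (t * ρ)
        + Real.exp (-((P - t) * ρ)) * Real.exp (P * ‖x‖) := by
      rw [← Real.exp_add]
      rcases le_total ‖x‖ ρ with h | h
      · have h4 : Real.exp (t * ‖x‖) ≤ Real.exp (t * ρ) :=
          Real.exp_le_exp.2 (mul_le_mul_of_nonneg_left h ht0)
        have h5 := Real.exp_pos (-((P - t) * ρ) + P * ‖x‖)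
        linarith
      · have h4 : Real.exp (t * ‖x‖) ≤ Real.exp (-((P - t) * ρ) + P * ‖x‖) := by
          apply Real.exp_le_exp.2
          have : 0 ≤ (P - t) * (‖x‖ - ρ) := mul_nonneg (by linarith) (by linarith)
          linarith
        have h5 := Real.exp_pos (t * ρ)
        linarith
    rw [zero_mul, Real.exp_zero, mul_one]
    calc (‖f₁ x‖ + ‖f₂ x‖) * Real.exp (t * ‖x‖) ≤ (‖f₁ x‖ + ‖f₂ x‖) * (Real.exp (t * ρ)
        + Real.exp (-((P - t) * ρ)) * Real.exp (P * ‖x‖)) := mul_le_mul_of_nonneg_left h3 h0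
      _ = _ := by ring
  calc LL f₁ f₂ t ≤ ∫ x : V, (Real.exp (t * ρ) * ((‖f₁ x‖ + ‖f₂ x‖) * Real.exp (0 * ‖x‖))
        + Real.exp (-((P - t) * ρ)) * ((‖f₁ x‖ + ‖f₂ x‖) * Real.exp (P * ‖x‖))) :=
        integral_mono (LL_int h1 h2 t) (((LL_int h1 h2 0).const_mul _).add
          ((LL_int h1 h2 P).const_mul _)) hpt
    _ = _ := by
        rw [integral_add ((LL_int h1 h2 0).const_mul _) ((LL_int h1 h2 P).const_mul _),
          integral_const_mul, integral_const_mul]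
        rfl

end Pool.Agent.SX
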