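import Pool.Agent.Lib_helper71.SX.Pol

/-!
# MP_a65497_an: the numbers
-/

set_option autoImplicit false

namespace Pool.Agent.SX

/-- the algebra of the recursion -/
theorem num1 {a b u q q' Z L L0 W C₁ A₁ A₂ A₃ A₄ A₅ KI T'' M E : ℝ}
    (hL : 0 ≤ L) (hL0 : 0 ≤ L0) (hW : 1 ≤ W) (ha : 0 < a) (ha1 : a ≤ 1) (hb : 1 ≤ b) (hu : 0 < u)
    (hub : u * b = a) (hq : 1 ≤ q) (hq' : q' ≤ Z) (hZ : q * b ≤ Z) (hC₁ : 0 < C₁)
    (hA₁0 : 0 ≤ A₁) (hA₂0 : 0 ≤ A₂) (hA₃0 : 0 ≤ A₃) (hA₄0 : 0 ≤ A₄) (hA₅0 : 0 ≤ A₅)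
    (h1 : A₁ * C₁ ≤ W) (h2 : A₂ ≤ W) (h3 : L0 ≤ W) (h4 : C₁ * A₃ ≤ W) (h5 : A₄ * C₁ ≤ W)
    (h6 : A₅ ≤ W) (h7 : KI ≤ W)
    (hT : T'' ≤ C₁ * (L + W))
    (hE : E = u * ((C₁ * L + T'') * A₃) + A₄ * (C₁ * (q + u * L)))
    (hM : M = A₁ * (C₁ * (L + q)) * a + A₂ * (q * L0 + E) * b)
    (hE0 : 0 ≤ E) (hM0 : 0 ≤ M)
    (hLL : L ≤ q' * L0 + (A₅ * M + KI))
    (hWa : 12 * W ^ 4 * a ≤ 1) :
    a * M ≤ Z := by
  have hW0 : 0 < W := by linarith
  have hZ1 : 1 ≤ Z := by nlinarith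
  have hqZ : q ≤ Z := by nlinarith
  -- the bound of E
  have hE1 : E ≤ u * ((2 * L + W) * W) + W * (q + u * L) := by
    have t1 : (C₁ * L + T'') * A₃ ≤ (2 * L + W) * W := by
      calc (C₁ * L + T'') * A₃ ≤ (C₁ * L + C₁ * (L + W)) * A₃ :=
            mul_le_mul_of_nonneg_right (by linarith) hA₃0
        _ = (2 * L + W) * (C₁ * A₃) := by ring
        _ ≤ (2 * L + W) * W := mul_le_mul_of_nonneg_left h4 (by linarith)
    have t2 : A₄ * (C₁ * (q + u * L)) ≤ W * (q + u * L) := by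
      rw [← mul_assoc]
      exact mul_le_mul_of_nonneg_right h5 (by positivity)
    rw [hE]
    exact add_le_add (mul_le_mul_of_nonneg_left t1 hu.le) t2
  have hM1 : M ≤ W * (L + q) * a + W * (q * W + (u * ((2 * L + W) * W) + W * (q + u * L))) * b := by
    rw [hM]
    apply add_le_add
    · apply mul_le_mul_of_nonneg_right _ ha.le
      rw [← mul_assoc]
      exact mul_le_mul_of_nonneg_right h1 (by linarith)
    · apply mul_le_mul_of_nonneg_right _ (by linarith)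
      apply mul_le_mul h2 _ (by positivity) hW0.le
      exact add_le_add (mul_le_mul_of_nonneg_left h3 (by linarith)) hE1
  have hM2 : M ≤ W * (L + q) * a + W ^ 2 * (2 * (q * b)) + W ^ 2 * a * (3 * L + W) := by
    refine hM1.trans (le_of_eq ?_)
    rw [← hub]
    ring
  have hW2 : W ^ 2 ≤ W ^ 4 := pow_le_pow_right₀ hW (by norm_num)
  have hW3 : W ^ 3 ≤ W ^ 4 := pow_le_pow_right₀ hW (by norm_num)
  have hW23 : W ^ 2 ≤ W ^ 3 := pow_le_pow_right₀ hW (by norm_num)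
  have hW1 : W ≤ W ^ 4 := by
    calc W = W ^ 1 := (pow_one W).symm
      _ ≤ W ^ 4 := pow_le_pow_right₀ hW (by norm_num)
  have hWM : W * M ≤ (4 * W ^ 3 * a) * L + 4 * W ^ 4 * Z := by
    have t1 : W * M ≤ W * (W * (L + q) * a + W ^ 2 * (2 * (q * b)) + W ^ 2 * a * (3 * L + W)) :=
      mul_le_mul_of_nonneg_left hM2 hW0.le
    have e1 : W * (W * (L + q) * a + W ^ 2 * (2 * (q * b)) + W ^ 2 * a * (3 * L + W))
        = W ^ 2 * (a * L) + W ^ 2 * (a * q) + 2 * (W ^ 3 * (q * b)) + 3 * (W ^ 3 * (a * L))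
          + W ^ 4 * a := by ring
    have t2 : W ^ 2 * (a * L) ≤ W ^ 3 * (a * L) :=
      mul_le_mul_of_nonneg_right hW23 (by positivity)
    have t3 : W ^ 2 * (a * q) ≤ W ^ 4 * Z := by
      apply mul_le_mul hW2 _ (by positivity) (by positivity)
      calc a * q ≤ 1 * q := mul_le_mul_of_nonneg_right ha1 (by linarith)
        _ ≤ Z := by linarith
    have t4 : W ^ 3 * (q * b) ≤ W ^ 4 * Z := mul_le_mul hW3 hZ (by positivity) (by positivity)
    have t5 : W ^ 4 * a ≤ W ^ 4 * Z :=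
      mul_le_mul_of_nonneg_left (by linarith) (by positivity)
    have e2 : (4 * W ^ 3 * a) * L = W ^ 3 * (a * L) + 3 * (W ^ 3 * (a * L)) := by ring
    rw [e1] at t1
    rw [e2]
    linarith
  have hWa3 : 4 * W ^ 3 * a ≤ 1 / 3 := by
    have : W ^ 3 * a ≤ W ^ 4 * a := mul_le_mul_of_nonneg_right hW3 ha.le
    linarith
  have hWML : W * M ≤ 1 / 3 * L + 4 * W ^ 4 * Z := by
    have := mul_le_mul_of_nonneg_right hWa3 hL
    linarith
  have hL1 : L ≤ 9 * W ^ 4 * Z := by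
    have t1 : q' * L0 ≤ W ^ 4 * Z := by
      rw [mul_comm]
      calc L0 * q' ≤ L0 * Z := mul_le_mul_of_nonneg_left hq' hL0
        _ ≤ W ^ 4 * Z := mul_le_mul_of_nonneg_right (h3.trans hW1) (by linarith)
    have t2 : A₅ * M ≤ W * M := mul_le_mul_of_nonneg_right h6 hM0
    have t3 : KI ≤ W ^ 4 * Z := by
      calc KI ≤ W ^ 4 * 1 := by linarith
        _ ≤ W ^ 4 * Z := mul_le_mul_of_nonneg_left hZ1 (by positivity)
    linarith
  have hM3 : M ≤ 7 * W ^ 4 * Z := by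
    have : M ≤ W * M := le_mul_of_one_le_left hM0 hW
    linarith
  calc a * M ≤ a * (7 * W ^ 4 * Z) := mul_le_mul_of_nonneg_left hM3 ha.le
    _ = (7 * W ^ 4 * a) * Z := by ring
    _ ≤ 1 * Z := mul_le_mul_of_nonneg_right (by nlinarith [mul_pos (pow_pos hW0 4) ha])
        (by linarith)
    _ = Z := one_mul _

end Pool.Agent.SX
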