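import Pool.Agent.Lib_helper71.SX.Hs
import Pool.Agent.Lib_helper71.SX.Nrm
import Pool.Agent.Lib_helper61.Polar

/-!
# MP_a65497_an: the chirp integrals
-/

set_option autoImplicit false

namespace Pool.Agent.SX

open MeasureTheory Complex Filter Topology Set
open Pool.Agent.GU

variable {V : Type*} [NormedAddCommGroup V] [InnerProductSpace ℝ V] [FiniteDimensional ℝ V]
  [MeasurableSpace V] [BorelSpace V]

/-- the radial function cut off at the radius `R` -/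
noncomputable def gR (G : ℂ → ℂ) (R : ℝ) (x : V) : ℂ :=
  Set.indicator {x : V | R < ‖x‖} (fun x : V => G ((‖x‖ : ℝ) : ℂ)) x

theorem gR_of_lt {G : ℂ → ℂ} {R : ℝ} {x : V} (h : R < ‖x‖) : gR G R x = G ((‖x‖ : ℝ) : ℂ) :=
  Set.indicator_of_mem (s := {x : V | R < ‖x‖}) h _

theorem gR_of_le {G : ℂ → ℂ} {R : ℝ} {x : V} (h : ‖x‖ ≤ R) : gR G R x = 0 :=
  Set.indicator_of_notMem (s := {x : V | R < ‖x‖}) (by simpa using h) _

theorem gR_sm {G : ℂ → ℂ} {R : ℝ} (hG : ∀ ζ : ℂ, R ≤ ζ.re → DifferentiableAt ℂ G ζ)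
    (hb : ∀ P : ℝ, ∃ C : ℝ, 0 ≤ C ∧ ∀ r : ℝ, R ≤ r → ‖G (r : ℂ)‖ ≤ C * Real.exp (-(P * r))) :
    SM (gR (V := V) G R) := by
  constructor
  · have hms : MeasurableSet {x : V | R < ‖x‖} :=
      (isOpen_lt continuous_const continuous_norm).measurableSet
    have hc : ContinuousOn (fun x : V => G ((‖x‖ : ℝ) : ℂ)) {x : V | R < ‖x‖} := by
      intro x hx
      have h1 : ContinuousAt G ((‖x‖ : ℝ) : ℂ) :=
        (hG _ (by rw [Complex.ofReal_re]; exact le_of_lt hx)).continuousAt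
      have h2 : ContinuousAt (fun x : V => ((‖x‖ : ℝ) : ℂ)) x := by fun_prop
      exact (ContinuousAt.comp (x := x) (f := fun x : V => ((‖x‖ : ℝ) : ℂ)) (g := G)
        h1 h2).continuousWithinAt
    have h3 := hc.aestronglyMeasurable (μ := volume) hms
    exact (aestronglyMeasurable_indicator_iff hms).2 h3
  · intro T
    obtain ⟨C, hC0, hC⟩ := hb T
    refine ⟨C, fun x => ?_⟩
    rcases lt_or_ge R ‖x‖ with h | h
    · rw [gR_of_lt h]
      exact hC ‖x‖ h.le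
    · rw [gR_of_le h, norm_zero]
      positivity

/-- the chirp -/
noncomputable def ch (τ : ℝ) (x : V) : ℂ := cexp (((Real.pi * τ * ‖x‖ ^ 2 : ℝ) : ℂ) * I)

theorem ch_norm (τ : ℝ) (x : V) : ‖ch τ x‖ = 1 := Complex.norm_exp_ofReal_mul_I _

theorem ch_cont (τ : ℝ) : Continuous (ch (V := V) τ) := by
  unfold ch
  fun_prop

theorem ch_add (τ τ' : ℝ) (x : V) : ch τ x * ch τ' x = ch (τ + τ') x := by
  rw [ch, ch, ch, ← Complex.exp_add]
  congr 1
  push_cast
  ring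

theorem ch_zero (x : V) : ch 0 x = 1 := by
  rw [ch]
  simp

theorem SM.ch {g : V → ℂ} (hg : SM g) (τ : ℝ) : SM fun x => ch τ x * g x :=
  hg.mul (ch_cont τ) (A := 1) (t := 0) zero_le_one fun x => by
    rw [ch_norm, zero_mul, Real.exp_zero, mul_one]

/-- the kernel along a ray -/
noncomputable def Kω (m : ℕ) (τ a : ℝ) (ρ : ℂ) (z : ℂ) : ℂ :=
  z ^ m * cexp ((Real.pi * τ : ℝ) * I * z ^ 2 - (2 * Real.pi * a : ℝ) * I * (ρ * z))

theorem Kω_diff (m : ℕ) (τ a : ℝ) (ρ : ℂ) : Differentiable ℂ (Kω m τ a ρ) := by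
  unfold Kω
  fun_prop

theorem Kω_norm (m : ℕ) (τ a : ℝ) (ρ z : ℂ) : ‖Kω m τ a ρ z‖ = ‖z‖ ^ m *
    Real.exp (-(2 * Real.pi * τ * z.re * z.im) + 2 * Real.pi * a * (ρ.re * z.im + ρ.im * z.re)) := by
  rw [Kω, norm_mul, norm_pow, Complex.norm_exp]
  congr 2
  rw [Complex.sub_re, mul_assoc, Complex.re_ofReal_mul, mul_assoc ((2 * Real.pi * a : ℝ) : ℂ),
    Complex.re_ofReal_mul, Complex.I_mul_re, Complex.I_mul_re, pow_two, Complex.mul_im,
    Complex.mul_im]
  ring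

/-- the bound of the kernel -/
theorem Kω_bd {m : ℕ} {τ a c R P h κ Λ : ℝ} {ρ : ℂ} (hR : 0 ≤ R) (hh : 0 < h)
    (hPh : P = 2 * Real.pi * h) (ha : |a| ≤ 1) (hρ : |ρ.im| ≤ h)
    (hcase : (0 < c ∧ c ≤ |τ| ∧ |ρ.re| ≤ Λ ∧ κ ≤ c * R - Λ) ∨
      (τ = 0 ∧ Λ ≤ |ρ.re| ∧ κ ≤ R ∧ κ ≤ Λ)) :
    ∃ η : ℝ, |η| = h ∧ ∀ ζ : ℂ, R ≤ ζ.re → ζ.im ∈ uIcc 0 η →
      ‖Kω m τ a ρ ζ‖ ≤ ‖ζ‖ ^ m * Real.exp (P * ζ.re - κ * (2 * Real.pi * |ζ.im|)) := by
  have hπ := Real.pi_pos
  rcases hcase with ⟨hc, hτ, hre, hκ⟩ | ⟨rfl, hre, hκR, hκΛ⟩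
  · have hτ0 : τ ≠ 0 := by
      rintro rfl
      rw [abs_zero] at hτ
      linarith
    refine ⟨SignType.sign τ * h, ?_, fun ζ hζ him => ?_⟩
    · rw [abs_mul, abs_of_pos hh]
      rcases lt_or_gt_of_ne hτ0 with h0 | h0
      · simp [sign_neg h0]
      · simp [sign_pos h0]
    · have hsgn : τ * ζ.im = |τ| * |ζ.im| ∧ |ζ.im| ≤ h := by
        rcases lt_or_gt_of_ne hτ0 with h0 | h0
        · rw [sign_neg h0] at him
          have him' : ζ.im ∈ uIcc 0 (-h) := by simpa using him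
          rw [uIcc_of_ge (by linarith)] at him'
          rw [abs_of_neg h0, abs_of_nonpos him'.2]
          exact ⟨by ring, by linarith [him'.1]⟩
        · rw [sign_pos h0] at him
          have him' : ζ.im ∈ uIcc 0 h := by simpa using him
          rw [uIcc_of_le hh.le] at him'
          rw [abs_of_pos h0, abs_of_nonneg him'.1]
          exact ⟨by ring, by linarith [him'.2]⟩
      rw [Kω_norm]
      apply mul_le_mul_of_nonneg_left _ (by positivity)
      apply Real.exp_le_exp.2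
      have hx : 0 ≤ ζ.re := hR.trans hζ
      have e1 : 2 * Real.pi * τ * ζ.re * ζ.im = 2 * Real.pi * ζ.re * (|τ| * |ζ.im|) := by
        rw [← hsgn.1]; ring
      have e2 : 2 * Real.pi * (c * R * |ζ.im|) ≤ 2 * Real.pi * ζ.re * (|τ| * |ζ.im|) := by
        have h1 : c * R ≤ |τ| * ζ.re := mul_le_mul hτ hζ hR (abs_nonneg _)
        have h2 := mul_le_mul_of_nonneg_right h1 (abs_nonneg ζ.im)
        nlinarith
      have e3 : a * (ρ.re * ζ.im + ρ.im * ζ.re) ≤ Λ * |ζ.im| + h * ζ.re := by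
        calc a * (ρ.re * ζ.im + ρ.im * ζ.re) ≤ |a * (ρ.re * ζ.im + ρ.im * ζ.re)| := le_abs_self _
          _ = |a| * |ρ.re * ζ.im + ρ.im * ζ.re| := abs_mul _ _
          _ ≤ 1 * (|ρ.re * ζ.im| + |ρ.im * ζ.re|) :=
              mul_le_mul ha (abs_add_le _ _) (abs_nonneg _) zero_le_one
          _ = |ρ.re| * |ζ.im| + |ρ.im| * ζ.re := by
              rw [one_mul, abs_mul, abs_mul, abs_of_nonneg hx]
          _ ≤ _ := add_le_add (mul_le_mul_of_nonneg_right hre (abs_nonneg _))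
              (mul_le_mul_of_nonneg_right hρ hx)
      have e4 := mul_le_mul_of_nonneg_left e3 (by positivity : (0 : ℝ) ≤ 2 * Real.pi)
      have e5 : κ * (2 * Real.pi * |ζ.im|) ≤ (c * R - Λ) * (2 * Real.pi * |ζ.im|) :=
        mul_le_mul_of_nonneg_right hκ (by positivity)
      rw [e1, hPh]
      nlinarith
  · -- the tail case
    refine ⟨if 0 ≤ a * ρ.re then -h else h, ?_, fun ζ hζ him => ?_⟩
    · split_ifs
      · rw [abs_neg, abs_of_pos hh]
      · exact abs_of_pos hh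
    · have hsgn : a * ρ.re * ζ.im = -(|a| * |ρ.re| * |ζ.im|) ∧ |ζ.im| ≤ h := by
        by_cases h0 : 0 ≤ a * ρ.re
        · rw [if_pos h0, uIcc_of_ge (by linarith)] at him
          rw [← abs_mul, abs_of_nonneg h0, abs_of_nonpos him.2]
          exact ⟨by ring, by linarith [him.1]⟩
        · rw [if_neg h0, uIcc_of_le hh.le] at him
          push Not at h0
          rw [← abs_mul, abs_of_neg h0, abs_of_nonneg him.1]
          exact ⟨by ring, by linarith [him.2]⟩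
      rw [Kω_norm]
      apply mul_le_mul_of_nonneg_left _ (by positivity)
      apply Real.exp_le_exp.2
      have hx : 0 ≤ ζ.re := hR.trans hζ
      set y := |ζ.im| with hy
      have hy0 : 0 ≤ y := abs_nonneg _
      have e1 : 2 * Real.pi * a * (ρ.re * ζ.im + ρ.im * ζ.re)
          = 2 * Real.pi * (-(|a| * |ρ.re| * y) + a * ρ.im * ζ.re) := by
        rw [← hsgn.1]; ring
      have e2 : a * ρ.im * ζ.re ≤ |a| * h * ζ.re := by
        apply mul_le_mul_of_nonneg_right _ hx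
        calc a * ρ.im ≤ |a * ρ.im| := le_abs_self _
          _ = |a| * |ρ.im| := abs_mul _ _
          _ ≤ |a| * h := mul_le_mul_of_nonneg_left hρ (abs_nonneg _)
      have e3 : |a| * Λ * y ≤ |a| * |ρ.re| * y :=
        mul_le_mul_of_nonneg_right (mul_le_mul_of_nonneg_left hre (abs_nonneg _)) hy0
      have e4 : -(|a| * |ρ.re| * y) + a * ρ.im * ζ.re ≤ h * ζ.re - κ * y := by
        have e5 : (1 - |a|) * (R * y) ≤ (1 - |a|) * (h * ζ.re) := by
          apply mul_le_mul_of_nonneg_left _ (by linarith)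
          rw [mul_comm h]
          exact mul_le_mul hζ hsgn.2 hy0 hx
        have e6 : κ * y ≤ (1 - |a|) * (R * y) + |a| * (Λ * y) := by
          have h1 : κ ≤ (1 - |a|) * R + |a| * Λ := by
            have h2 := mul_le_mul_of_nonneg_left hκR (by linarith : 0 ≤ 1 - |a|)
            have h3 := mul_le_mul_of_nonneg_left hκΛ (abs_nonneg a)
            linarith
          have h4 := mul_le_mul_of_nonneg_right h1 hy0
          linarith
        nlinarith
      have e7 := mul_le_mul_of_nonneg_left e4 (by positivity : (0 : ℝ) ≤ 2 * Real.pi)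
      rw [e1, hPh]
      nlinarith

/-- the basic bound -/
noncomputable def HB (m : ℕ) (R P h T T' T₀ Λ κ X : ℝ) : ℝ :=
  Real.exp (-(κ * P)) * ((T + T' * Real.exp (-X)) *
          (Real.exp 2 * (m.factorial * (2 * X) ^ m * (2 * X))))
        + h * (T₀ * (R + h) ^ m * (Real.exp (P * R) + Real.exp (-(κ * P)) * Λ))

/-- the measure of the sphere -/
noncomputable def Sd (V : Type*) [NormedAddCommGroup V] [InnerProductSpace ℝ V]
    [FiniteDimensional ℝ V] [MeasurableSpace V] [BorelSpace V] : ℝ :=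
  ((volume : Measure V).toSphere univ).toReal

theorem cint {G : ℂ → ℂ} {R P h T T' T₀ Λ κ X c Λ₂ τ : ℝ} {ρ : ℂ} {e : V} (he : ‖e‖ = 1)
    (hsm : SM (gR (V := V) G R))
    (hR : 0 ≤ R) (hP : 0 ≤ P)
    (hh : 0 < h) (hPh : P = 2 * Real.pi * h) (hT : 0 ≤ T) (hT' : 0 ≤ T') (hT₀ : 0 ≤ T₀)
    (hΛ : 0 ≤ Λ) (hX : 1 ≤ X) (hhX : h ≤ X)
    (hG : ∀ ζ : ℂ, R ≤ ζ.re → DifferentiableAt ℂ G ζ)
    (hb : ∀ ζ : ℂ, R ≤ ζ.re → |ζ.im| = h → ‖G ζ‖ ≤ T * Real.exp (-(P * ζ.re)))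
    (hc : ∀ ζ : ℂ, R ≤ ζ.re → |ζ.im| ≤ h → ‖G ζ‖ ≤ T' * Real.exp (-((P + 1) * ζ.re)))
    (hd : ∀ ζ : ℂ, ζ.re = R → |ζ.im| ≤ h → ‖G ζ‖ ≤ T₀ * Real.exp (-(R * (2 * Real.pi * |ζ.im|)))
      * (Real.exp (2 * Real.pi * |ζ.im| * (R + κ))
        + Real.exp (-((P - 2 * Real.pi * |ζ.im|) * (R + κ))) * Λ))
    (hρ : |ρ.im| ≤ h)
    (hcase : (0 < c ∧ c ≤ |τ| ∧ |ρ.re| ≤ Λ₂ ∧ κ ≤ c * R - Λ₂) ∨
      (τ = 0 ∧ Λ₂ ≤ |ρ.re| ∧ κ ≤ R ∧ κ ≤ Λ₂)) :
    ‖HF (fun x => ch τ x * gR G R x) e ρ‖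
      ≤ HB (Module.finrank ℝ V - 1) R P h T T' T₀ Λ κ X * Sd V := by
  haveI : Nontrivial V := ⟨e, 0, by
    intro h0
    rw [h0, norm_zero] at he
    exact zero_ne_one he⟩
  set m := Module.finrank ℝ V - 1 with hm
  -- integrability
  have hint : Integrable fun x : V =>
      cexp (-(2 * Real.pi * (inner ℝ x e) : ℝ) * I * ρ) * (ch τ x * gR G R x) := by
    have h1 : SM fun x : V => cexp (-(2 * Real.pi * (inner ℝ x e) : ℝ) * I * ρ)
        * (ch τ x * gR G R x) :=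
      (hsm.ch τ).mul (by fun_prop) (A := 1) (t := 2 * Real.pi * |ρ.im|) zero_le_one fun x => by
        rw [one_mul]
        exact kernel_le2 he x ρ
    exact h1.intg
  obtain ⟨-, hpol⟩ := Pool.Agent.Lib61.Polar.polar (volume : Measure V) hint
  have hHF : HF (fun x => ch τ x * gR G R x) e ρ = ∫ x : V,
      cexp (-(2 * Real.pi * (inner ℝ x e) : ℝ) * I * ρ) * (ch τ x * gR G R x) := rfl
  rw [hHF, hpol]
  have hinner : ∀ θ : Metric.sphere (0 : V) 1, ‖∫ r in Ioi (0 : ℝ),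
      r ^ m • (cexp (-(2 * Real.pi * (inner ℝ (r • (θ : V)) e) : ℝ) * I * ρ)
        * (ch τ (r • (θ : V)) * gR G R (r • (θ : V))))‖ ≤ HB m R P h T T' T₀ Λ κ X := by
    intro θ
    have hθ : ‖(θ : V)‖ = 1 := mem_sphere_zero_iff_norm.1 θ.2
    set a : ℝ := inner ℝ (θ : V) e with ha
    have ha1 : |a| ≤ 1 := by
      have := abs_real_inner_le_norm (θ : V) e
      rwa [hθ, he, mul_one] at this
    have hnr : ∀ r : ℝ, 0 < r → ‖r • (θ : V)‖ = r := by
      intro r hr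
      rw [norm_smul, hθ, mul_one, Real.norm_of_nonneg hr.le]
    have e1 : ∫ r in Ioi (0 : ℝ),
      r ^ m • (cexp (-(2 * Real.pi * (inner ℝ (r • (θ : V)) e) : ℝ) * I * ρ)
        * (ch τ (r • (θ : V)) * gR G R (r • (θ : V)))) = ∫ r in Ioi R, G (r : ℂ) * Kω m τ a ρ r := by
      have e2 : ∀ r ∈ Ioi (0 : ℝ), r ^ m •
          (cexp (-(2 * Real.pi * (inner ℝ (r • (θ : V)) e) : ℝ) * I * ρ)
        * (ch τ (r • (θ : V)) * gR G R (r • (θ : V))))
          = (Ioi R).indicator (fun r : ℝ => G (r : ℂ) * Kω m τ a ρ r) r := by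
        intro r hr
        have hr0 : 0 < r := hr
        by_cases h1 : R < r
        · rw [Set.indicator_of_mem (show r ∈ Ioi R from h1),
            gR_of_lt (by rw [hnr r hr0]; exact h1), hnr r hr0, ch, hnr r hr0,
            inner_smul_left, ← ha, Kω, Complex.real_smul]
          have e3 : cexp ((Real.pi * τ : ℝ) * I * (r : ℂ) ^ 2 - (2 * Real.pi * a : ℝ) * I * (ρ * r))
              = cexp (-(2 * Real.pi * ((starRingEnd ℝ) r * a) : ℝ) * I * ρ)
                * cexp (((Real.pi * τ * r ^ 2 : ℝ) : ℂ) * I) := by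
            rw [← Complex.exp_add]
            congr 1
            simp only [conj_trivial]
            push_cast
            ring
          rw [e3]
          push_cast
          ring
        · rw [Set.indicator_of_notMem (show r ∉ Ioi R from h1),
            gR_of_le (by rw [hnr r hr0]; exact le_of_not_gt h1), mul_zero, mul_zero, smul_zero]
      rw [setIntegral_congr_fun measurableSet_Ioi e2, setIntegral_indicator measurableSet_Ioi]
      congr 2
      rw [Ioi_inter_Ioi, sup_of_le_right hR]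
    rw [e1]
    obtain ⟨η, hη, hK⟩ := Kω_bd (m := m) (τ := τ) (a := a) (c := c) (ρ := ρ) (κ := κ) (Λ := Λ₂)
      hR hh hPh ha1 hρ hcase
    exact hs hR hP hh hPh hT hT' hT₀ hΛ hX hhX hη hG (Kω_diff m τ a ρ) hb hc hd hK
  have hfin := norm_integral_le_of_norm_le_const (μ := (volume : Measure V).toSphere)
    (Eventually.of_forall hinner)
  exact hfin

end Pool.Agent.SX
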