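import Pool.Agent.Lib_helper71.SX.Iden
import Pool.Agent.Lib_helper71.SX.Cls

/-!
# MP_a65497_an: the Fourier transform of a radial function at complex points
-/

set_option autoImplicit false

namespace Pool.Agent.SX

open MeasureTheory Complex Filter Topology Set
open Pool.Agent.GU
open scoped FourierTransform

variable {V : Type*} [NormedAddCommGroup V] [InnerProductSpace ℝ V] [FiniteDimensional ℝ V]
  [MeasurableSpace V] [BorelSpace V]

theorem sq_diff' {z : ℂ} (hz : z ∈ Complex.slitPlane) : DifferentiableAt ℂ GU.sq z := by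
  unfold GU.sq
  exact differentiableAt_id.cpow_const hz

theorem exp_sm {g₀ : V → ℂ} (hs : SM g₀) {e : V} (he : ‖e‖ = 1) (P : ℝ) :
    SM fun x : V => cexp ((P * inner ℝ x e : ℝ) : ℂ) * g₀ x := by
  refine hs.mul (by fun_prop) (A := 1) (t := |P|) zero_le_one fun x => ?_
  rw [one_mul, Complex.norm_exp_ofReal]
  apply Real.exp_le_exp.2
  calc P * inner ℝ x e ≤ |P * inner ℝ x e| := le_abs_self _
    _ = |P| * |inner ℝ x e| := abs_mul _ _
    _ ≤ _ := mul_le_mul_of_nonneg_left (abs_inner_le he x) (abs_nonneg _)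

theorem vec_bd0 {g₀ : V → ℂ} (hs : SM g₀) (hr : Rad g₀) {e : V} (he : ‖e‖ = 1) {h P E : ℝ}
    (hh : 0 < h) (hPh : P = 2 * Real.pi * h) (hE : ∀ ρ : ℂ, |ρ.im| ≤ h → ‖HF g₀ e ρ‖ ≤ E)
    (ξ : V) (hξ : inner ℝ ξ e ≠ (0 : ℝ)) :
    ‖𝓕 (fun x : V => cexp ((P * inner ℝ x e : ℝ) : ℂ) * g₀ x) ξ‖ ≤ E := by
  have hπ := Real.pi_pos
  set a : ℝ := inner ℝ ξ e with ha
  have haξ : a ^ 2 ≤ ‖ξ‖ ^ 2 := by
    rw [← sq_abs a]
    exact pow_le_pow_left₀ (abs_nonneg _) (abs_inner_le he ξ) 2
  set b2 : ℝ := ‖ξ‖ ^ 2 - a ^ 2 with hb2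
  have hb20 : 0 ≤ b2 := by linarith
  set g₁ : V → ℂ := fun x => cexp (((-(2 * Real.pi * inner ℝ x ξ) : ℝ) : ℂ) * I) * g₀ x with hg₁
  have hs₁ : SM g₁ := by
    refine hs.mul (by fun_prop) (A := 1) (t := 0) zero_le_one fun x => ?_
    rw [Complex.norm_exp_ofReal_mul_I]
    simp
  have hd₁ := hs₁.diff he
  have hd₀ := hs.diff he
  -- the value at the imaginary point
  have hval : HF g₁ e (I * h) = 𝓕 (fun x : V => cexp ((P * inner ℝ x e : ℝ) : ℂ) * g₀ x) ξ := by
    rw [HF, Real.fourier_eq']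
    congr 1
    funext x
    simp only [hg₁, smul_eq_mul]
    rw [← mul_assoc (cexp _) (cexp _) _, ← mul_assoc (cexp _) (cexp _) _, ← Complex.exp_add,
      ← Complex.exp_add]
    congr 2
    have hI : (I : ℂ) * I = -1 := Complex.I_mul_I
    rw [hPh]
    push_cast
    linear_combination (-(2 * Real.pi * (inner ℝ x e : ℝ) * h)) * hI
  -- the value on the real axis
  have hreal : ∀ t : ℝ, HF g₁ e (t : ℂ) = HF g₀ e ((‖ξ + t • e‖ : ℝ) : ℂ) := by
    intro t
    have e1 : HF g₁ e (t : ℂ) = 𝓕 g₀ (ξ + t • e) := by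
      rw [HF, Real.fourier_eq']
      congr 1
      funext x
      simp only [hg₁, smul_eq_mul]
      rw [← mul_assoc (cexp _) (cexp _) _, ← Complex.exp_add, inner_add_right, inner_smul_right]
      congr 2
      push_cast
      ring
    rw [e1, HF_real]
    apply rad_fourier hr
    rw [norm_smul, he, mul_one, norm_norm]
  -- the domain
  set D : Set ℂ := {τ : ℂ | 0 < a * (τ.re + a)} with hD
  have hDo : IsOpen D := isOpen_lt continuous_const (by fun_prop)
  have hDc : Convex ℝ D := by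
    intro z hz w hw p q hp hq hpq
    simp only [hD, Set.mem_setOf_eq] at hz hw ⊢
    have e1 : a * ((p • z + q • w).re + a) = p * (a * (z.re + a)) + q * (a * (w.re + a)) := by
      simp only [Complex.add_re, Complex.real_smul, Complex.re_ofReal_mul]
      have : a = (p + q) * a := by rw [hpq, one_mul]
      nlinarith
    rw [e1]
    rcases eq_or_lt_of_le hp with h0 | h0
    · rw [← h0] at hpq ⊢
      rw [zero_add] at hpq
      rw [hpq]
      linarith
    · have := mul_pos h0 hz
      have := mul_nonneg hq hw.le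
      linarith
  set w : ℂ → ℂ := fun τ => (τ + a) ^ 2 + b2 with hw
  have hwslit : ∀ τ ∈ D, w τ ∈ Complex.slitPlane := by
    intro τ hτ
    have hne : τ.re + a ≠ 0 := by
      intro h0
      simp only [hD, Set.mem_setOf_eq] at hτ
      rw [h0, mul_zero] at hτ
      exact lt_irrefl _ hτ
    have hre : (w τ).re = (τ.re + a) ^ 2 - τ.im ^ 2 + b2 := by
      simp only [hw, pow_two, Complex.add_re, Complex.mul_re, Complex.add_im, Complex.ofReal_re,
        Complex.ofReal_im, add_zero]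
    have him : (w τ).im = 2 * (τ.re + a) * τ.im := by
      simp only [hw, pow_two, Complex.add_re, Complex.mul_im, Complex.add_im, Complex.ofReal_re,
        Complex.ofReal_im, add_zero]
      ring
    rw [Complex.mem_slitPlane_iff]
    by_cases h0 : τ.im = 0
    · left
      rw [hre, h0]
      have : 0 < (τ.re + a) ^ 2 := by positivity
      linarith
    · right
      rw [him]
      exact mul_ne_zero (mul_ne_zero two_ne_zero hne) h0
  have hA1 : AnalyticOnNhd ℂ (HF g₁ e) D := fun z _ => hd₁.analyticAt z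
  have hA2 : AnalyticOnNhd ℂ (fun τ => HF g₀ e (GU.sq (w τ))) D := by
    apply DifferentiableOn.analyticOnNhd _ hDo
    intro τ hτ
    apply DifferentiableAt.differentiableWithinAt
    have h1 : DifferentiableAt ℂ w τ := by fun_prop
    have h2 : DifferentiableAt ℂ (fun τ => GU.sq (w τ)) τ :=
      DifferentiableAt.comp (g := GU.sq) τ (sq_diff' (hwslit τ hτ)) h1
    exact DifferentiableAt.comp (g := HF g₀ e) τ (hd₀ _) h2
  have h0D : (0 : ℂ) ∈ D := by
    simp only [hD, Set.mem_setOf_eq, Complex.zero_re, zero_add]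
    exact mul_self_pos.2 hξ
  have hwreal : ∀ t : ℝ, GU.sq (w t) = ((‖ξ + t • e‖ : ℝ) : ℂ) := by
    intro t
    have e1 : w t = ((‖ξ + t • e‖ ^ 2 : ℝ) : ℂ) := by
      have e2 : ‖ξ + t • e‖ ^ 2 = (t + a) ^ 2 + b2 := by
        rw [norm_add_sq_real, inner_smul_right, norm_smul, he, mul_one, Real.norm_eq_abs, sq_abs,
          ← ha, hb2]
        ring
      rw [e2, hw]
      push_cast
      ring
    rw [e1, sq_real (by positivity), Real.sqrt_sq (norm_nonneg _)]
  have hfreq : ∃ᶠ z in 𝓝[≠] (0 : ℂ), HF g₁ e z = HF g₀ e (GU.sq (w z)) := by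
    have h5 : Tendsto (fun s : ℝ => (s : ℂ)) (𝓝[>] 0) (𝓝[≠] (0 : ℂ)) := by
      apply tendsto_nhdsWithin_of_tendsto_nhds_of_eventually_within
      · have := (Complex.continuous_ofReal.tendsto 0).mono_left
          (nhdsWithin_le_nhds (s := Ioi (0 : ℝ)))
        simpa using this
      · filter_upwards [self_mem_nhdsWithin] with s hs
        have hs0 : 0 < s := hs
        intro h6
        have h7 : (s : ℂ) = 0 := h6
        have h8 : s = 0 := by exact_mod_cast h7
        exact hs0.ne' h8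
    apply h5.frequently
    exact (Eventually.of_forall fun s : ℝ => by rw [hreal s, hwreal s]).frequently
  have hEq := hA1.eqOn_of_preconnected_of_frequently_eq hA2 hDc.isPreconnected h0D hfreq
  have hID : (I * h : ℂ) ∈ D := by
    simp only [hD, Set.mem_setOf_eq]
    have : (I * (h : ℂ)).re = 0 := by simp
    rw [this, zero_add]
    exact mul_self_pos.2 hξ
  rw [← hval, hEq hID]
  apply hE
  -- the imaginary part of the square root
  have hre : (w (I * h)).re = a ^ 2 - h ^ 2 + b2 := by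
    simp only [hw, pow_two, Complex.add_re, Complex.mul_re, Complex.add_im, Complex.mul_im,
      Complex.ofReal_re, Complex.ofReal_im, Complex.I_re, Complex.I_im]
    ring
  have him : (w (I * h)).im = 2 * a * h := by
    simp only [hw, pow_two, Complex.add_re, Complex.mul_re, Complex.add_im, Complex.mul_im,
      Complex.ofReal_re, Complex.ofReal_im, Complex.I_re, Complex.I_im]
    ring
  have hnorm : ‖w (I * h)‖ ≤ ‖ξ‖ ^ 2 + h ^ 2 := by
    apply le_of_sq_le_sq _ (by positivity)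
    rw [← Complex.normSq_eq_norm_sq, Complex.normSq_apply, hre, him, hb2]
    nlinarith [mul_nonneg (sq_nonneg h) hb20]
  apply abs_le_of_sq_le_sq _ hh.le
  rw [sq_im, hre, hb2]
  linarith

theorem vec_bd {g₀ : V → ℂ} (hs : SM g₀) (hr : Rad g₀) {e : V} (he : ‖e‖ = 1) {h P E : ℝ}
    (hh : 0 < h) (hPh : P = 2 * Real.pi * h) (hE : ∀ ρ : ℂ, |ρ.im| ≤ h → ‖HF g₀ e ρ‖ ≤ E)
    (ξ : V) : ‖𝓕 (fun x : V => cexp ((P * inner ℝ x e : ℝ) : ℂ) * g₀ x) ξ‖ ≤ E := by
  by_cases hξ : inner ℝ ξ e = (0 : ℝ)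
  · have hi : Integrable fun x : V => cexp ((P * inner ℝ x e : ℝ) : ℂ) * g₀ x :=
      (exp_sm hs he P).intg
    have hc : Continuous (𝓕 (fun x : V => cexp ((P * inner ℝ x e : ℝ) : ℂ) * g₀ x)) :=
      VectorFourier.fourierIntegral_continuous (L := innerₗ V) Real.continuous_fourierChar
        continuous_inner hi
    have h1 : Tendsto (fun t : ℝ =>
        ‖𝓕 (fun x : V => cexp ((P * inner ℝ x e : ℝ) : ℂ) * g₀ x) (ξ + t • e)‖) (𝓝[>] 0)
        (𝓝 ‖𝓕 (fun x : V => cexp ((P * inner ℝ x e : ℝ) : ℂ) * g₀ x) ξ‖) := by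
      have h2 : Continuous fun t : ℝ =>
          ‖𝓕 (fun x : V => cexp ((P * inner ℝ x e : ℝ) : ℂ) * g₀ x) (ξ + t • e)‖ :=
        (hc.comp (by fun_prop : Continuous fun t : ℝ => ξ + t • e)).norm
      have h3 := (h2.tendsto 0).mono_left (nhdsWithin_le_nhds (s := Ioi (0 : ℝ)))
      rwa [zero_smul, add_zero] at h3
    apply le_of_tendsto h1
    filter_upwards [self_mem_nhdsWithin] with t ht
    have ht0 : 0 < t := ht
    apply vec_bd0 hs hr he hh hPh hE
    rw [inner_add_left, hξ, inner_smul_left, real_inner_self_eq_norm_sq, he]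
    simpa using ht0.ne'
  · exact vec_bd0 hs hr he hh hPh hE ξ hξ

end Pool.Agent.SX
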