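import Pool.Agent.Lib_helper71.SX.Com
import Pool.Agent.Lib_helper71.SX.Gau
import Pool.Agent.Lib_helper71.SX.Rdl

/-!
# MP_a65497_an: the pointwise bound
-/

set_option autoImplicit false

namespace Pool.Agent.SX

open MeasureTheory Complex Filter Topology Set
open Pool.Agent.GU
open scoped FourierTransform

variable {V : Type*} [NormedAddCommGroup V] [InnerProductSpace ℝ V] [FiniteDimensional ℝ V]
  [MeasurableSpace V] [BorelSpace V]
variable {k n₀ : ℕ} {e : V} {f g : V → ℂ}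

theorem gR_rad (G : ℂ → ℂ) (R : ℝ) : Rad (gR (V := V) G R) := by
  intro x y hxy
  rcases le_or_gt ‖x‖ R with h | h
  · rw [gR_of_le h, gR_of_le (by rwa [← hxy])]
  · rw [gR_of_lt h, gR_of_lt (by rwa [← hxy]), hxy]

theorem Pr.pt (p : Pr k n₀ e f g) {R P h E₃ s r : ℝ} (hR : Rm k n₀ ≤ R) (hh : 1 / 4 ≤ h)
    (hPh : P = 2 * Real.pi * h) (hE0 : 0 ≤ E₃)
    (hE : ∀ ρ : ℂ, |ρ.im| ≤ h → ‖HF (gR (V := V) (GG k n₀ (HF g e)) R) e ρ‖ ≤ E₃)
    (hs : 0 < s) (hr : R + 1 ≤ r) :
    ‖GG k n₀ (HF g e) (r : ℂ)‖ * Real.exp (P * r)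
      ≤ (8 * (P + 1) * (C1 k (LL f g) * (LL f g P + Real.exp (P * R)))) * s
        * 2 ^ Module.finrank ℝ V + E₃ * (s ^ Module.finrank ℝ V)⁻¹ := by
  have hπ := Real.pi_pos
  have D := p.dat
  have hR0 := D.Rm1
  have hP0 : 0 ≤ P := by rw [hPh]; positivity
  have hLP := p.lp.nn P
  have hC1 := C1_pos (k := k) p.lp
  set G := GG k n₀ (HF g e) with hG
  set B : ℝ := C1 k (LL f g) * (LL f g P + Real.exp (P * R)) with hB
  have hB0 : 0 < B := by
    have := Real.exp_pos (P * R)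
    positivity
  have hGB : ∀ t : ℝ, R ≤ t → ‖G (t : ℂ)‖ * Real.exp (P * t) ≤ B := by
    intro t ht
    have h2 := bd_in D p.lp p.hH hR hh hPh (ζ := (t : ℂ)) (by simpa using ht)
      (by rw [Complex.ofReal_im, abs_zero]; linarith)
    rw [Complex.ofReal_re, ← hB] at h2
    calc ‖G (t : ℂ)‖ * Real.exp (P * t) ≤ (B * Real.exp (-(P * t))) * Real.exp (P * t) :=
          mul_le_mul_of_nonneg_right h2 (Real.exp_pos _).le
      _ = B := by rw [mul_assoc, ← Real.exp_add, neg_add_cancel, Real.exp_zero, mul_one]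
  set φ : V → ℂ := fun y => cexp ((P * inner ℝ y e : ℝ) : ℂ) * gR G R y with hφ
  have hφi : Integrable φ := (exp_sm (p.gsm hR) p.he P).intg
  have hFφ : ∀ ξ, ‖𝓕 φ ξ‖ ≤ E₃ := fun ξ =>
    vec_bd (p.gsm hR) (gR_rad _ _) p.he (by linarith) hPh hE ξ
  set x : V := r • e with hx
  have hxn : ‖x‖ = r := by rw [hx, norm_smul, p.he, mul_one, Real.norm_of_nonneg (by linarith)]
  have hxe : inner ℝ x e = r := by
    rw [hx, inner_smul_left, real_inner_self_eq_norm_sq, p.he]
    simp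
  have hφx : φ x = G (r : ℂ) * cexp (P * r) := by
    simp only [hφ]
    rw [hxe, gR_of_lt (by rw [hxn]; linarith), hxn, mul_comm]
    congr 2
    push_cast
    ring
  have hexpn : ∀ t : ℝ, ‖cexp ((P : ℂ) * (t : ℂ))‖ = Real.exp (P * t) := by
    intro t
    rw [← Complex.ofReal_mul, Complex.norm_exp_ofReal]
  have hφxn : ‖φ x‖ = ‖G (r : ℂ)‖ * Real.exp (P * r) := by
    rw [hφx, norm_mul, hexpn]
  have hφB : ∀ y, ‖φ y‖ ≤ B := by
    intro y
    simp only [hφ]
    rw [norm_mul, Complex.norm_exp_ofReal]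
    rcases le_or_gt ‖y‖ R with h1 | h1
    · rw [gR_of_le h1, norm_zero, mul_zero]
      exact hB0.le
    · rw [gR_of_lt h1, mul_comm]
      refine le_trans ?_ (hGB ‖y‖ h1.le)
      apply mul_le_mul_of_nonneg_left _ (norm_nonneg _)
      apply Real.exp_le_exp.2
      exact mul_le_mul_of_nonneg_left ((le_abs_self _).trans (abs_inner_le p.he y)) hP0
  have hlip : ∀ y, ‖φ y - φ x‖ ≤ 8 * (P + 1) * B * ‖y - x‖ := by
    intro y
    have hyx0 : 0 ≤ ‖y - x‖ := norm_nonneg _
    have hnn : |‖y‖ - r| ≤ ‖y - x‖ := by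
      have := abs_norm_sub_norm_le y x
      rwa [hxn] at this
    rcases le_or_gt ‖y‖ (R + 1 / 4) with h1 | h1
    · have h2 : 3 / 4 ≤ ‖y - x‖ := by
        have := neg_abs_le (‖y‖ - r)
        linarith
      calc ‖φ y - φ x‖ ≤ ‖φ y‖ + ‖φ x‖ := norm_sub_le _ _
        _ ≤ B + B := add_le_add (hφB y) (hφB x)
        _ ≤ 8 * B * (3 / 4) := by linarith
        _ ≤ 8 * (P + 1) * B * ‖y - x‖ := by
            apply mul_le_mul _ h2 (by norm_num) (by positivity)
            apply mul_le_mul_of_nonneg_right _ hB0.le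
            linarith
    · set δ : ℝ := ‖y‖ - inner ℝ y e with hδ
      have hδ0 : 0 ≤ δ := by
        have := (le_abs_self _).trans (abs_inner_le p.he y)
        linarith
      have hδ2 : δ ≤ 2 * ‖y - x‖ := by
        have h2 : inner ℝ (x - y) e = r - inner ℝ y e := by rw [inner_sub_left, hxe]
        have h3 := (le_abs_self _).trans (abs_inner_le p.he (x - y))
        rw [h2, norm_sub_rev] at h3
        have h4 := (le_abs_self _).trans hnn
        linarith
      have hφy : φ y = (Real.exp (-(P * δ)) : ℂ) * (G ((‖y‖ : ℝ) : ℂ) * cexp (P * (‖y‖ : ℝ))) := by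
        simp only [hφ]
        rw [gR_of_lt (by linarith), mul_comm (cexp _), ← mul_assoc, mul_comm _ (G _), mul_assoc,
          Complex.ofReal_exp, ← Complex.exp_add]
        congr 2
        rw [hδ]
        push_cast
        ring
      have hl := bd_lip D p.lp p.hH hR hh hPh (r := r) (s := ‖y‖) (by linarith) h1.le
      rw [← hB, ← hG] at hl
      have e1 : φ y - φ x = (Real.exp (-(P * δ)) : ℂ) * (G ((‖y‖ : ℝ) : ℂ) * cexp (P * (‖y‖ : ℝ))
          - G (r : ℂ) * cexp (P * r)) + ((Real.exp (-(P * δ)) - 1 : ℝ) : ℂ)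
            * (G (r : ℂ) * cexp (P * r)) := by
        rw [hφy, hφx]
        push_cast
        ring
      have hPδ : 0 ≤ P * δ := mul_nonneg hP0 hδ0
      have h5 : Real.exp (-(P * δ)) ≤ 1 := by
        rw [Real.exp_le_one_iff]
        linarith
      have h6 := Real.add_one_le_exp (-(P * δ))
      have h7 : ‖((Real.exp (-(P * δ)) : ℝ) : ℂ)‖ ≤ 1 := by
        rw [Complex.norm_real, Real.norm_of_nonneg (Real.exp_pos _).le]
        exact h5
      have h8 : ‖((Real.exp (-(P * δ)) - 1 : ℝ) : ℂ)‖ ≤ P * δ := by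
        rw [Complex.norm_real, Real.norm_eq_abs, abs_le]
        constructor
        · linarith
        · linarith
      have h9 : ‖G (r : ℂ) * cexp (P * r)‖ ≤ B := by
        rw [← hφx]
        exact hφB x
      rw [e1]
      refine (norm_add_le _ _).trans ?_
      rw [norm_mul, norm_mul ((Real.exp (-(P * δ)) - 1 : ℝ) : ℂ)]
      have t1 : ‖((Real.exp (-(P * δ)) : ℝ) : ℂ)‖ * ‖G ((‖y‖ : ℝ) : ℂ) * cexp (P * (‖y‖ : ℝ))
          - G (r : ℂ) * cexp (P * r)‖ ≤ 1 * (4 * B * ‖y - x‖) := by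
        apply mul_le_mul h7 _ (norm_nonneg _) zero_le_one
        exact hl.trans (mul_le_mul_of_nonneg_left hnn (by positivity))
      have t2 : ‖((Real.exp (-(P * δ)) - 1 : ℝ) : ℂ)‖ * ‖G (r : ℂ) * cexp (P * r)‖
          ≤ (P * (2 * ‖y - x‖)) * B := by
        apply mul_le_mul (h8.trans (mul_le_mul_of_nonneg_left hδ2 hP0)) h9 (norm_nonneg _)
        positivity
      refine (add_le_add t1 t2).trans ?_
      have : 0 ≤ B * ‖y - x‖ := by positivity
      nlinarith [mul_nonneg hP0 this]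
  have hfin := moll hφi hs hE0 hFφ x (by positivity) hlip
  rw [hφxn] at hfin
  exact hfin

end Pool.Agent.SX
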