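import Pool.Agent.Lib_helper71.SX.Pt

/-!
# MP_a65497_an: the recursive inequality
-/

set_option autoImplicit false

namespace Pool.Agent.SX

open MeasureTheory Complex Filter Topology Set
open Pool.Agent.GU
open scoped FourierTransform

/-- the bound of the chirp integrals -/
noncomputable def Ec (V : Type*) [NormedAddCommGroup V] [InnerProductSpace ℝ V]
    [FiniteDimensional ℝ V] [MeasurableSpace V] [BorelSpace V] (k : ℕ) (L : ℝ → ℝ)
    (R P h κ X : ℝ) : ℝ :=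
  HB (Module.finrank ℝ V - 1) R P h (C1 k L * L P) (C1 k L * (L (P + 1) + Real.exp ((P + 1) * R)))
    (C1 k L) (L P) κ X * Sd V

variable {V : Type*} [NormedAddCommGroup V] [InnerProductSpace ℝ V] [FiniteDimensional ℝ V]
  [MeasurableSpace V] [BorelSpace V]
variable {k n₀ : ℕ} {e : V} {f g : V → ℂ}

theorem Pr.ch_bd (p : Pr k n₀ e f g) {R P h κ X c Λ₂ τ : ℝ} {ρ : ℂ} (hR : Rm k n₀ ≤ R)
    (hh : 1 / 4 ≤ h) (hPh : P = 2 * Real.pi * h) (hκ : 0 ≤ κ) (hX : 1 ≤ X) (hhX : h ≤ X)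
    (hρ : |ρ.im| ≤ h)
    (hcase : (0 < c ∧ c ≤ |τ| ∧ |ρ.re| ≤ Λ₂ ∧ κ ≤ c * R - Λ₂) ∨
      (τ = 0 ∧ Λ₂ ≤ |ρ.re| ∧ κ ≤ R ∧ κ ≤ Λ₂)) :
    ‖HF (fun x => ch τ x * gR (GG k n₀ (HF g e)) R x) e ρ‖ ≤ Ec V k (LL f g) R P h κ X := by
  have hπ := Real.pi_pos
  have D := p.dat
  have hR0 := D.Rm1
  have hL := p.lp
  have hC := C1_pos (k := k) hL
  have hP0 : 0 ≤ P := by rw [hPh]; positivity
  have hLP := hL.nn P
  have hLP1 := hL.nn (P + 1)
  refine cint (T := C1 k (LL f g) * LL f g P)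
    (T' := C1 k (LL f g) * (LL f g (P + 1) + Real.exp ((P + 1) * R))) (T₀ := C1 k (LL f g))
    (Λ := LL f g P) (c := c) (Λ₂ := Λ₂) p.he (p.gsm hR) (by linarith) hP0 (by linarith) hPh
    (by positivity) (by positivity) hC.le hLP hX hhX ?_ ?_ ?_ ?_ hρ hcase
  · intro ζ hζ
    exact D.diff (hR.trans hζ)
  · intro ζ hζ him
    exact bd_top D hL p.hH hh hPh (hR.trans hζ) him
  · intro ζ hζ him
    have h1 : 0 < 1 / (2 * Real.pi) := by positivity
    refine bd_in D hL p.hH hR (h := h + 1 / (2 * Real.pi)) (by linarith) ?_ hζ (by linarith)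
    rw [hPh]
    field_simp
  · intro ζ hζ him
    refine bd_left D hL p.hH hR (by linarith) hζ ?_
    rw [hPh]
    exact mul_le_mul_of_nonneg_left him (by positivity)

/-- the bound of the quotient on the real axis -/
noncomputable def Mb (V : Type*) [NormedAddCommGroup V] [InnerProductSpace ℝ V]
    [FiniteDimensional ℝ V] [MeasurableSpace V] [BorelSpace V] (k : ℕ) (L : ℝ → ℝ)
    (R P h κ X : ℝ) : ℝ :=
  (8 * (P + 1) * (C1 k L * (L P + Real.exp (P * R)))) * Real.exp (-(2 * P))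
        * 2 ^ Module.finrank ℝ V + (4 * 2 ^ k * (Real.exp (P * R) * L 0 + Ec V k L R P h κ X))
          * (Real.exp (-(2 * P)) ^ Module.finrank ℝ V)⁻¹

theorem Ec_nonneg (p : Pr k n₀ e f g) {R P h κ X : ℝ} (hR : 0 ≤ R) (hh : 0 ≤ h)
    (hX : 0 ≤ X) : 0 ≤ Ec V k (LL f g) R P h κ X := by
  have hL := p.lp
  have hC := C1_pos (k := k) hL
  have hLP := hL.nn P
  have hLP1 := hL.nn (P + 1)
  have hS : 0 ≤ Sd V := ENNReal.toReal_nonneg
  unfold Ec HB
  positivity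

theorem Pr.M_bd (p : Pr k n₀ e f g) {R P h κ X r : ℝ} (hR : Rm k n₀ ≤ R) (hRκ : k * κ ≤ R)
    (hh : 1 / 4 ≤ h) (hPh : P = 2 * Real.pi * h) (hP4 : 4 ≤ P) (hκ : 0 ≤ κ) (hX : 1 ≤ X)
    (hhX : h ≤ X) {n : ℕ} (hn : h ^ 2 + (Module.finrank ℝ V : ℝ) / 4 = n + 1 / 2)
    (hr : R + 1 ≤ r) :
    ‖GG k n₀ (HF g e) (r : ℂ)‖ * Real.exp (P * r) ≤ Mb V k (LL f g) R P h κ X := by
  have hk1 := p.dat.k1
  have hR0 := p.dat.Rm1
  have hL0 := p.lp.nn 0
  have hk0 : (0 : ℝ) < k := by linarith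
  have hE0 : 0 ≤ Ec V k (LL f g) R P h κ X :=
    Ec_nonneg p (by linarith) (by linarith) (by linarith)
  have hcR : κ ≤ 2 / (k : ℝ) * R - κ := by
    have h1 : 2 / (k : ℝ) * (k * κ) ≤ 2 / (k : ℝ) * R :=
      mul_le_mul_of_nonneg_left hRκ (by positivity)
    have h2 : 2 / (k : ℝ) * (k * κ) = 2 * κ := by field_simp
    linarith
  have hκR : κ ≤ R := by nlinarith
  refine p.pt hR hh hPh (E₃ := 4 * 2 ^ k * (Real.exp (P * R) * LL f g 0
    + Ec V k (LL f g) R P h κ X)) (by positivity) ?_ (Real.exp_pos _) hr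
  intro ρ hρ
  refine p.Y_strip hR hPh hP4 hn hκ hE0 ?_ ?_ ?_ hρ
  · intro z τ hz hzr hτ
    exact p.ch_bd hR hh hPh hκ hX hhX hz (Or.inl ⟨by positivity, hτ, hzr, hcR⟩)
  · intro z τ hz hzr hτ
    have h1 := p.symm.ch_bd hR hh hPh hκ hX hhX hz (τ := τ) (c := 2 / (k : ℝ)) (Λ₂ := κ)
      (Or.inl ⟨by positivity, hτ, hzr, hcR⟩)
    have h2 : LL g f = LL f g := by
      funext t
      exact LL_comm g f t
    rwa [h2] at h1
  · intro z hz hzr
    have h1 := p.ch_bd hR hh hPh hκ hX hhX hz (τ := 0) (c := 1) (Λ₂ := κ)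
      (Or.inr ⟨rfl, hzr, hκR, le_rfl⟩)
    have e0 : (fun x => ch 0 x * gR (GG k n₀ (HF g e)) R x)
        = gR (V := V) (GG k n₀ (HF g e)) R := by
      funext x
      rw [ch_zero, one_mul]
    rwa [e0] at h1

/-- the bound of the function -/
theorem Pr.f_bd (p : Pr k n₀ e f g) {x : V} (hx : Rm k n₀ ≤ ‖x‖) :
    ‖f x‖ ≤ ‖GG k n₀ (HF g e) ((‖x‖ : ℝ) : ℂ)‖ := by
  rw [p.val x, p.dat.eq hx, norm_mul, norm_pow]
  apply mul_le_of_le_one_right (norm_nonneg _)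
  apply pow_le_one₀ (norm_nonneg _)
  have e1 : (Real.pi : ℂ) * (((‖x‖ : ℝ) : ℂ) ^ 2 - (sg k n₀ : ℂ)) / k
      = ((Real.pi * (‖x‖ ^ 2 - sg k n₀) / k : ℝ) : ℂ) := by push_cast; ring
  rw [e1, ← Complex.ofReal_cos, Complex.norm_real, Real.norm_eq_abs]
  exact Real.abs_cos_le_one _

/-- the weighted norm with a larger weight -/
theorem LL_succ (p : Pr k n₀ e f g) {P X K₁ : ℝ}
    (ht : ∀ x : V, X ≤ ‖x‖ → (‖f x‖ + ‖g x‖) * Real.exp ((P + 1) * ‖x‖) ≤ K₁ * wt V x)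
    (hK₁ : 0 ≤ K₁) :
    LL f g (P + 1) ≤ Real.exp X * LL f g P + K₁ * ∫ x : V, wt V x := by
  have hpt : ∀ x : V, (‖f x‖ + ‖g x‖) * Real.exp ((P + 1) * ‖x‖)
      ≤ Real.exp X * ((‖f x‖ + ‖g x‖) * Real.exp (P * ‖x‖)) + K₁ * wt V x := by
    intro x
    have hw := wt_pos x
    rcases le_or_gt X ‖x‖ with h | h
    · have h1 := ht x h
      have h2 : 0 ≤ Real.exp X * ((‖f x‖ + ‖g x‖) * Real.exp (P * ‖x‖)) := by positivity
      linarith
    · have h1 : Real.exp ((P + 1) * ‖x‖) ≤ Real.exp X * Real.exp (P * ‖x‖) := by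
        rw [← Real.exp_add]
        apply Real.exp_le_exp.2
        linarith
      have h2 := mul_le_mul_of_nonneg_left h1 (by positivity : 0 ≤ ‖f x‖ + ‖g x‖)
      have h3 : 0 ≤ K₁ * wt V x := by positivity
      linarith
  have hi : Integrable fun x : V => Real.exp X * ((‖f x‖ + ‖g x‖) * Real.exp (P * ‖x‖))
      + K₁ * wt V x := ((LL_int p.sf p.sg' P).const_mul _).add (wt_int.const_mul _)
  refine (integral_mono (LL_int p.sf p.sg' (P + 1)) hi hpt).trans (le_of_eq ?_)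
  rw [integral_add ((LL_int p.sf p.sg' P).const_mul _) (wt_int.const_mul _), integral_const_mul,
    integral_const_mul]
  rfl

/-- the weighted norm from the pointwise bound -/
theorem LL_le (p : Pr k n₀ e f g) {P X K₁ R M : ℝ} (hP : 0 ≤ P) (hM : 0 ≤ M) (hX : 0 ≤ X)
    (ht : ∀ x : V, X ≤ ‖x‖ → (‖f x‖ + ‖g x‖) * Real.exp ((P + 1) * ‖x‖) ≤ K₁ * wt V x)
    (hK₁ : 0 ≤ K₁) (hf : ∀ x : V, R ≤ ‖x‖ → ‖f x‖ * Real.exp (P * ‖x‖) ≤ M)
    (hg : ∀ x : V, R ≤ ‖x‖ → ‖g x‖ * Real.exp (P * ‖x‖) ≤ M) :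
    LL f g P ≤ Real.exp (P * R) * LL f g 0
      + (2 * (1 + X) ^ (Module.finrank ℝ V + 1) * M + K₁) * ∫ x : V, wt V x := by
  have hpt : ∀ x : V, (‖f x‖ + ‖g x‖) * Real.exp (P * ‖x‖)
      ≤ Real.exp (P * R) * ((‖f x‖ + ‖g x‖) * Real.exp (0 * ‖x‖))
        + (2 * (1 + X) ^ (Module.finrank ℝ V + 1) * M + K₁) * wt V x := by
    intro x
    have hw := wt_pos x
    have hn0 : 0 ≤ ‖x‖ := norm_nonneg x
    have h2 : 0 ≤ Real.exp (P * R) * ((‖f x‖ + ‖g x‖) * Real.exp (0 * ‖x‖)) := by positivity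
    have hKw : 0 ≤ K₁ * wt V x := by positivity
    rcases le_or_gt X ‖x‖ with h | h
    · have h1 := ht x h
      have h3 : (‖f x‖ + ‖g x‖) * Real.exp (P * ‖x‖)
          ≤ (‖f x‖ + ‖g x‖) * Real.exp ((P + 1) * ‖x‖) := by
        apply mul_le_mul_of_nonneg_left _ (by positivity)
        apply Real.exp_le_exp.2
        nlinarith
      have h4 : 0 ≤ 2 * (1 + X) ^ (Module.finrank ℝ V + 1) * M * wt V x := by positivity
      linarith
    · rcases le_or_gt R ‖x‖ with h5 | h5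
      · have h6 : (‖f x‖ + ‖g x‖) * Real.exp (P * ‖x‖) ≤ 2 * M := by
          have := hf x h5
          have := hg x h5
          linarith
        have h7 : 1 ≤ (1 + X) ^ (Module.finrank ℝ V + 1) * wt V x := by
          rw [wt, ← div_eq_mul_inv, one_le_div (by positivity)]
          apply pow_le_pow_left₀ (by positivity)
          linarith
        have h8 : 2 * M ≤ 2 * M * ((1 + X) ^ (Module.finrank ℝ V + 1) * wt V x) :=
          le_mul_of_one_le_right (by positivity) h7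
        linarith
      · have h6 : Real.exp (P * ‖x‖) ≤ Real.exp (P * R) :=
          Real.exp_le_exp.2 (mul_le_mul_of_nonneg_left h5.le hP)
        have h7 := mul_le_mul_of_nonneg_left h6 (by positivity : 0 ≤ ‖f x‖ + ‖g x‖)
        have h8 : 0 ≤ 2 * (1 + X) ^ (Module.finrank ℝ V + 1) * M * wt V x := by
          have : 0 < X := by linarith
          positivity
        rw [zero_mul, Real.exp_zero, mul_one]
        linarith
  have hi : Integrable fun x : V => Real.exp (P * R) * ((‖f x‖ + ‖g x‖) * Real.exp (0 * ‖x‖))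
        + (2 * (1 + X) ^ (Module.finrank ℝ V + 1) * M + K₁) * wt V x :=
    ((LL_int p.sf p.sg' 0).const_mul _).add (wt_int.const_mul _)
  refine (integral_mono (LL_int p.sf p.sg' P) hi hpt).trans (le_of_eq ?_)
  rw [integral_add ((LL_int p.sf p.sg' 0).const_mul _) (wt_int.const_mul _), integral_const_mul,
    integral_const_mul]
  rfl

end Pool.Agent.SX
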