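import Pool.Agent.Lib_helper71.SX.Rec
import Pool.Agent.Lib_helper71.SX.Num

/-!
# MP_a65497_an: one value of `P`
-/

set_option autoImplicit false

namespace Pool.Agent.SX

open MeasureTheory Complex Filter Topology Set
open Pool.Agent.GU
open scoped FourierTransform

variable {V : Type*} [NormedAddCommGroup V] [InnerProductSpace ℝ V] [FiniteDimensional ℝ V]
  [MeasurableSpace V] [BorelSpace V]
variable {k n₀ : ℕ} {e : V} {f g : V → ℂ}

theorem Pr.step (p : Pr k n₀ e f g) {R P h X W K₁ r : ℝ} {n : ℕ} (hR : Rm k n₀ ≤ R)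
    (hRκ : (k : ℝ) * (2 * Module.finrank ℝ V + 2) ≤ R) (hh : 1 / 4 ≤ h)
    (hPh : P = 2 * Real.pi * h) (hP4 : 4 ≤ P) (hX : 1 ≤ X) (hhX : h ≤ X)
    (hn : h ^ 2 + (Module.finrank ℝ V : ℝ) / 4 = n + 1 / 2) (hXR : (P + 1) * R ≤ X)
    (hK₁ : 0 ≤ K₁)
    (ht : ∀ x : V, X ≤ ‖x‖ → (‖f x‖ + ‖g x‖) * Real.exp ((P + 1) * ‖x‖) ≤ K₁ * wt V x)
    (hW : 1 ≤ W)
    (h1 : 8 * (P + 1) * 2 ^ Module.finrank ℝ V * C1 k (LL f g) ≤ W)
    (h2 : 4 * 2 ^ k ≤ W) (h3 : LL f g 0 ≤ W)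
    (h4 : C1 k (LL f g) * ((Real.exp 2 * ((Module.finrank ℝ V - 1).factorial
      * (2 * X) ^ (Module.finrank ℝ V - 1) * (2 * X))) * Sd V) ≤ W)
    (h5 : h * (R + h) ^ (Module.finrank ℝ V - 1) * Sd V * C1 k (LL f g) ≤ W)
    (h6 : 2 * (1 + X) ^ (Module.finrank ℝ V + 1) * (∫ x : V, wt V x) ≤ W)
    (h7 : K₁ * (∫ x : V, wt V x) + 1 ≤ W)
    (hWa : 12 * W ^ 4 * Real.exp (-(2 * P)) ≤ 1) (hr : R + 1 ≤ r) :
    Real.exp (-(2 * P)) * (‖GG k n₀ (HF g e) (r : ℂ)‖ * Real.exp (P * r))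
      ≤ Real.exp ((R + 1 + 2 * Module.finrank ℝ V) * P) := by
  have hπ := Real.pi_pos
  set d := Module.finrank ℝ V with hd
  set m := d - 1 with hm
  set I₀ : ℝ := ∫ x : V, wt V x with hI₀
  have hI₀0 : 0 ≤ I₀ := integral_nonneg fun x => (wt_pos x).le
  have hL := p.lp
  have hC := C1_pos (k := k) hL
  have hLP := hL.nn P
  have hL0 := hL.nn 0
  have hS : 0 ≤ Sd V := ENNReal.toReal_nonneg
  have hR0 := p.dat.Rm1
  set κ : ℝ := 2 * (d : ℝ) + 2 with hκ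
  have hκ0 : 0 ≤ κ := by rw [hκ]; positivity
  set M : ℝ := Mb V k (LL f g) R P h κ X with hM
  have hMb : ∀ t : ℝ, R + 1 ≤ t → ‖GG k n₀ (HF g e) (t : ℂ)‖ * Real.exp (P * t) ≤ M :=
    fun t htt => p.M_bd hR hRκ hh hPh hP4 hκ0 hX hhX hn htt
  have hLLc : LL g f = LL f g := by
    funext t
    exact LL_comm g f t
  have hMb' : ∀ t : ℝ, R + 1 ≤ t → ‖GG k n₀ (HF f e) (t : ℂ)‖ * Real.exp (P * t) ≤ M := by
    intro t htt
    have := p.symm.M_bd hR hRκ hh hPh hP4 hκ0 hX hhX hn htt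
    rwa [hLLc] at this
  have hM0 : 0 ≤ M := le_trans (by positivity) (hMb r hr)
  have hf : ∀ x : V, R + 1 ≤ ‖x‖ → ‖f x‖ * Real.exp (P * ‖x‖) ≤ M := by
    intro x hx
    refine le_trans ?_ (hMb ‖x‖ hx)
    exact mul_le_mul_of_nonneg_right (p.f_bd (by linarith)) (Real.exp_pos _).le
  have hg : ∀ x : V, R + 1 ≤ ‖x‖ → ‖g x‖ * Real.exp (P * ‖x‖) ≤ M := by
    intro x hx
    refine le_trans ?_ (hMb' ‖x‖ hx)
    exact mul_le_mul_of_nonneg_right (p.symm.f_bd (by linarith)) (Real.exp_pos _).le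
  have hLs := LL_succ p ht hK₁
  have hLl := LL_le p (by linarith) hM0 (by linarith) ht hK₁ hf hg
  rw [← hI₀] at hLs hLl
  -- the numbers
  set a : ℝ := Real.exp (-(2 * P)) with ha
  set b : ℝ := (a ^ d)⁻¹ with hb
  set u : ℝ := Real.exp (-(κ * P)) with hu
  set q : ℝ := Real.exp (P * R) with hq
  set E : ℝ := Ec V k (LL f g) R P h κ X with hE
  set T' : ℝ := C1 k (LL f g) * (LL f g (P + 1) + Real.exp ((P + 1) * R)) with hT'
  have hb1 : b = Real.exp (2 * d * P) := by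
    rw [hb, ha, ← Real.exp_nat_mul, ← Real.exp_neg]
    congr 1
    ring
  have hP0 : 0 ≤ P := by linarith
  have hub : u * b = a := by
    rw [hb1, hu, ha, ← Real.exp_add, hκ]
    congr 1
    ring
  have key := num1 (a := a) (b := b) (u := u) (q := q) (q' := Real.exp (P * (R + 1)))
    (Z := Real.exp ((R + 1 + 2 * d) * P)) (L := LL f g P) (L0 := LL f g 0) (W := W)
    (C₁ := C1 k (LL f g)) (A₁ := 8 * (P + 1) * 2 ^ d) (A₂ := 4 * 2 ^ k)
    (A₃ := (Real.exp 2 * (m.factorial * (2 * X) ^ m * (2 * X))) * Sd V)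
    (A₄ := h * (R + h) ^ m * Sd V) (A₅ := 2 * (1 + X) ^ (d + 1) * I₀) (KI := K₁ * I₀)
    (T'' := T' * Real.exp (-X)) (M := M) (E := E) hLP hL0 hW (Real.exp_pos _) ?_ ?_
    (Real.exp_pos _) hub ?_ ?_ ?_ hC (by positivity) (by positivity) (by positivity)
    (by
      have : 0 ≤ R + h := by linarith
      have : 0 ≤ h := by linarith
      positivity) (by positivity) h1 h2 h3 h4 h5 h6 (by linarith) ?_ ?_ ?_ ?_ hM0 ?_ hWa
  · refine le_trans (mul_le_mul_of_nonneg_left (hMb r hr) (Real.exp_pos _).le) key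
  · rw [ha, Real.exp_le_one_iff]
    linarith
  · rw [hb1]
    exact Real.one_le_exp (by positivity)
  · rw [hq]
    apply Real.one_le_exp
    exact mul_nonneg hP0 (by linarith)
  · apply Real.exp_le_exp.2
    have : 0 ≤ 2 * (d : ℝ) * P := by positivity
    linarith
  · rw [hb1, hq, ← Real.exp_add]
    apply Real.exp_le_exp.2
    linarith
  · -- T''
    have t1 : LL f g (P + 1) + Real.exp ((P + 1) * R)
        ≤ (LL f g P + K₁ * I₀ + 1) * Real.exp X := by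
      have t2 : Real.exp ((P + 1) * R) ≤ Real.exp X := Real.exp_le_exp.2 hXR
      have t3 : K₁ * I₀ ≤ K₁ * I₀ * Real.exp X :=
        le_mul_of_one_le_right (by positivity) (Real.one_le_exp (by linarith))
      linarith
    calc T' * Real.exp (-X) = C1 k (LL f g) * ((LL f g (P + 1) + Real.exp ((P + 1) * R))
          * Real.exp (-X)) := by rw [hT']; ring
      _ ≤ C1 k (LL f g) * (((LL f g P + K₁ * I₀ + 1) * Real.exp X) * Real.exp (-X)) :=
          mul_le_mul_of_nonneg_left (mul_le_mul_of_nonneg_right t1 (Real.exp_pos _).le) hC.le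
      _ = C1 k (LL f g) * (LL f g P + K₁ * I₀ + 1) := by
          rw [mul_assoc (LL f g P + K₁ * I₀ + 1), ← Real.exp_add, add_neg_cancel, Real.exp_zero,
            mul_one]
      _ ≤ C1 k (LL f g) * (LL f g P + W) := mul_le_mul_of_nonneg_left (by linarith) hC.le
  · rw [hE, Ec, HB]
    ring
  · rw [hM, Mb]
    ring
  · exact Ec_nonneg p (by linarith) (by linarith) (by linarith)
  · refine hLl.trans (le_of_eq ?_)
    ring

end Pool.Agent.SX
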