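import Pool.Agent.Lib_helper71.SX.Stp
import Pool.Agent.Lib_helper71.GU.Touch

/-!
# MP_a65497_an: uniqueness in the class `O(exp (- c |x| ^ α))`, `α > 1`
-/

set_option autoImplicit false

namespace Pool.Agent.SX

open MeasureTheory Complex Filter Topology Set
open Pool.Agent.GU
open scoped FourierTransform SchwartzMap

variable {V : Type*} [NormedAddCommGroup V] [InnerProductSpace ℝ V] [FiniteDimensional ℝ V]
  [MeasurableSpace V] [BorelSpace V]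
variable {k n₀ : ℕ} {e : V} {f g : V → ℂ}

/-- the final decay of the numbers -/
theorem ev_small (K₂ : ℝ) (N D : ℕ) :
    ∀ᶠ P : ℝ in atTop, 12 * (K₂ * (1 + P ^ N) ^ D) ^ 4 * Real.exp (-(2 * P)) ≤ 1 := by
  have h1 := Real.tendsto_pow_mul_exp_neg_atTop_nhds_zero (N * D * 4)
  have h2 : ∀ᶠ P : ℝ in atTop, 12 * K₂ ^ 4 * 2 ^ (D * 4) * (P ^ (N * D * 4) * Real.exp (-P)) ≤ 1 := by
    have h3 := h1.const_mul (12 * K₂ ^ 4 * 2 ^ (D * 4))
    rw [mul_zero] at h3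
    exact (h3.eventually (gt_mem_nhds (zero_lt_one))).mono fun P hP => hP.le
  filter_upwards [h2, eventually_ge_atTop 1] with P hP hP1
  have hPN : 1 ≤ P ^ N := one_le_pow₀ hP1
  have h4 : (1 + P ^ N) ^ (D * 4) ≤ 2 ^ (D * 4) * P ^ (N * D * 4) := by
    calc (1 + P ^ N) ^ (D * 4) ≤ (2 * P ^ N) ^ (D * 4) :=
          pow_le_pow_left₀ (by positivity) (by linarith) _
      _ = 2 ^ (D * 4) * P ^ (N * D * 4) := by
          rw [mul_pow, ← pow_mul, mul_assoc N]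
  have h5 : Real.exp (-(2 * P)) ≤ Real.exp (-P) := Real.exp_le_exp.2 (by linarith)
  calc 12 * (K₂ * (1 + P ^ N) ^ D) ^ 4 * Real.exp (-(2 * P))
      = 12 * K₂ ^ 4 * ((1 + P ^ N) ^ (D * 4) * Real.exp (-(2 * P))) := by
        rw [mul_pow, ← pow_mul]
        ring
    _ ≤ 12 * K₂ ^ 4 * ((2 ^ (D * 4) * P ^ (N * D * 4)) * Real.exp (-P)) := by
        apply mul_le_mul_of_nonneg_left _ (by positivity)
        exact mul_le_mul h4 h5 (Real.exp_pos _).le (by positivity)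
    _ = 12 * K₂ ^ 4 * 2 ^ (D * 4) * (P ^ (N * D * 4) * Real.exp (-P)) := by ring
    _ ≤ 1 := hP

/-- the sequence of parameters -/
theorem seq_h (d : ℕ) : ∃ h : ℕ → ℝ, Tendsto h atTop atTop ∧
    ∀ n, d ≤ n → h n ^ 2 + (d : ℝ) / 4 = n + 1 / 2 := by
  refine ⟨fun n => Real.sqrt (n + 1 / 2 - d / 4), ?_, fun n hn => ?_⟩
  · apply Real.tendsto_sqrt_atTop.comp
    have h1 : Tendsto (fun n : ℕ => (n : ℝ) + (1 / 2 - d / 4)) atTop atTop :=
      tendsto_atTop_add_const_right _ _ tendsto_natCast_atTop_atTop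
    refine h1.congr fun n => ?_
    ring
  · have h1 : (d : ℝ) ≤ n := by exact_mod_cast hn
    have h2 : (0 : ℝ) ≤ d := by positivity
    rw [Real.sq_sqrt (by linarith)]
    ring

/-- one value of `P` -/
theorem Pr.vstep (p : Pr k n₀ e f g) {α c C Cw R P h K₂ : ℝ} {N n : ℕ} (hα1 : 0 < α - 1)
    (hc : 0 < c) (hC : 0 ≤ C)
    (hb : ∀ x, ‖f x‖ + ‖g x‖ ≤ C * Real.exp (-(c * ‖x‖ ^ α)))
    (hCw0 : 0 ≤ Cw) (hCw : ∀ x : V, Real.exp (-‖x‖) ≤ Cw * wt V x) (hN2 : 2 ≤ N)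
    (hNα : 2 ≤ N * (α - 1)) (hd1 : 1 ≤ Module.finrank ℝ V) (hRR : Rm k n₀ ≤ R)
    (hRκ : (k : ℝ) * (2 * Module.finrank ℝ V + 2) ≤ R)
    (b1 : 8 * 2 ^ Module.finrank ℝ V * C1 k (LL f g) ≤ K₂) (b2 : 4 * 2 ^ k ≤ K₂)
    (b3 : LL f g 0 ≤ K₂)
    (b4 : C1 k (LL f g) * (Real.exp 2 * (Module.finrank ℝ V - 1).factorial
      * 2 ^ Module.finrank ℝ V) * Sd V ≤ K₂)
    (b5 : (1 + R) ^ (Module.finrank ℝ V - 1) * Sd V * C1 k (LL f g) ≤ K₂)
    (b6 : 2 * (∫ x : V, wt V x) ≤ K₂) (b7 : C * Cw * (∫ x : V, wt V x) + 1 ≤ K₂)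
    (hn : h ^ 2 + (Module.finrank ℝ V : ℝ) / 4 = n + 1 / 2) (hPdef : P = 2 * Real.pi * h)
    (q1 : 12 * (K₂ * (1 + P ^ N) ^ (Module.finrank ℝ V + 1)) ^ 4 * Real.exp (-(2 * P)) ≤ 1)
    (q2 : 8 ≤ P) (q3 : 3 / c ≤ P) (q4 : 2 * R ≤ P) {r : ℝ}
    (hr : R + 2 * Module.finrank ℝ V + 4 ≤ r) :
    ‖GG k n₀ (HF g e) (r : ℂ)‖ ≤ Real.exp (-P) := by
  have hπ := Real.pi_pos
  have hπ3 := Real.pi_gt_three
  have hπ4 := Real.pi_le_four
  have hR1 := p.dat.Rm1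
  have hC1 : 0 < C1 k (LL f g) := C1_pos (k := k) p.lp
  have hS : 0 ≤ Sd V := ENNReal.toReal_nonneg
  have hI₀0 : 0 ≤ ∫ x : V, wt V x := integral_nonneg fun x => (wt_pos x).le
  have hR0 : 0 ≤ R := by linarith
  have hK₁0 : 0 ≤ C * Cw := mul_nonneg hC hCw0
  have hK₂1 : 1 ≤ K₂ := by
    have : 0 ≤ C * Cw * (∫ x : V, wt V x) := mul_nonneg hK₁0 hI₀0
    linarith
  have hP0 : 0 < P := by linarith
  have hP1 : 1 ≤ P := by linarith
  have hh4 : 1 / 4 ≤ h := by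
    by_contra hcon
    push Not at hcon
    have : P ≤ 2 * Real.pi * (1 / 4) := by
      rw [hPdef]
      exact mul_le_mul_of_nonneg_left hcon.le (by positivity)
    linarith
  have hhP : h ≤ P := by
    rw [hPdef]
    have h1 : 1 ≤ 2 * Real.pi := by linarith
    calc h = 1 * h := (one_mul h).symm
      _ ≤ 2 * Real.pi * h := mul_le_mul_of_nonneg_right h1 (by linarith)
  obtain ⟨X, hX⟩ : ∃ X : ℝ, X = P ^ N := ⟨_, rfl⟩
  rw [← hX] at q1
  have hX1 : 1 ≤ X := by rw [hX]; exact one_le_pow₀ hP1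
  have hPX2 : P ^ 2 ≤ X := by rw [hX]; exact pow_le_pow_right₀ hP1 hN2
  have hPX : P ≤ X := by
    have : P * 1 ≤ P * P := mul_le_mul_of_nonneg_left hP1 hP0.le
    rw [← pow_two, mul_one] at this
    exact this.trans hPX2
  have hhX : h ≤ X := hhP.trans hPX
  have hXR : (P + 1) * R ≤ X := by
    have h1 : (P + 1) * R ≤ (2 * P) * R := mul_le_mul_of_nonneg_right (by linarith) hR0
    have h2 : P * (2 * R) ≤ P * P := mul_le_mul_of_nonneg_left q4 hP0.le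
    have h3 : (2 * P) * R = P * (2 * R) := by ring
    rw [h3] at h1
    rw [← pow_two] at h2
    exact h1.trans (h2.trans hPX2)
  have ht : ∀ x : V, X ≤ ‖x‖ →
      (‖f x‖ + ‖g x‖) * Real.exp ((P + 1) * ‖x‖) ≤ (C * Cw) * wt V x := by
    intro x hx
    have hx0 : 0 < ‖x‖ := by linarith
    have h1 : (P + 2) * ‖x‖ ≤ c * ‖x‖ ^ α := by
      have h2 : ‖x‖ ^ α = ‖x‖ ^ (α - 1) * ‖x‖ := by
        have : α = (α - 1) + 1 := by ring
        conv_lhs => rw [this]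
        rw [Real.rpow_add hx0, Real.rpow_one]
      have h3 : P ^ (2 : ℝ) ≤ ‖x‖ ^ (α - 1) := by
        calc P ^ (2 : ℝ) ≤ P ^ ((N : ℝ) * (α - 1)) := Real.rpow_le_rpow_of_exponent_le hP1 hNα
          _ = X ^ (α - 1) := by rw [Real.rpow_mul hP0.le, Real.rpow_natCast, hX]
          _ ≤ ‖x‖ ^ (α - 1) := Real.rpow_le_rpow (by linarith) hx hα1.le
      rw [Real.rpow_two] at h3
      rw [h2, ← mul_assoc]
      apply mul_le_mul_of_nonneg_right _ hx0.le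
      have h4 : P + 2 ≤ c * P ^ 2 := by
        have h5 : 3 ≤ c * P := by
          rw [div_le_iff₀ hc] at q3
          linarith
        have h6 : 3 * P ≤ (c * P) * P := mul_le_mul_of_nonneg_right h5 hP0.le
        have h7 : (c * P) * P = c * P ^ 2 := by ring
        linarith
      exact h4.trans (mul_le_mul_of_nonneg_left h3 hc.le)
    calc (‖f x‖ + ‖g x‖) * Real.exp ((P + 1) * ‖x‖)
        ≤ (C * Real.exp (-(c * ‖x‖ ^ α))) * Real.exp ((P + 1) * ‖x‖) :=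
          mul_le_mul_of_nonneg_right (hb x) (Real.exp_pos _).le
      _ = C * Real.exp (-(c * ‖x‖ ^ α) + (P + 1) * ‖x‖) := by rw [mul_assoc, ← Real.exp_add]
      _ ≤ C * Real.exp (-‖x‖) := by
          apply mul_le_mul_of_nonneg_left _ hC
          apply Real.exp_le_exp.2
          linarith
      _ ≤ C * (Cw * wt V x) := mul_le_mul_of_nonneg_left (hCw x) hC
      _ = (C * Cw) * wt V x := by ring
  have hX11 : 1 ≤ 1 + X := by linarith
  have hY1 : (1 : ℝ) ≤ (1 + X) ^ (Module.finrank ℝ V + 1) := one_le_pow₀ hX11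
  have hY : ∀ t : ℝ, t ≤ K₂ → t ≤ K₂ * (1 + X) ^ (Module.finrank ℝ V + 1) := by
    intro t htt
    exact htt.trans (le_mul_of_one_le_right (by linarith) hY1)
  have hY2 : ∀ t s : ℝ, 0 ≤ t → t ≤ K₂ → s ≤ (1 + X) ^ (Module.finrank ℝ V + 1) →
      t * s ≤ K₂ * (1 + X) ^ (Module.finrank ℝ V + 1) := by
    intro t s ht0 ht1 hs1
    exact (mul_le_mul_of_nonneg_left hs1 ht0).trans
      (mul_le_mul_of_nonneg_right ht1 (zero_le_one.trans hY1))
  have hd0 : (0 : ℝ) ≤ Module.finrank ℝ V := Nat.cast_nonneg _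
  have c1 : 8 * (P + 1) * 2 ^ Module.finrank ℝ V * C1 k (LL f g)
      ≤ K₂ * (1 + X) ^ (Module.finrank ℝ V + 1) := by
    have e1 : 8 * (P + 1) * 2 ^ Module.finrank ℝ V * C1 k (LL f g)
        = (8 * 2 ^ Module.finrank ℝ V * C1 k (LL f g)) * (P + 1) := by ring
    rw [e1]
    apply hY2 _ _ (by positivity) b1
    calc P + 1 ≤ (1 + X) ^ 1 := by rw [pow_one]; linarith
      _ ≤ (1 + X) ^ (Module.finrank ℝ V + 1) := pow_le_pow_right₀ hX11 (by omega)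
  have c4 : C1 k (LL f g) * ((Real.exp 2 * ((Module.finrank ℝ V - 1).factorial
      * (2 * X) ^ (Module.finrank ℝ V - 1) * (2 * X))) * Sd V)
      ≤ K₂ * (1 + X) ^ (Module.finrank ℝ V + 1) := by
    have e2 : (2 * X) ^ (Module.finrank ℝ V - 1) * (2 * X)
        = 2 ^ Module.finrank ℝ V * X ^ Module.finrank ℝ V := by
      rw [← pow_succ, Nat.sub_add_cancel hd1, mul_pow]
    have e1 : C1 k (LL f g) * ((Real.exp 2 * ((Module.finrank ℝ V - 1).factorial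
        * (2 * X) ^ (Module.finrank ℝ V - 1) * (2 * X))) * Sd V)
        = (C1 k (LL f g) * (Real.exp 2 * (Module.finrank ℝ V - 1).factorial
          * 2 ^ Module.finrank ℝ V) * Sd V) * X ^ Module.finrank ℝ V := by
      rw [mul_assoc (((Module.finrank ℝ V - 1).factorial : ℝ)), e2]
      ring
    rw [e1]
    apply hY2 _ _ (by positivity) b4
    calc X ^ Module.finrank ℝ V ≤ (1 + X) ^ Module.finrank ℝ V :=
          pow_le_pow_left₀ (by linarith) (by linarith) _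
      _ ≤ (1 + X) ^ (Module.finrank ℝ V + 1) := pow_le_pow_right₀ hX11 (by omega)
  have c5 : h * (R + h) ^ (Module.finrank ℝ V - 1) * Sd V * C1 k (LL f g)
      ≤ K₂ * (1 + X) ^ (Module.finrank ℝ V + 1) := by
    have hRX : 0 ≤ R * X := mul_nonneg hR0 (by linarith)
    have hRh : R + h ≤ (1 + R) * (1 + X) := by
      have : (1 + R) * (1 + X) = 1 + R + X + R * X := by ring
      linarith
    have h8 : (R + h) ^ (Module.finrank ℝ V - 1) ≤ ((1 + R) * (1 + X)) ^ (Module.finrank ℝ V - 1) :=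
      pow_le_pow_left₀ (by linarith) hRh _
    have h9 : h * (R + h) ^ (Module.finrank ℝ V - 1)
        ≤ (1 + R) ^ (Module.finrank ℝ V - 1) * (1 + X) ^ (Module.finrank ℝ V + 1) := by
      calc h * (R + h) ^ (Module.finrank ℝ V - 1)
          ≤ (1 + X) * ((1 + R) * (1 + X)) ^ (Module.finrank ℝ V - 1) :=
            mul_le_mul (by linarith) h8 (pow_nonneg (by linarith) _) (by linarith)
        _ = (1 + R) ^ (Module.finrank ℝ V - 1) * (1 + X) ^ (Module.finrank ℝ V - 1 + 1) := by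
            rw [mul_pow, pow_succ (1 + X)]; ring
        _ ≤ _ := by
            apply mul_le_mul_of_nonneg_left _ (by positivity)
            exact pow_le_pow_right₀ hX11 (by omega)
    calc h * (R + h) ^ (Module.finrank ℝ V - 1) * Sd V * C1 k (LL f g)
        = (h * (R + h) ^ (Module.finrank ℝ V - 1)) * (Sd V * C1 k (LL f g)) := by ring
      _ ≤ ((1 + R) ^ (Module.finrank ℝ V - 1) * (1 + X) ^ (Module.finrank ℝ V + 1))
          * (Sd V * C1 k (LL f g)) :=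
          mul_le_mul_of_nonneg_right h9 (by positivity)
      _ = ((1 + R) ^ (Module.finrank ℝ V - 1) * Sd V * C1 k (LL f g))
          * (1 + X) ^ (Module.finrank ℝ V + 1) := by ring
      _ ≤ _ := hY2 _ _ (by positivity) b5 le_rfl
  have c6 : 2 * (1 + X) ^ (Module.finrank ℝ V + 1) * (∫ x : V, wt V x)
      ≤ K₂ * (1 + X) ^ (Module.finrank ℝ V + 1) := by
    calc 2 * (1 + X) ^ (Module.finrank ℝ V + 1) * (∫ x : V, wt V x)
        = (2 * (∫ x : V, wt V x)) * (1 + X) ^ (Module.finrank ℝ V + 1) := by ring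
      _ ≤ _ := hY2 _ _ (by positivity) b6 le_rfl
  have hs := p.step (P := P) (h := h) (X := X)
    (W := K₂ * (1 + X) ^ (Module.finrank ℝ V + 1)) (r := r) hRR hRκ hh4 hPdef
    (by linarith) hX1 hhX hn hXR hK₁0 ht (hY 1 hK₂1) c1 (hY _ b2)
    (hY _ b3) c4 c5 c6 (hY _ b7) q1 (by linarith)
  have e1 : Real.exp (-(2 * P)) * (‖GG k n₀ (HF g e) (r : ℂ)‖ * Real.exp (P * r))
      = ‖GG k n₀ (HF g e) (r : ℂ)‖ * Real.exp (P * r - 2 * P) := by
    rw [show P * r - 2 * P = -(2 * P) + P * r by ring, Real.exp_add]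
    ring
  rw [e1] at hs
  have h9 : ‖GG k n₀ (HF g e) (r : ℂ)‖
      ≤ Real.exp ((R + 1 + 2 * Module.finrank ℝ V) * P - (P * r - 2 * P)) := by
    rw [Real.exp_sub, le_div_iff₀ (Real.exp_pos _)]
    exact hs
  refine h9.trans (Real.exp_le_exp.2 ?_)
  have h10 := mul_le_mul_of_nonneg_left hr hP0.le
  have e2 : (R + 1 + 2 * Module.finrank ℝ V) * P - (P * r - 2 * P)
      = P * (R + 2 * Module.finrank ℝ V + 4) - P * r - P := by ring
  rw [e2]
  linarith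

theorem Pr.vanish (p : Pr k n₀ e f g) {α c C : ℝ} (hα : 1 < α) (hc : 0 < c) (hC : 0 ≤ C)
    (hb : ∀ x, ‖f x‖ + ‖g x‖ ≤ C * Real.exp (-(c * ‖x‖ ^ α))) : f = 0 := by
  have hπ := Real.pi_pos
  have D := p.dat
  have hR1 := D.Rm1
  have hC1 : 0 < C1 k (LL f g) := C1_pos (k := k) p.lp
  have hL0 := p.lp.nn 0
  have hS : 0 ≤ Sd V := ENNReal.toReal_nonneg
  have hd1 : 1 ≤ Module.finrank ℝ V := by
    have : Nontrivial V := ⟨e, 0, by
      intro h0
      have := p.he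
      rw [h0, norm_zero] at this
      exact zero_ne_one this⟩
    exact Module.finrank_pos
  have hI₀0 : 0 ≤ ∫ x : V, wt V x := integral_nonneg fun x => (wt_pos x).le
  obtain ⟨R, hR⟩ : ∃ R : ℝ, R = Rm k n₀ + k * (2 * Module.finrank ℝ V + 2) := ⟨_, rfl⟩
  have hk0 : 0 ≤ (k : ℝ) * (2 * Module.finrank ℝ V + 2) := by positivity
  have hRR : Rm k n₀ ≤ R := by linarith
  have hRκ : (k : ℝ) * (2 * Module.finrank ℝ V + 2) ≤ R := by linarith
  have hR0 : 0 ≤ R := by linarith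
  obtain ⟨Cw, hCw0, hCw⟩ := exp_le_wt (V := V)
  have hα1 : 0 < α - 1 := by linarith
  obtain ⟨N, hN2, hNα⟩ : ∃ N : ℕ, 2 ≤ N ∧ 2 ≤ N * (α - 1) := by
    refine ⟨⌈2 / (α - 1)⌉₊ + 2, by omega, ?_⟩
    have h1 := Nat.le_ceil (2 / (α - 1))
    rw [div_le_iff₀ hα1] at h1
    push_cast
    linarith
  obtain ⟨K₂, hK₂⟩ : ∃ K₂ : ℝ, K₂ = 8 * 2 ^ Module.finrank ℝ V * C1 k (LL f g) + 4 * 2 ^ k
    + LL f g 0 + C1 k (LL f g) * (Real.exp 2 * (Module.finrank ℝ V - 1).factorial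
      * 2 ^ Module.finrank ℝ V) * Sd V
    + (1 + R) ^ (Module.finrank ℝ V - 1) * Sd V * C1 k (LL f g) + 2 * (∫ x : V, wt V x)
    + (C * Cw * (∫ x : V, wt V x) + 1) := ⟨_, rfl⟩
  have a1 : 0 ≤ 8 * 2 ^ Module.finrank ℝ V * C1 k (LL f g) := by positivity
  have a2 : (0 : ℝ) ≤ 4 * 2 ^ k := by positivity
  have a4 : 0 ≤ C1 k (LL f g) * (Real.exp 2 * (Module.finrank ℝ V - 1).factorial
      * 2 ^ Module.finrank ℝ V) * Sd V := by positivity
  have a5 : 0 ≤ (1 + R) ^ (Module.finrank ℝ V - 1) * Sd V * C1 k (LL f g) := by positivity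
  have a6 : 0 ≤ 2 * (∫ x : V, wt V x) := by positivity
  have a7 : 0 ≤ C * Cw * (∫ x : V, wt V x) := by positivity
  obtain ⟨h, hh, hn⟩ := seq_h (Module.finrank ℝ V)
  have hP : Tendsto (fun n => 2 * Real.pi * h n) atTop atTop :=
    hh.const_mul_atTop (by positivity)
  -- the values of `P`
  have hlarge : ∀ᶠ P : ℝ in atTop, (12 * (K₂ * (1 + P ^ N) ^ (Module.finrank ℝ V + 1)) ^ 4
      * Real.exp (-(2 * P)) ≤ 1) ∧ 8 ≤ P ∧ 3 / c ≤ P ∧ 2 * R ≤ P := by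
    filter_upwards [ev_small K₂ N (Module.finrank ℝ V + 1), eventually_ge_atTop 8,
      eventually_ge_atTop (3 / c), eventually_ge_atTop (2 * R)] with P q1 q2 q3 q4
    exact ⟨q1, q2, q3, q4⟩
  have hev : ∀ᶠ n in atTop, ∀ r : ℝ, R + 2 * Module.finrank ℝ V + 4 ≤ r →
      ‖GG k n₀ (HF g e) (r : ℂ)‖ ≤ Real.exp (-(2 * Real.pi * h n)) := by
    filter_upwards [hP.eventually hlarge, eventually_ge_atTop (Module.finrank ℝ V)] with n hln hdn
    intro r hr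
    obtain ⟨q1, q2, q3, q4⟩ := hln
    exact p.vstep hα1 hc hC hb hCw0.le hCw hN2 hNα hd1 hRR hRκ (by linarith) (by linarith)
      (by linarith) (by linarith) (by linarith) (by linarith) (by linarith) (hn n hdn) rfl
      q1 q2 q3 q4 hr
  -- the quotient vanishes far out
  have hG0 : ∀ r : ℝ, R + 2 * Module.finrank ℝ V + 4 ≤ r → GG k n₀ (HF g e) (r : ℂ) = 0 := by
    intro r hr
    have h1 : Tendsto (fun n => Real.exp (-(2 * Real.pi * h n))) atTop (𝓝 0) :=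
      Real.tendsto_exp_neg_atTop_nhds_zero.comp hP
    have h2 : ‖GG k n₀ (HF g e) (r : ℂ)‖ ≤ 0 := by
      apply ge_of_tendsto h1
      filter_upwards [hev] with n hn'
      exact hn' r hr
    exact norm_le_zero_iff.1 h2
  obtain ⟨r₀, hr₀⟩ : ∃ r₀ : ℝ, r₀ = R + 2 * Module.finrank ℝ V + 4 := ⟨_, rfl⟩
  rw [← hr₀] at hG0
  have hr₀R : Rm k n₀ ≤ r₀ := by
    have hd0 : (0 : ℝ) ≤ Module.finrank ℝ V := Nat.cast_nonneg _
    linarith
  have hH0 : ∀ r : ℝ, r₀ ≤ r → HF g e (r : ℂ) = 0 := by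
    intro r hr
    rw [D.eq (r := r) (hr₀R.trans hr), hG0 r hr, zero_mul]
  have hall : ∀ ρ : ℂ, HF g e ρ = 0 := by
    have hana : AnalyticOnNhd ℂ (HF g e) Set.univ := fun z _ => D.hH.analyticAt z
    have hfreq : ∃ᶠ z in 𝓝[≠] (r₀ : ℂ), HF g e z = 0 := by
      have h5 : Tendsto (fun s : ℝ => (s : ℂ)) (𝓝[>] r₀) (𝓝[≠] (r₀ : ℂ)) := by
        apply tendsto_nhdsWithin_of_tendsto_nhds_of_eventually_within
        · exact (Complex.continuous_ofReal.tendsto _).mono_left nhdsWithin_le_nhds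
        · filter_upwards [self_mem_nhdsWithin] with s hs
          intro h6
          have h7 : (s : ℂ) = (r₀ : ℂ) := h6
          have h8 : s = r₀ := by exact_mod_cast h7
          exact (ne_of_gt hs) h8
      apply h5.frequently
      apply Eventually.frequently
      filter_upwards [self_mem_nhdsWithin] with s hs
      exact hH0 s (le_of_lt hs)
    intro ρ
    exact hana.eqOn_zero_of_preconnected_of_frequently_eq_zero isPreconnected_univ
      (Set.mem_univ _) hfreq (Set.mem_univ ρ)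
  funext x
  rw [p.val x, hall]
  rfl

theorem sm_of {f : V → ℂ} (hf : Continuous f) {α c C : ℝ} (hα : 1 < α) (hc : 0 < c) (hC : 0 ≤ C)
    (hb : ∀ x, ‖f x‖ ≤ C * Real.exp (-(c * ‖x‖ ^ α))) : SM f := by
  refine ⟨hf.aestronglyMeasurable, fun T => ?_⟩
  obtain ⟨A, hA⟩ := lin_bound hα hc T
  refine ⟨C * Real.exp A, fun x => (hb x).trans ?_⟩
  rw [mul_assoc, ← Real.exp_add]
  apply mul_le_mul_of_nonneg_left _ hC
  apply Real.exp_le_exp.2
  have := hA ‖x‖ (norm_nonneg x)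
  linarith

/-- Uniqueness in the class `O(exp (- c |x| ^ α))`, `α > 1`. -/
theorem super_exp_class {e : V} (he : ‖e‖ = 1) {k n₀ : ℕ} (hk : 0 < k) (f : 𝓢(V, ℂ))
    (hr : Rad (f : V → ℂ)) (hz1 : Zer k n₀ e (f : V → ℂ)) (hz2 : Zer k n₀ e (𝓕 (f : V → ℂ)))
    {α c C : ℝ} (hα : 1 < α) (hc : 0 < c) (hb : ∀ x, ‖f x‖ ≤ C * Real.exp (-(c * ‖x‖ ^ α))) :
    f = 0 := by
  have hC : 0 ≤ C := by
    have h := (norm_nonneg _).trans (hb 0)
    exact nonneg_of_mul_nonneg_left h (Real.exp_pos _)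
  -- the exponent between 1 and 2
  set β : ℝ := min α (3 / 2) with hβ
  have hβ1 : 1 < β := lt_min hα (by norm_num)
  have hβ2 : β < 2 := (min_le_right _ _).trans_lt (by norm_num)
  set C₂ : ℝ := C * Real.exp c with hC₂
  have hC₂0 : 0 ≤ C₂ := by positivity
  have hb2 : ∀ x, ‖f x‖ ≤ C₂ * Real.exp (-(c * ‖x‖ ^ β)) := by
    intro x
    refine (hb x).trans ?_
    rw [hC₂, mul_assoc, ← Real.exp_add]
    apply mul_le_mul_of_nonneg_left _ hC
    apply Real.exp_le_exp.2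
    have h1 : ‖x‖ ^ β ≤ 1 + ‖x‖ ^ α := by
      rcases le_total ‖x‖ 1 with h | h
      · have h2 : ‖x‖ ^ β ≤ 1 := Real.rpow_le_one (norm_nonneg _) h (by linarith)
        have h3 : 0 ≤ ‖x‖ ^ α := Real.rpow_nonneg (norm_nonneg _) _
        linarith
      · have h2 : ‖x‖ ^ β ≤ ‖x‖ ^ α := Real.rpow_le_rpow_of_exponent_le h (min_le_left _ _)
        linarith
    nlinarith
  have hcoe : ((𝓕 f : 𝓢(V, ℂ)) : V → ℂ) = 𝓕 (f : V → ℂ) := SchwartzMap.fourier_coe f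
  have hz1' : Zer k (n₀ + 1) e (f : V → ℂ) := fun n hn j hj => hz1 n (by omega) j hj
  have hz2' : Zer k (n₀ + 1) e (𝓕 (f : V → ℂ)) := fun n hn j hj => hz2 n (by omega) j hj
  obtain ⟨B, hB⟩ := (𝓕 f : 𝓢(V, ℂ)).decay 0 0
  have hB' : ∀ x, ‖𝓕 (f : V → ℂ) x‖ ≤ B := by
    intro x
    have := hB.2 x
    simpa [← hcoe] using this
  obtain ⟨C₃, hC₃, hb3⟩ := classF he hk (n₀ := n₀ + 1) (by omega) hβ1 hβ2 hc f.continuous hr hz2'
    hC₂0 hb2 hB'
  have hff : 𝓕 (𝓕 (f : V → ℂ)) = (f : V → ℂ) := by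
    have h1 := fourier_fourier hr
    have h2 : ((𝓕 (𝓕 f : 𝓢(V, ℂ)) : 𝓢(V, ℂ)) : V → ℂ) = 𝓕 (𝓕 (f : V → ℂ)) := by
      rw [SchwartzMap.fourier_coe, SchwartzMap.fourier_coe]
    rw [← h2, h1]
  have hcontF : Continuous (𝓕 (f : V → ℂ)) := by
    rw [← hcoe]
    exact (𝓕 f : 𝓢(V, ℂ)).continuous
  have p : Pr k (n₀ + 1) e (f : V → ℂ) (𝓕 (f : V → ℂ)) :=
    ⟨he, hk, by omega, sm_of f.continuous hβ1 hc hC₂0 hb2,
      sm_of hcontF hβ1 (by positivity : 0 < c / 2) hC₃ hb3, hr, rad_fourier hr, rfl, hff,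
      hz1', hz2'⟩
  have hv := p.vanish hβ1 (by positivity : 0 < c / 2) (by positivity : 0 ≤ C₂ + C₃) (by
    intro x
    have h1 : ‖f x‖ ≤ C₂ * Real.exp (-(c / 2 * ‖x‖ ^ β)) := by
      refine (hb2 x).trans (mul_le_mul_of_nonneg_left (Real.exp_le_exp.2 ?_) hC₂0)
      have : 0 ≤ ‖x‖ ^ β := Real.rpow_nonneg (norm_nonneg _) _
      nlinarith
    rw [add_mul]
    exact add_le_add h1 (hb3 x))
  ext x
  exact congrFun hv x

end Pool.Agent.SX
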